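import Pool.Agent.MP_ce0b4e_ag.Loc

universe u

open AlgebraicGeometry CategoryTheory

namespace Pool.Agent.KltOpen

/-- `HasKltBoundary` is invariant under homeomorphisms compatible with the local rings. -/
lemma HasKltBoundary.of_homeo {k K : Type u} [Field k] [Field K] [Algebra k K] {n : ℕ}
    {P Q : Type u} [TopologicalSpace P] [TopologicalSpace Q] (e : P ≃ₜ Q)
    {loc : P → Subalgebra k K} {loc' : Q → Subalgebra k K} {c : P → Prop} {c' : Q → Prop}
    (hloc : ∀ p, loc' (e p) = loc p) (hc : ∀ p, c' (e p) ↔ c p)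
    (h : HasKltBoundary n loc c) : HasKltBoundary n loc' c' := by
  obtain ⟨η, B, hη, hB, hB1, hB2, h⟩ := h
  have hloc' : ∀ y, loc (e.symm y) = loc' y := fun y => by rw [← hloc, e.apply_symm_apply]
  have hc2 : ∀ y, c (e.symm y) ↔ c' y := fun y => by rw [← hc, e.apply_symm_apply]
  refine ⟨η, B ∘ e.symm, hη, fun x => hB _, fun x hx => (hc2 x).1 (hB1 _ hx), ?_, ?_⟩
  · have : Function.support (B ∘ e.symm) = e '' Function.support B := by
      ext y
      simp only [Function.mem_support, Function.comp_apply, Set.mem_image]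
      constructor
      · intro hy
        exact ⟨e.symm y, hy, e.apply_symm_apply y⟩
      · rintro ⟨z, hz, rfl⟩
        rwa [e.symm_apply_apply]
    rw [this]
    exact hB2.image _
  · intro x
    obtain ⟨U, hU, hxU, m, r, F, hF, h1, h2⟩ := h (e.symm x)
    refine ⟨e.symm ⁻¹' U, hU.preimage e.symm.continuous, hxU, m, r, F, hF, ?_, ?_⟩
    · intro y hy hy'
      have := h1 (e.symm y) hy ((hc2 y).2 hy')
      rw [hloc' y] at this
      exact this
    · rintro O hO ⟨y, hy, hd⟩
      refine h2 O hO ⟨e.symm y, hy, ?_⟩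
      rw [hloc' y]
      exact hd

lemma hasKltBoundary_iff_of_homeo {k K : Type u} [Field k] [Field K] [Algebra k K] {n : ℕ}
    {P Q : Type u} [TopologicalSpace P] [TopologicalSpace Q] (e : P ≃ₜ Q)
    {loc : P → Subalgebra k K} {loc' : Q → Subalgebra k K} {c : P → Prop} {c' : Q → Prop}
    (hloc : ∀ p, loc' (e p) = loc p) (hc : ∀ p, c' (e p) ↔ c p) :
    HasKltBoundary n loc c ↔ HasKltBoundary n loc' c' :=
  ⟨HasKltBoundary.of_homeo e hloc hc, HasKltBoundary.of_homeo e.symm
    (fun y => by rw [← hloc, e.apply_symm_apply]) (fun y => by rw [← hc, e.apply_symm_apply])⟩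

section

variable {k : Type u} [Field k] {X : Scheme.{u}} [IsIntegral X] (s : X ⟶ Spec (.of k))

/-- The map `Γ(X, ⊤) → K(X)`. -/
noncomputable def secHom (X : Scheme.{u}) [IsIntegral X] : Γ(X, ⊤) →+* X.functionField :=
  (X.presheaf.germ ⊤ (genericPoint X) trivial).hom

lemma secHom_injective : Function.Injective (secHom X) :=
  germ_injective_of_isIntegral (X := X) (U := ⊤) (genericPoint X) trivial

lemma algebraMap_germ (x : X) (a : Γ(X, ⊤)) :
    algebraMap (X.presheaf.stalk x) X.functionField (X.presheaf.germ ⊤ x trivial a) =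
      secHom X a := by
  have := ConcreteCategory.congr_hom (X.presheaf.germ_stalkSpecializes
    (U := ⊤) (y := x) trivial ((genericPoint_spec X).specializes trivial)) a
  exact this

/-- The image of `Γ(X, ⊤)` in the function field. -/
noncomputable def secAlg :
    letI := functionFieldAlgebra s
    Subalgebra k X.functionField :=
  letI := functionFieldAlgebra s
  { (secHom X).range with
    algebraMap_mem' := fun c => ⟨((Scheme.ΓSpecIso (.of k)).inv ≫ s.appTop) c, rfl⟩ }

lemma mem_secAlg {z : X.functionField} :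
    letI := functionFieldAlgebra s
    z ∈ secAlg s ↔ ∃ a, secHom X a = z := Iff.rfl

lemma mem_localRing {z : X.functionField} {x : X} :
    letI := functionFieldAlgebra s
    z ∈ localRing s x ↔ ∃ a, algebraMap (X.presheaf.stalk x) X.functionField a = z := Iff.rfl

/-- `Γ(X, ⊤)` is isomorphic to its image. -/
noncomputable def secEquiv :
    letI := functionFieldAlgebra s
    Γ(X, ⊤) ≃+* secAlg s :=
  letI := functionFieldAlgebra s
  RingEquiv.ofBijective ((secHom X).codRestrict (secAlg s) (fun a => ⟨a, rfl⟩))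
    ⟨fun a b hab => secHom_injective (congrArg Subtype.val hab), by
      rintro ⟨z, a, rfl⟩
      exact ⟨a, rfl⟩⟩

lemma secEquiv_apply (a : Γ(X, ⊤)) :
    letI := functionFieldAlgebra s
    (secEquiv s a : X.functionField) = secHom X a := rfl

/-- The local ring is isomorphic to the stalk. -/
noncomputable def localRingEquiv (x : X) :
    letI := functionFieldAlgebra s
    X.presheaf.stalk x ≃+* localRing s x :=
  letI := functionFieldAlgebra s
  RingEquiv.ofBijective ((algebraMap (X.presheaf.stalk x) X.functionField).codRestrict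
      (localRing s x) (fun a => ⟨a, rfl⟩))
    ⟨fun a b hab => IsFractionRing.injective (X.presheaf.stalk x) X.functionField
      (congrArg Subtype.val hab), by
      rintro ⟨z, a, rfl⟩
      exact ⟨a, rfl⟩⟩

variable [IsAffine X]

/-- For affine `X`: the spectrum of the image of `Γ(X, ⊤)` is homeomorphic to `X`. -/
noncomputable def ptHomeo :
    letI := functionFieldAlgebra s
    PrimeSpectrum (secAlg s) ≃ₜ X :=
  letI := functionFieldAlgebra s
  (PrimeSpectrum.homeomorphOfRingEquiv (secEquiv s).symm).trans
    (Scheme.homeoOfIso X.isoSpec.symm)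

lemma localRing_ptHomeo :
    letI := functionFieldAlgebra s
    ∀ p : PrimeSpectrum (secAlg s), localRing s (ptHomeo s p) = locAt (secAlg s) p.asIdeal := by
  let _ := functionFieldAlgebra s
  intro p
  set y : PrimeSpectrum Γ(X, ⊤) :=
    PrimeSpectrum.homeomorphOfRingEquiv (secEquiv s).symm p with hy
  have hyp : ∀ a : Γ(X, ⊤), a ∈ y.asIdeal ↔ secEquiv s a ∈ p.asIdeal := by
    intro a
    rw [hy]
    rfl
  have hx : ptHomeo s p = (isAffineOpen_top X).fromSpec y := by
    rw [IsAffineOpen.fromSpec_top]
    rfl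
  rw [hx]
  have hloc := (isAffineOpen_top X).isLocalization_stalk' y trivial
  set x := (isAffineOpen_top X).fromSpec y with hxdef
  let alg := TopCat.Presheaf.algebra_section_stalk X.presheaf (⟨x, trivial⟩ : (⊤ : X.Opens))
  have hloc' : @IsLocalization Γ(X, ⊤) _ y.asIdeal.primeCompl (X.presheaf.stalk x) _ alg := hloc
  have halg : ∀ a : Γ(X, ⊤), algebraMap Γ(X, ⊤) (X.presheaf.stalk x) a =
    X.presheaf.germ ⊤ x trivial a := fun _ => rfl
  ext z
  rw [mem_localRing]
  constructor
  · rintro ⟨t, rfl⟩
    obtain ⟨⟨a, b⟩, hab⟩ := IsLocalization.surj (M := y.asIdeal.primeCompl) t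
    refine ⟨secEquiv s a, secEquiv s b, fun hb => b.2 ((hyp b).2 hb), ?_⟩
    have := congrArg (algebraMap (X.presheaf.stalk x) X.functionField) hab
    rw [map_mul, halg, halg, algebraMap_germ, algebraMap_germ] at this
    exact this
  · rintro ⟨a, b, hb, hab⟩
    obtain ⟨a, rfl⟩ := (secEquiv s).surjective a
    obtain ⟨b, rfl⟩ := (secEquiv s).surjective b
    have hb' : b ∈ y.asIdeal.primeCompl := fun h => hb ((hyp b).1 h)
    have hu : IsUnit (algebraMap Γ(X, ⊤) (X.presheaf.stalk x) b) :=
      IsLocalization.map_units (X.presheaf.stalk x) (⟨b, hb'⟩ : y.asIdeal.primeCompl)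
    obtain ⟨w, hw⟩ := hu.exists_right_inv
    refine ⟨algebraMap Γ(X, ⊤) (X.presheaf.stalk x) a * w, ?_⟩
    have hw' := congrArg (algebraMap (X.presheaf.stalk x) X.functionField) hw
    rw [map_mul, map_one, halg, algebraMap_germ] at hw'
    rw [map_mul, halg, algebraMap_germ]
    change z * secHom X b = secHom X a at hab
    rw [← hab, mul_assoc, hw', mul_one]

lemma stalk_equiv :
    letI := functionFieldAlgebra s
    ∀ p : PrimeSpectrum (secAlg s),
      Nonempty (X.presheaf.stalk (ptHomeo s p) ≃+* locAt (secAlg s) p.asIdeal) := by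
  let _ := functionFieldAlgebra s
  intro p
  rw [← localRing_ptHomeo s p]
  exact ⟨localRingEquiv s _⟩

/-- Normality of an affine scheme, in terms of the coordinate ring. -/
lemma normal_iff_affine :
    letI := functionFieldAlgebra s
    (∀ x : X, IsIntegrallyClosed (X.presheaf.stalk x)) ↔
      (∀ p : PrimeSpectrum (secAlg s), IsIntegrallyClosed (locAt _ p.asIdeal)) := by
  let _ := functionFieldAlgebra s
  constructor
  · intro h p
    obtain ⟨e⟩ := stalk_equiv s p
    have := h (ptHomeo s p)
    exact IsIntegrallyClosed.of_equiv e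
  · intro h x
    obtain ⟨p, rfl⟩ := (ptHomeo s).surjective x
    obtain ⟨e⟩ := stalk_equiv s p
    have := h p
    exact IsIntegrallyClosed.of_equiv e.symm

/-- Being of klt type for an affine scheme, in terms of the coordinate ring. -/
theorem isKltType_iff_affine :
    letI := functionFieldAlgebra s
    IsKltType s ↔ (∀ p : PrimeSpectrum (secAlg s), IsIntegrallyClosed (locAt _ p.asIdeal)) ∧
      HasKltBoundary (Module.finrank X.functionField Ω[X.functionField⁄k])
        (fun p : PrimeSpectrum (secAlg s) => locAt _ p.asIdeal)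
        (fun p => ringKrullDim (locAt (secAlg s) p.asIdeal) = 1) := by
  let _ := functionFieldAlgebra s
  have hic := normal_iff_affine s
  have hb := hasKltBoundary_iff_of_homeo
    (n := Module.finrank X.functionField Ω[X.functionField⁄k]) (ptHomeo s)
    (loc := fun p : PrimeSpectrum (secAlg s) => locAt (secAlg s) p.asIdeal)
    (loc' := localRing s)
    (c := fun p => ringKrullDim (locAt (secAlg s) p.asIdeal) = 1)
    (c' := fun x => ringKrullDim (X.presheaf.stalk x) = 1)
    (localRing_ptHomeo s) (by
      intro p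
      obtain ⟨e⟩ := stalk_equiv s p
      rw [ringKrullDim_eq_of_ringEquiv e])
  constructor
  · rintro ⟨_, h1, h2⟩
    exact ⟨hic.1 h1, hb.2 h2⟩
  · rintro ⟨h1, h2⟩
    exact ⟨inferInstance, hic.2 h1, hb.1 h2⟩

end

end Pool.Agent.KltOpen
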