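import Pool.Agent.MP_ce0b4e_ag.KltDefs
import Pool.Agent.MP_ce0b4e_ag.Defs
universe u
open AlgebraicGeometry CategoryTheory
namespace Pool.Agent.KltOpen
variable {k K : Type u} [Field k] [Field K] [Algebra k K]

lemma cmp_formOrd (n : ℕ) (O : Subalgebra k K) (η : ⋀[K]^n Ω[K⁄k]) :
    KltType.formOrd (KaehlerDifferential.D k K) n O η = formOrd n O η := rfl

lemma cmp_hasKltBoundary (n : ℕ) {P : Type u} [TopologicalSpace P] (loc : P → Subalgebra k K)
    (codimOne : P → Prop) : KltType.HasKltBoundary (KaehlerDifferential.D k K) n loc codimOne ↔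
    HasKltBoundary n loc codimOne := by
  unfold KltType.HasKltBoundary HasKltBoundary
  have h1 : ∀ O : Subalgebra k K, KltType.IsPrimeDivisorRing O ↔ IsPrimeDivisorRing O :=
    fun O => ⟨fun h => ⟨h.1, h.2, h.3⟩, fun h => ⟨h.1, h.2, h.3⟩⟩
  simp only [h1]
  rfl

lemma cmp_isKltType {X : Scheme.{u}} (s : X ⟶ Spec (.of k)) : KltType.IsKltType s ↔ IsKltType s := by
  unfold KltType.IsKltType IsKltType
  simp only [cmp_hasKltBoundary]
  rfl

lemma IsVariety.convert {X : Scheme.{u}} {s : X ⟶ Spec (.of k)} (h : IsVariety s) :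
    KltType.IsVariety s := ⟨h.1, h.2, h.3, h.4⟩

end Pool.Agent.KltOpen
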