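import Pool.Agent.MP_ce0b4e_ag.KltZero

universe u

open MvPolynomial KaehlerDifferential

namespace Pool.Agent.KltOpen

variable {k K : Type u} [Field k] [Field K] [Algebra k K]
variable {x y q : K}

/-! ### Integral closedness of all fibres -/

lemma SR_pos {c : k} {i : ℕ} (hi : i ≤ 4) : x * q ^ i ∈ SR k x y q c := by
  interval_cases i
  · simpa using SR_x x y q c
  · simpa using SR_x1 x y q c
  · exact SR_x2 x y q c
  · exact SR_x3 x y q c
  · exact SR_x4 x y q c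

lemma SR_neg {c : k} {i : ℕ} (hi : i ≤ 4) : ff x y c * q⁻¹ ^ i ∈ SR k x y q c := by
  interval_cases i
  · simpa using SR_f x y q c
  · simpa using SR_f1 x y q c
  · exact SR_f2 x y q c
  · exact SR_f3 x y q c
  · exact SR_f4 x y q c

lemma SR_pos_monomial (c : k) (j : ℕ) : ∀ d : ℕ, d ≤ 4 * j → x ^ j * q ^ d ∈ SR k x y q c := by
  induction j with
  | zero =>
    intro d h1
    have : d = 0 := by omega
    rw [this]; simp
  | succ j ih =>
    intro d h1
    obtain ⟨i, hi1, hi2, hi3⟩ : ∃ i : ℕ, i ≤ 4 ∧ i ≤ d ∧ d - i ≤ 4 * j := by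
      rcases le_total d 4 with hd | hd
      · exact ⟨d, hd, le_rfl, by omega⟩
      · exact ⟨4, le_rfl, hd, by omega⟩
    have e : x ^ (j + 1) * q ^ d = (x * q ^ i) * (x ^ j * q ^ (d - i)) := by
      have : q ^ d = q ^ i * q ^ (d - i) := by
        rw [← pow_add]; congr 1; omega
      rw [this, pow_succ]; ring
    rw [e]
    exact Subalgebra.mul_mem _ (SR_pos hi1) (ih _ hi3)

lemma SR_neg_monomial (c : k) (j : ℕ) :
    ∀ d : ℕ, d ≤ 4 * j → ff x y c ^ j * q⁻¹ ^ d ∈ SR k x y q c := by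
  induction j with
  | zero =>
    intro d h1
    have : d = 0 := by omega
    rw [this]; simp
  | succ j ih =>
    intro d h1
    obtain ⟨i, hi1, hi2, hi3⟩ : ∃ i : ℕ, i ≤ 4 ∧ i ≤ d ∧ d - i ≤ 4 * j := by
      rcases le_total d 4 with hd | hd
      · exact ⟨d, hd, le_rfl, by omega⟩
      · exact ⟨4, le_rfl, hd, by omega⟩
    have e : ff x y c ^ (j + 1) * q⁻¹ ^ d =
        (ff x y c * q⁻¹ ^ i) * (ff x y c ^ j * q⁻¹ ^ (d - i)) := by
      have : q⁻¹ ^ d = q⁻¹ ^ i * q⁻¹ ^ (d - i) := by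
        rw [← pow_add]; congr 1; omega
      rw [this, pow_succ]; ring
    rw [e]
    exact Subalgebra.mul_mem _ (SR_neg hi1) (ih _ hi3)

variable (h : Coord k ![x, y, q])
include h

lemma A2_pair1 {a : K} (ha : a ∈ A2 k x y) (ha0 : a ≠ 0) : ∃ (j : ℕ) (b : K), b ∈ A2 k x y ∧
    a = x ^ j * b ∧ ord h.to1.Oc a = 4 * j := by
  obtain ⟨j, g, t, ht, hg, hz1⟩ := A2_decomp ha ha0
  have hx := h.ne_x
  set z' := Polynomial.aeval y g + x * t with hz'
  have hz'0 : z' ≠ 0 := by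
    intro h1
    apply ha0
    rw [hz1, h1, mul_zero]
  have hyA : Polynomial.aeval y g ∈ A2 k x y :=
    Algebra.adjoin_mono (by simp) (Polynomial.aeval_mem_adjoin_singleton k y)
  have hz'A : z' ∈ A2 k x y :=
    Subalgebra.add_mem _ hyA (Subalgebra.mul_mem _ (left_mem_A2 _ _) ht)
  have o1 : ord h.to1.Oc z' = 0 := by
    have e0 : ord h.to1.Oc (Polynomial.aeval y g) = 0 := h.to1.ord_poly_v2 hg
    rw [hz', (h.to1.dv.ord_add_eq hg _).2, e0]
    intro hxt
    have ht0 : t ≠ 0 := fun h1 => hxt (by rw [h1, mul_zero])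
    have := h.to1.dv.ord_nonneg ht0 (A2_le_1 h ht)
    rw [e0, h.to1.dv.ord_mul hx ht0, ord1_x h]
    omega
  refine ⟨j, z', hz'A, hz1, ?_⟩
  rw [hz1, h.to1.dv.ord_mul (pow_ne_zero j hx) hz'0, h.to1.dv.ord_pow hx, ord1_x h, o1]
  ring

lemma A2_pair2 (c : k) {a : K} (ha : a ∈ A2 k x y) (ha0 : a ≠ 0) :
    ∃ (j : ℕ) (b : K), b ∈ A2 k x y ∧
    a = ff x y c ^ j * b ∧ ord (h.to2 c).Oc a = 4 * j := by
  rw [← A2_ff x y c] at ha
  obtain ⟨j, g, t, ht, hg, hz1⟩ := A2_decomp ha ha0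
  have hf := h.ne_f c
  set z' := Polynomial.aeval y g + ff x y c * t with hz'
  have hz'0 : z' ≠ 0 := by
    intro h1
    apply ha0
    rw [hz1, h1, mul_zero]
  rw [A2_ff] at ht
  have hfA : ff x y c ∈ A2 k x y := by rw [← A2_ff x y c]; exact left_mem_A2 _ _
  have hyA : Polynomial.aeval y g ∈ A2 k x y :=
    Algebra.adjoin_mono (by simp) (Polynomial.aeval_mem_adjoin_singleton k y)
  have hz'A : z' ∈ A2 k x y :=
    Subalgebra.add_mem _ hyA (Subalgebra.mul_mem _ hfA ht)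
  have o1 : ord (h.to2 c).Oc z' = 0 := by
    have e0 : ord (h.to2 c).Oc (Polynomial.aeval y g) = 0 := (h.to2 c).ord_poly_v2 hg
    rw [hz', ((h.to2 c).dv.ord_add_eq hg _).2, e0]
    intro hxt
    have ht0 : t ≠ 0 := fun h1 => hxt (by rw [h1, mul_zero])
    have := (h.to2 c).dv.ord_nonneg ht0 (A2_le_2 h c ht)
    rw [e0, (h.to2 c).dv.ord_mul hf ht0, ord2_f h]
    omega
  refine ⟨j, z', hz'A, hz1, ?_⟩
  rw [hz1, (h.to2 c).dv.ord_mul (pow_ne_zero j hf) hz'0, (h.to2 c).dv.ord_pow hf, ord2_f h, o1]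
  ring

/-- The coordinate ring of the fibre over `c` as an intersection. -/
lemma mem_SR [CharZero k] (c : k) {z : K} (hz1 : z ∈ cring k ![x * q ^ 4, q⁻¹, y])
    (hz2 : z ∈ (h.to2 c).Oc) : z ∈ SR k x y q c := by
  obtain ⟨a, ha, hza⟩ := AL_rep h (cring1_le_AL hz1)
  have hq := h.ne_q
  rw [hza]
  refine Subalgebra.sum_mem _ fun d hd => ?_
  have hd0 : a d ≠ 0 := Finsupp.mem_support_iff.1 hd
  have h1 := le_comp_1 h ha (e := 0) (by
    rw [← hza, Coord.mem_filt, neg_zero, zpow_zero, mul_one]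
    exact h.to1.isLoc.le hz1) hd0
  have h2 := le_comp_2 h c ha (e := 0) (by
    rw [← hza, Coord.mem_filt, neg_zero, zpow_zero, mul_one]
    exact hz2) hd0
  change a d * q ^ d ∈ _
  rcases le_total 0 d with hd' | hd'
  · obtain ⟨i, rfl⟩ := Int.eq_ofNat_of_zero_le hd'
    obtain ⟨j, b, hb, hab, hj⟩ := A2_pair1 h (ha _) hd0
    rw [hj] at h1
    have e : a (i : ℤ) * q ^ (i : ℤ) = (x ^ j * q ^ i) * b := by
      rw [hab, zpow_natCast]; ring
    rw [e]
    exact Subalgebra.mul_mem _ (SR_pos_monomial c j i (by omega))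
      (A2_le (SR_x x y q c) (SR_y x y q c) hb)
  · obtain ⟨i, hi⟩ := Int.eq_ofNat_of_zero_le (Int.neg_nonneg.mpr hd')
    obtain rfl : d = -(i : ℤ) := by omega
    obtain ⟨j, b, hb, hab, hj⟩ := A2_pair2 h c (ha _) hd0
    rw [hj] at h2
    have e : a (-(i : ℤ)) * q ^ (-(i : ℤ)) = (ff x y c ^ j * q⁻¹ ^ i) * b := by
      rw [hab, zpow_neg, zpow_natCast, ← inv_pow]; ring
    rw [e]
    exact Subalgebra.mul_mem _ (SR_neg_monomial c j i (by omega))
      (A2_le (SR_x x y q c) (SR_y x y q c) hb)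

lemma SR_isIntegrallyClosed [CharZero k] (c : k) : IsIntegrallyClosed (SR k x y q c) := by
  have := SR_frac h c
  rw [isIntegrallyClosed_iff K]
  intro z hz
  have h1 : z ∈ cring k ![x * q ^ 4, q⁻¹, y] := by
    have hu := h.to1.ufd
    have hf := h.to1.isFractionRing
    exact mem_of_isIntegral (SR_le_cring1 h c) hz
  have h2 : z ∈ (h.to2 c).Oc := by
    have hd := (h.to2 c).dv.dvr
    have hf := (h.to2 c).dv.frac
    exact mem_of_isIntegral (SR_le_2 h c) hz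
  exact ⟨⟨z, mem_SR h c h1 h2⟩, rfl⟩

lemma SR_locAt_isIntegrallyClosed [CharZero k] (c : k) (p : Ideal (SR k x y q c)) [p.IsPrime] :
    IsIntegrallyClosed (locAt _ p) := by
  have := SR_isIntegrallyClosed h c
  let _ := (Subalgebra.inclusion (le_locAt (S := SR k x y q c) (p := p))).toAlgebra
  have := isLocalization_locAt p
  exact isIntegrallyClosed_of_isLocalization _ p.primeCompl
    (Ideal.primeCompl_le_nonZeroDivisors p)

end Pool.Agent.KltOpen
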