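import Pool.Agent.MP_ce0b4e_ag.Family3
import Pool.Agent.MP_ce0b4e_ag.Bridge
import Pool.Agent.MP_ce0b4e_ag.NormalAll

universe u

open AlgebraicGeometry CategoryTheory

namespace Pool.Agent.KltOpen

variable {k : Type u} [Field k]

lemma Coord.map {K L : Type u} [Field K] [Field L] [Algebra k K] [Algebra k L] {x y q : K}
    (h : Coord k ![x, y, q]) (ψ : K →ₐ[k] L) (hψ : Function.Surjective ψ) :
    Coord k ![ψ x, ψ y, ψ q] := by
  have hv : ![ψ x, ψ y, ψ q] = ψ ∘ ![x, y, q] := by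
    ext i; fin_cases i <;> rfl
  refine ⟨?_, ?_⟩
  · rw [hv]
    exact h.indep.map' ψ.toRingHom.injective
  · rw [hv, Set.range_comp, ← IntermediateField.adjoin_map, h.top, eq_top_iff]
    intro z _
    obtain ⟨w, rfl⟩ := hψ z
    exact ⟨w, trivial, rfl⟩

lemma SR_map {K L : Type u} [Field K] [Field L] [Algebra k K] [Algebra k L] (x y q : K)
    (ψ : K →ₐ[k] L) (c : k) : (SR k x y q c).map ψ = SR k (ψ x) (ψ y) (ψ q) c := by
  have hf : ψ (ff x y c) = ff (ψ x) (ψ y) c := by
    unfold ff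
    rw [map_sub, map_mul, map_pow, AlgHom.commutes]
  rw [SR, AlgHom.map_adjoin, SR]
  simp only [Set.image_insert_eq, Set.image_singleton, map_mul, map_pow, map_inv₀, hf]

theorem exists_coord {X : Scheme.{u}} [IsIntegral X] [IsAffine X] (s : X ⟶ Spec (.of k)) (c : k)
    (φ : fam c ≃+* Γ(X, ⊤))
    (hφ : ∀ a : k, φ (algebraMap k (fam c) a) =
      ((Scheme.ΓSpecIso (.of k)).inv ≫ s.appTop) a) :
    letI := functionFieldAlgebra s
    ∃ x y q : X.functionField, Coord k ![x, y, q] ∧ secAlg s = SR k x y q c := by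
  let _ := functionFieldAlgebra s
  obtain ⟨K, _, _, j, hj, hj'⟩ := exists_KL k
  have h := coordKL hj hj'
  have hfr := SR_frac h c
  have hmap : (fam c).map j = SR k (j Lx) (j Ly) (j Lq) c := map_fam c
  set S := SR k (j Lx) (j Ly) (j Lq) c with hS
  have hθ : ∀ w : S, ∃ v : fam c, j v = w := by
    intro w
    have hw : (w : K) ∈ (fam c).map j := by rw [hmap]; exact w.2
    obtain ⟨v, hv, hv'⟩ := hw
    exact ⟨⟨v, hv⟩, hv'⟩
  choose θ hθ using hθ
  have θ_add : ∀ a b, θ (a + b) = θ a + θ b := by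
    intro a b
    apply Subtype.ext
    apply hj
    rw [hθ]
    change _ = j (θ a + θ b)
    rw [map_add, hθ, hθ]
    rfl
  have θ_mul : ∀ a b, θ (a * b) = θ a * θ b := by
    intro a b
    apply Subtype.ext
    apply hj
    rw [hθ]
    change _ = j (θ a * θ b)
    rw [map_mul, hθ, hθ]
    rfl
  have θ_alg : ∀ a : k, θ (algebraMap k S a) = algebraMap k (fam c) a := by
    intro a
    apply Subtype.ext
    apply hj
    rw [hθ]
    exact (j.commutes a).symm
  have θ_surj : Function.Surjective θ := by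
    intro v
    refine ⟨⟨j v, by rw [← hmap]; exact ⟨v, v.2, rfl⟩⟩, ?_⟩
    apply Subtype.ext
    apply hj
    rw [hθ]
  have θ_one : θ 1 = 1 := by
    have := θ_alg 1
    rwa [map_one, map_one] at this
  have θ_zero : θ 0 = 0 := by
    have := θ_alg 0
    rwa [map_zero, map_zero] at this
  let β : S →+* X.functionField :=
    { toFun := fun w => secHom X (φ (θ w))
      map_one' := by rw [θ_one, map_one, map_one]
      map_mul' := fun a b => by rw [θ_mul, map_mul, map_mul]
      map_zero' := by rw [θ_zero, map_zero, map_zero]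
      map_add' := fun a b => by rw [θ_add, map_add, map_add] }
  have hβ : Function.Injective β := by
    intro a b hab
    have h1 : θ a = θ b := φ.injective (secHom_injective hab)
    apply Subtype.ext
    rw [← hθ a, ← hθ b, h1]
  let ψ₀ : K →+* X.functionField := IsFractionRing.lift hβ
  have hψ₀ : ∀ w : S, ψ₀ w = secHom X (φ (θ w)) := fun w => IsFractionRing.lift_algebraMap hβ w
  let ψ : K →ₐ[k] X.functionField :=
    { ψ₀ with
      commutes' := by
        intro a
        have h1 : (algebraMap k K a) = ((algebraMap k S a : S) : K) := rfl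
        change ψ₀ (algebraMap k K a) = _
        rw [h1, hψ₀, θ_alg, hφ]
        rfl }
  have hψ : ∀ w : S, ψ w = secHom X (φ (θ w)) := hψ₀
  have hsec : secAlg s = S.map ψ := by
    ext z
    rw [mem_secAlg]
    constructor
    · rintro ⟨a, rfl⟩
      obtain ⟨w, hw⟩ := θ_surj (φ.symm a)
      exact ⟨w, w.2, (hψ w).trans (by rw [hw, φ.apply_symm_apply])⟩
    · rintro ⟨w, hw, rfl⟩
      exact ⟨φ (θ ⟨w, hw⟩), (hψ ⟨w, hw⟩).symm⟩
  have hψs : Function.Surjective ψ := by
    intro z
    have : Nonempty (⊤ : X.Opens) := ⟨⟨genericPoint X, trivial⟩⟩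
    have hfr2 := functionField_isFractionRing_of_isAffineOpen (X := X) ⊤ (isAffineOpen_top X)
    obtain ⟨a, b, _, hab⟩ := IsFractionRing.div_surjective (A := Γ(X, ⊤)) z
    have ha : secHom X a ∈ secAlg s := ⟨a, rfl⟩
    have hb : secHom X b ∈ secAlg s := ⟨b, rfl⟩
    rw [hsec] at ha hb
    obtain ⟨a', _, ha'⟩ := ha
    obtain ⟨b', _, hb'⟩ := hb
    refine ⟨a' / b', ?_⟩
    rw [map_div₀, ← hab]
    exact congrArg₂ (· / ·) ha' hb'
  exact ⟨ψ (j Lx), ψ (j Ly), ψ (j Lq), h.map ψ hψs, by rw [hsec, hS, SR_map]⟩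

theorem isIntegrallyClosed_stalk [CharZero k] {X : Scheme.{u}} [IsIntegral X] [IsAffine X] {c : k}
    (s : X ⟶ Spec (.of k)) (φ : fam c ≃+* Γ(X, ⊤))
    (hφ : ∀ a : k, φ (algebraMap k (fam c) a) =
      ((Scheme.ΓSpecIso (.of k)).inv ≫ s.appTop) a) (p : X) :
    IsIntegrallyClosed (X.presheaf.stalk p) := by
  let _ := functionFieldAlgebra s
  obtain ⟨x, y, q, h, hsec⟩ := exists_coord s c φ hφ
  revert p
  rw [normal_iff_affine s, hsec]
  exact fun p => SR_locAt_isIntegrallyClosed h c p.asIdeal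

theorem isKltType_zero [CharZero k] {X : Scheme.{u}} [IsIntegral X] [IsAffine X]
    (s : X ⟶ Spec (.of k)) (φ : fam (0 : k) ≃+* Γ(X, ⊤))
    (hφ : ∀ a : k, φ (algebraMap k (fam (0 : k)) a) =
      ((Scheme.ΓSpecIso (.of k)).inv ≫ s.appTop) a) : IsKltType s := by
  let _ := functionFieldAlgebra s
  obtain ⟨x, y, q, h, hsec⟩ := exists_coord s 0 φ hφ
  rw [isKltType_iff_affine]
  rw [h.finrank, hsec]
  exact ⟨fun p => SR0_locAt_isIntegrallyClosed h p.asIdeal, hasKltBoundary_zero h⟩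

theorem not_isKltType [CharZero k] {X : Scheme.{u}} [IsIntegral X] [IsAffine X] {c : k}
    (hc : c ≠ 0) (s : X ⟶ Spec (.of k)) (φ : fam c ≃+* Γ(X, ⊤))
    (hφ : ∀ a : k, φ (algebraMap k (fam c) a) =
      ((Scheme.ΓSpecIso (.of k)).inv ≫ s.appTop) a) : ¬ IsKltType s := by
  let _ := functionFieldAlgebra s
  obtain ⟨x, y, q, h, hsec⟩ := exists_coord s c φ hφ
  rw [isKltType_iff_affine]
  rw [h.finrank, hsec]
  exact fun H => not_hasKltBoundary h hc H.2

end Pool.Agent.KltOpen
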