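import Pool.Agent.MP_ce0b4e_ag.Ord

universe u

open MvPolynomial

namespace Pool.Agent.KltOpen

variable {k K : Type u} [Field k] [Field K] [Algebra k K]

variable (k) in
/-- `v` is a system of algebraically independent generators of the field `K` over `k`. -/
structure Coord (v : Fin 3 → K) : Prop where
  indep : AlgebraicIndependent k v
  top : IntermediateField.adjoin k (Set.range v) = ⊤

variable (k) in
/-- The polynomial ring `k[v₀,v₁,v₂] ⊆ K`. -/
noncomputable def cring (v : Fin 3 → K) : Subalgebra k K :=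
  (aeval v : MvPolynomial (Fin 3) k →ₐ[k] K).range

lemma mem_cring {v : Fin 3 → K} {z : K} :
    z ∈ cring k v ↔ ∃ p : MvPolynomial (Fin 3) k, aeval v p = z := by
  simp [cring, AlgHom.mem_range]

lemma coord_mem_cring (v : Fin 3 → K) (i : Fin 3) : v i ∈ cring k v :=
  mem_cring.2 ⟨X i, by simp⟩

lemma cring_eq_adjoin (v : Fin 3 → K) : cring k v = Algebra.adjoin k (Set.range v) := by
  rw [cring, Algebra.adjoin_range_eq_range_aeval]

namespace Coord

variable {v : Fin 3 → K}

lemma aeval_injective (h : Coord k v) : Function.Injective (aeval v : MvPolynomial (Fin 3) k →ₐ[k] K) :=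
  h.indep

lemma aeval_ne_zero (h : Coord k v) {p : MvPolynomial (Fin 3) k} (hp : p ≠ 0) : aeval v p ≠ 0 := by
  intro h0
  exact hp (h.aeval_injective (by rw [h0, map_zero]))

lemma exists_frac (h : Coord k v) (z : K) :
    ∃ a ∈ cring k v, ∃ b ∈ cring k v, b ≠ 0 ∧ z = a / b := by
  have hz : z ∈ IntermediateField.adjoin k (Set.range v) := by rw [h.top]; trivial
  rw [IntermediateField.mem_adjoin_range_iff] at hz
  obtain ⟨r, s, hrs⟩ := hz
  by_cases hs : aeval v s = 0
  · refine ⟨0, (cring k v).zero_mem, 1, (cring k v).one_mem, one_ne_zero, ?_⟩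
    rw [hrs, hs]; simp
  · exact ⟨aeval v r, mem_cring.2 ⟨r, rfl⟩, aeval v s, mem_cring.2 ⟨s, rfl⟩, hs, hrs⟩

lemma isFractionRing (h : Coord k v) : IsFractionRing (cring k v) K := by
  refine IsFractionRing.of_field (cring k v) K ?_
  intro z
  obtain ⟨a, ha, b, hb, hb0, hz⟩ := h.exists_frac z
  exact ⟨⟨a, ha⟩, ⟨b, hb⟩, hz⟩

lemma isTranscendenceBasis (h : Coord k v) : IsTranscendenceBasis k v := by
  rw [h.indep.isTranscendenceBasis_iff_isAlgebraic, ← cring_eq_adjoin]
  have := h.isFractionRing
  exact IsLocalization.isAlgebraic _ (nonZeroDivisors (cring k v))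

lemma trdeg (h : Coord k v) : Algebra.trdeg k K = 3 := by
  have := h.isTranscendenceBasis.lift_cardinalMk_eq_trdeg
  simpa using this.symm

lemma change (h : Coord k v) {w : Fin 3 → K}
    (hw : ∀ i, v i ∈ IntermediateField.adjoin k (Set.range w)) : Coord k w := by
  have htop : IntermediateField.adjoin k (Set.range w) = ⊤ := by
    rw [eq_top_iff, ← h.top, IntermediateField.adjoin_le_iff]
    rintro _ ⟨i, rfl⟩
    exact hw i
  refine ⟨?_, htop⟩
  have hfr : IsFractionRing (Algebra.adjoin k (Set.range w)) K := by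
    refine IsFractionRing.of_field _ K ?_
    intro z
    have hz : z ∈ IntermediateField.adjoin k (Set.range w) := by rw [htop]; trivial
    rw [IntermediateField.mem_adjoin_range_iff] at hz
    obtain ⟨r, s, hrs⟩ := hz
    have hm : ∀ p : MvPolynomial (Fin 3) k, aeval w p ∈ Algebra.adjoin k (Set.range w) := by
      intro p
      rw [Algebra.adjoin_range_eq_range_aeval]
      exact ⟨p, rfl⟩
    exact ⟨⟨_, hm r⟩, ⟨_, hm s⟩, hrs⟩
  have : Algebra.IsAlgebraic (Algebra.adjoin k (Set.range w)) K :=
    IsLocalization.isAlgebraic _ (nonZeroDivisors (Algebra.adjoin k (Set.range w)))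
  refine (Algebra.IsAlgebraic.isTranscendenceBasis_of_lift_le_trdeg_of_finite k w ?_).1
  rw [h.trdeg]
  simp

end Coord

end Pool.Agent.KltOpen
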