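import Pool.Agent.MP_ce0b4e_ag.Loc

universe u

open MvPolynomial KaehlerDifferential

namespace Pool.Agent.KltOpen

variable {k K : Type u} [Field k] [Field K] [Algebra k K]

/-- The localization at a prime is a localization in the sense of Mathlib. -/
lemma isLocalization_locAt {S : Subalgebra k K} (p : Ideal S) [p.IsPrime] :
    letI := (Subalgebra.inclusion (le_locAt (S := S) (p := p))).toAlgebra
    IsLocalization.AtPrime (locAt S p) p := by
  let _ := (Subalgebra.inclusion (le_locAt (S := S) (p := p))).toAlgebra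
  have e : ∀ x : S, ((algebraMap S (locAt S p) x : locAt S p) : K) = x := fun _ => rfl
  constructor
  constructor
  · rintro ⟨y, hy⟩
    have hy0 := ne_zero_of_notMem hy
    refine DV.isUnit_of (O := locAt S p) (u := (y : K)) (le_locAt y.2) (inv_mem_locAt hy) hy0
  · rintro ⟨z, a, b, hb, h⟩
    refine ⟨(a, ⟨b, hb⟩), ?_⟩
    apply Subtype.ext
    exact h
  · intro x y hxy
    refine ⟨1, ?_⟩
    have : (x : K) = (y : K) := congrArg (fun t : locAt S p => (t : K)) hxy
    rw [Subtype.ext this]

lemma essFiniteType_locAt {S : Subalgebra k K} [Algebra.FiniteType k S] (p : Ideal S)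
    [p.IsPrime] : Algebra.EssFiniteType k (locAt S p) := by
  let _ := (Subalgebra.inclusion (le_locAt (S := S) (p := p))).toAlgebra
  have := isLocalization_locAt p
  have : IsScalarTower k S (locAt S p) := IsScalarTower.of_algebraMap_eq (fun _ => rfl)
  have : Algebra.EssFiniteType S (locAt S p) :=
    Algebra.EssFiniteType.of_isLocalization _ p.primeCompl
  exact Algebra.EssFiniteType.comp k S (locAt S p)

namespace Coord

variable {v : Fin 3 → K}

/-- `k[v]` is a polynomial ring. -/
noncomputable def equiv (h : Coord k v) : MvPolynomial (Fin 3) k ≃ₐ[k] cring k v :=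
  AlgEquiv.ofInjective (aeval v) h.aeval_injective

lemma equiv_apply (h : Coord k v) (p : MvPolynomial (Fin 3) k) :
    (h.equiv p : K) = aeval v p := rfl

lemma ufd (h : Coord k v) : UniqueFactorizationMonoid (cring k v) :=
  h.equiv.toMulEquiv.uniqueFactorizationMonoid inferInstance

lemma noeth (h : Coord k v) : IsNoetherianRing (cring k v) :=
  isNoetherianRing_of_ringEquiv _ h.equiv.toRingEquiv

lemma finiteType (_ : Coord k v) : Algebra.FiniteType k (cring k v) := by
  rw [← Subalgebra.fg_iff_finiteType, cring_eq_adjoin]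
  exact ⟨(Set.finite_range v).toFinset, by simp⟩

/-- The element `v₁` of `k[v]`. -/
noncomputable def v1 (_ : Coord k v) : cring k v := ⟨v 1, coord_mem_cring v 1⟩

lemma v1_eq (h : Coord k v) : h.v1 = h.equiv (X 1) := by
  apply Subtype.ext
  rw [equiv_apply, aeval_X]; rfl

lemma prime_v1 (h : Coord k v) : Prime h.v1 := by
  rw [v1_eq]
  exact (MulEquiv.prime_iff h.equiv.toMulEquiv).2 MvPolynomial.X_prime

lemma isPrime (h : Coord k v) : (Ideal.span {h.v1}).IsPrime := by
  rw [Ideal.span_singleton_prime h.prime_v1.ne_zero]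
  exact h.prime_v1

/-- The local ring of affine space with coordinates `v` at the generic point of `v₁ = 0`. -/
noncomputable def Oc (h : Coord k v) : Subalgebra k K :=
  haveI := h.isPrime
  locAt (cring k v) (Ideal.span {h.v1})

lemma dv (h : Coord k v) : DV h.Oc (v 1) := by
  have := h.isPrime
  have := h.ufd
  have := h.isFractionRing
  exact dv_locAt h.prime_v1

lemma isLoc (h : Coord k v) : IsLoc v h.Oc := by
  have := h.isPrime
  refine ⟨le_locAt, ?_⟩
  intro z hz
  obtain ⟨a, b, hb, rfl⟩ := mem_locAt_iff_div.1 hz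
  exact ⟨a, a.2, b, b.2, ne_zero_of_notMem hb, inv_mem_locAt hb, rfl⟩

lemma isPrimeDivisorRing (h : Coord k v) : IsPrimeDivisorRing h.Oc where
  dvr := h.dv.dvr
  frac := h.dv.frac
  ess := by
    have := h.isPrime
    have := h.finiteType
    exact essFiniteType_locAt _

lemma ord_aeval_nonneg (h : Coord k v) {p : MvPolynomial (Fin 3) k} (hp : p ≠ 0) :
    0 ≤ ord h.Oc (aeval v p) :=
  h.dv.ord_nonneg (h.aeval_ne_zero hp) (h.isLoc.le (mem_cring.2 ⟨p, rfl⟩))

lemma ord_aeval_eq_zero (h : Coord k v) {p : MvPolynomial (Fin 3) k}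
    (hX : ¬ (X 1 : MvPolynomial (Fin 3) k) ∣ p) : ord h.Oc (aeval v p) = 0 := by
  have hp : p ≠ 0 := by rintro rfl; exact hX (dvd_zero _)
  have := h.isPrime
  rw [← h.dv.unit_iff (h.aeval_ne_zero hp)]
  refine ⟨h.isLoc.le (mem_cring.2 ⟨p, rfl⟩), ?_⟩
  have : h.equiv p ∉ Ideal.span {h.v1} := by
    rw [Ideal.mem_span_singleton, v1_eq]
    intro hd
    exact hX ((map_dvd_iff h.equiv).1 hd)
  exact inv_mem_locAt this

lemma dvd_of_ord_pos (h : Coord k v) {p : MvPolynomial (Fin 3) k}
    (hp : 0 < ord h.Oc (aeval v p)) : (X 1 : MvPolynomial (Fin 3) k) ∣ p := by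
  by_contra hX
  rw [h.ord_aeval_eq_zero hX] at hp
  exact lt_irrefl _ hp

/-- Polynomials in `v₀` and `v₂` are units along `v₁ = 0`. -/
lemma ord_eq_zero_of_free (h : Coord k v) {p : MvPolynomial (Fin 3) k} (hp : p ≠ 0)
    (hf : aeval (fun i => if i = 1 then 0 else X i : Fin 3 → MvPolynomial (Fin 3) k) p = p) :
    ord h.Oc (aeval v p) = 0 := by
  apply h.ord_aeval_eq_zero
  rintro ⟨q, hq⟩
  apply hp
  rw [← hf, hq, map_mul, aeval_X]
  simp

lemma ord_v0 (h : Coord k v) : ord h.Oc (v 0) = 0 := by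
  have := h.ord_eq_zero_of_free (p := X 0) (X_ne_zero 0) (by rw [aeval_X]; simp)
  simpa using this

lemma ord_v1 (h : Coord k v) : ord h.Oc (v 1) = 1 := h.dv.ord_unif

lemma ord_v2 (h : Coord k v) : ord h.Oc (v 2) = 0 := by
  have := h.ord_eq_zero_of_free (p := X 2) (X_ne_zero 2) (by rw [aeval_X]; simp)
  simpa using this

lemma ord_poly_v2 (h : Coord k v) {g : Polynomial k} (hg : Polynomial.aeval (v 2) g ≠ 0) :
    ord h.Oc (Polynomial.aeval (v 2) g) = 0 := by
  have e : aeval v (Polynomial.aeval (X 2 : MvPolynomial (Fin 3) k) g) =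
      Polynomial.aeval (v 2) g := by
    rw [← Polynomial.aeval_algHom_apply, aeval_X]
  have := h.ord_eq_zero_of_free (p := Polynomial.aeval (X 2 : MvPolynomial (Fin 3) k) g)
    (by
      intro h0
      apply hg
      rw [← e, h0, map_zero])
    (by rw [← Polynomial.aeval_algHom_apply, aeval_X]; simp)
  rwa [e] at this

lemma ne_zero (h : Coord k v) (i : Fin 3) : v i ≠ 0 := by
  have := h.aeval_ne_zero (p := X i) (X_ne_zero i)
  simpa using this

end Coord

end Pool.Agent.KltOpen
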