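import Pool.Agent.MP_ce0b4e_ag.Connect

universe u

open AlgebraicGeometry CategoryTheory Limits Polynomial

namespace Pool.Agent.KltOpen

lemma isPushout_of_surjective {A B R S : Type u} [CommRing A] [CommRing B] [CommRing R]
    [CommRing S] (a : A →+* B) (b : A →+* R) (p : B →+* S) (i : R →+* S)
    (comm : p.comp a = i.comp b) (hb : Function.Surjective b) (hp : Function.Surjective p)
    (hker : ∀ x, p x = 0 → ∃ z y, b z = 0 ∧ x = a z * y) :
    IsPushout (CommRingCat.ofHom a) (CommRingCat.ofHom b) (CommRingCat.ofHom p)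
      (CommRingCat.ofHom i) := by
  have hw : CommRingCat.ofHom a ≫ CommRingCat.ofHom p =
      CommRingCat.ofHom b ≫ CommRingCat.ofHom i := by
    ext x
    exact RingHom.congr_fun comm x
  refine IsPushout.of_isColimit' ⟨hw⟩ (PushoutCocone.isColimitAux' _ fun s => ?_)
  have hs : ∀ x, s.inl (a x) = s.inr (b x) := fun x =>
    ConcreteCategory.congr_hom s.condition x
  have hle : RingHom.ker p ≤ RingHom.ker s.inl.hom := by
    intro x hx
    obtain ⟨z, y, hz, rfl⟩ := hker x hx
    rw [RingHom.mem_ker, map_mul]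
    have := hs z
    rw [hz, map_zero] at this
    change s.inl.hom (a z) = 0 at this
    rw [this, zero_mul]
  let d : S →+* s.pt := p.liftOfSurjective hp ⟨s.inl.hom, hle⟩
  have hd : ∀ x, d (p x) = s.inl x := fun x =>
    RingHom.liftOfSurjective_comp_apply p hp ⟨s.inl.hom, hle⟩ x
  refine ⟨CommRingCat.ofHom d, ?_, ?_, ?_⟩
  · ext x
    exact hd x
  · ext x
    obtain ⟨z, rfl⟩ := hb x
    change d (i (b z)) = s.inr (b z)
    have h1 : i (b z) = p (a z) := (RingHom.congr_fun comm z).symm
    rw [h1, hd, hs]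
  · intro m hm _
    ext x
    obtain ⟨z, rfl⟩ := hp x
    change m (p z) = d (p z)
    rw [hd]
    exact ConcreteCategory.congr_hom hm z

variable {k : Type u} [Field k]

variable (k) in
/-- The affine line. -/
noncomputable abbrev TT : Scheme.{u} := Spec (.of k[X])

variable (k) in
/-- The structure map of the affine line. -/
noncomputable def gT : TT k ⟶ Spec (.of k) := Spec.map (CommRingCat.ofHom (C : k →+* k[X]))

variable (k) in
/-- The total space. -/
noncomputable abbrev XX : Scheme.{u} := Spec (.of (fam (X : k[X])))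

variable (k) in
/-- The family. -/
noncomputable def fX : XX k ⟶ TT k :=
  Spec.map (CommRingCat.ofHom (algebraMap k[X] (fam (X : k[X]))))

/-- The point of the affine line with coordinate `c`. -/
noncomputable def ptT (c : k) : Spec (.of k) ⟶ TT k :=
  Spec.map (CommRingCat.ofHom (evalRingHom c))

lemma ptT_gT (c : k) : ptT c ≫ gT k = 𝟙 _ := by
  rw [ptT, gT, ← Spec.map_comp, ← CommRingCat.ofHom_comp]
  have : (evalRingHom c).comp (C : k →+* k[X]) = RingHom.id k := by
    ext; simp
  rw [this]
  exact Spec.map_id _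

lemma ev_X (c : k) : evalRingHom c (X : k[X]) = c := by simp

/-- The fibre over `c`. -/
noncomputable abbrev XXc (c : k) : Scheme.{u} := Spec (.of (fam c))

/-- Its structure map. -/
noncomputable def sX (c : k) : XXc c ⟶ Spec (.of k) :=
  Spec.map (CommRingCat.ofHom (algebraMap k (fam c)))

/-- Its inclusion. -/
noncomputable def iX (c : k) : XXc c ⟶ XX k :=
  Spec.map (CommRingCat.ofHom (famMap (ev_X c)))

lemma isPullback_iX (c : k) : IsPullback (iX c) (sX c) (fX k) (ptT c) := by
  refine isPullback_SpecMap_of_isPushout _ _ _ _ ?_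
  refine isPushout_of_surjective _ _ _ _ ?_ ?_ ?_ ?_
  · exact RingHom.ext fun x => famMap_algebraMap (ev_X c) x
  · intro a
    exact ⟨C a, by simp⟩
  · exact famMap_surjective (ev_X c) (fun a => ⟨C a, by simp⟩)
  · intro F hF
    obtain ⟨G, hG⟩ := exists_of_famMap_eq_zero (ev_X c) hF
    exact ⟨X - C c, G, by simp, hG⟩

instance : IsIntegral (TT k) := inferInstance
instance : IsIntegral (XX k) := inferInstance
instance (c : k) : IsIntegral (XXc c) := inferInstance

instance : LocallyOfFiniteType (gT k) := by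
  rw [gT, HasRingHomProperty.Spec_iff (P := @LocallyOfFiniteType)]
  change (algebraMap k k[X]).FiniteType
  rw [RingHom.finiteType_algebraMap]
  infer_instance

instance : LocallyOfFiniteType (fX k) := by
  rw [fX, HasRingHomProperty.Spec_iff (P := @LocallyOfFiniteType)]
  change (algebraMap k[X] (fam (X : k[X]))).FiniteType
  rw [RingHom.finiteType_algebraMap]
  infer_instance

instance (c : k) : LocallyOfFiniteType (sX c) := by
  rw [sX, HasRingHomProperty.Spec_iff (P := @LocallyOfFiniteType)]
  change (algebraMap k (fam c)).FiniteType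
  rw [RingHom.finiteType_algebraMap]
  infer_instance

instance : Flat (fX k) := by
  rw [fX, Flat.SpecMap_iff]
  change (algebraMap k[X] (fam (X : k[X]))).Flat
  rw [RingHom.flat_algebraMap_iff]
  infer_instance

lemma isVariety_gT : IsVariety (gT k) where
  integral := inferInstance
  separated := by rw [gT]; infer_instance
  locallyOfFiniteType := inferInstance
  quasiCompact := by rw [gT]; infer_instance

lemma isVariety_sX (c : k) : IsVariety (sX c) where
  integral := inferInstance
  separated := by rw [sX]; infer_instance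
  locallyOfFiniteType := inferInstance
  quasiCompact := by rw [sX]; infer_instance

/-- The augmentation `x = y = 0`, `q = 1`. -/
lemma exists_augmentation : ∃ ρ : fam (X : k[X]) →+* k[X],
    ρ.comp (algebraMap k[X] (fam (X : k[X]))) = RingHom.id _ := by
  let ev : k[X][X][X] →+* k[X] := (evalRingHom 0).comp (evalRingHom 0)
  let ρ : AddMonoidAlgebra k[X][X][X] ℤ →+* k[X] :=
    AddMonoidAlgebra.liftNCRingHom ev (1 : Multiplicative ℤ →* k[X]) (fun _ _ => Commute.all _ _)
  refine ⟨ρ.comp (fam (X : k[X])).val.toRingHom, RingHom.ext fun a => ?_⟩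
  change ρ (AddMonoidAlgebra.single 0 (C (C a))) = a
  change AddMonoidAlgebra.liftNC _ _ (AddMonoidAlgebra.single 0 (C (C a))) = a
  rw [AddMonoidAlgebra.liftNC_single]
  simp [ev]

instance : Surjective (fX k) := by
  obtain ⟨ρ, hρ⟩ := exists_augmentation (k := k)
  refine ⟨fun t => ⟨Spec.map (CommRingCat.ofHom ρ) t, ?_⟩⟩
  rw [fX, ← Scheme.Hom.comp_apply, ← Spec.map_comp, ← CommRingCat.ofHom_comp, hρ]
  simp

section Closed

variable [IsAlgClosed k]

/-- Every closed point of the affine line has a coordinate. -/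
lemma exists_ptT (t : TT k) (ht : IsClosed {t}) :
    ∃ c : k, pointOfClosedPoint (gT k) t ht = ptT c := by
  set σ := pointOfClosedPoint (gT k) t ht with hσ
  have h1 : σ ≫ gT k = 𝟙 _ := pointOfClosedPoint_comp _ _ _
  set φ := Spec.preimage σ with hφ
  have h2 : Spec.map φ = σ := Spec.map_preimage _
  refine ⟨φ.hom X, ?_⟩
  rw [← h2, ptT]
  congr 1
  ext1
  have h3 : φ.hom.comp (C : k →+* k[X]) = RingHom.id k := by
    have h4 : CommRingCat.ofHom (C : k →+* k[X]) ≫ φ = 𝟙 _ := by
      apply Spec.map_injective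
      rw [Spec.map_comp, h2]
      exact h1.trans (Spec.map_id _).symm
    have := congrArg CommRingCat.Hom.hom h4
    exact this
  refine Polynomial.ringHom_ext ?_ ?_
  · intro a
    have := RingHom.congr_fun h3 a
    simp only [CommRingCat.hom_ofHom, coe_evalRingHom, eval_C]
    exact this
  · simp

/-- The fibre over a closed point. -/
lemma exists_fibre_iso (t : TT k) (ht : IsClosed {t}) (c : k)
    (hc : pointOfClosedPoint (gT k) t ht = ptT c) :
    ∃ e : (fX k).fiber t ≅ XXc c, (fX k).fiberι t ≫ fX k ≫ gT k = e.hom ≫ sX c := by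
  have h1 : IsPullback ((fX k).fiberι t) ((fX k).fiberToSpecResidueField t) (fX k)
    ((TT k).fromSpecResidueField t) := IsPullback.of_hasPullback _ _
  have h2 := isPullback_iX c
  set α := residueFieldIsoBase (gT k) t ht with hα
  have h3 : Spec.map α.hom ≫ (TT k).fromSpecResidueField t = ptT c := hc
  have h4 : (TT k).fromSpecResidueField t = Spec.map α.inv ≫ ptT c := by
    rw [← h3, ← Category.assoc, ← Spec.map_comp, α.hom_inv_id, Spec.map_id, Category.id_comp]
  have h5 : IsPullback ((fX k).fiberι t) ((fX k).fiberToSpecResidueField t ≫ Spec.map α.inv)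
    (fX k) (ptT c) := by
    refine IsPullback.of_iso h1 (Iso.refl _) (Iso.refl _)
      (asIso (Spec.map α.inv)) (Iso.refl _) (by simp) (by simp) (by simp) ?_
    simp [h4]
  obtain ⟨e, he⟩ : ∃ e : (fX k).fiber t ≅ XXc c, e.hom ≫ iX c = (fX k).fiberι t :=
    ⟨h5.isoIsPullback _ _ h2, h5.isoIsPullback_hom_fst _ _ h2⟩
  refine ⟨e, ?_⟩
  rw [← he, Category.assoc]
  congr 1
  rw [← Category.assoc, h2.w, Category.assoc, ptT_gT, Category.comp_id]

omit [IsAlgClosed k] in
/-- Fibres over closed points are varieties. -/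
lemma isVariety_of_iso {X Y : Scheme.{u}} (e : X ≅ Y) (s : Y ⟶ Spec (.of k)) (h : IsVariety s) :
    IsVariety (e.hom ≫ s) := by
  obtain ⟨h1, h2, h3, h4⟩ := h
  have : Nonempty X := ⟨e.inv (genericPoint Y)⟩
  exact ⟨isIntegral_of_isOpenImmersion e.hom, inferInstance, inferInstance, inferInstance⟩

omit [IsAlgClosed k] in
/-- The ring isomorphism attached to an isomorphism with a fibre. -/
lemma exists_ringEquiv {X : Scheme.{u}} (c : k) (e : X ≅ XXc c) :
    ∃ φ : fam c ≃+* Γ(X, ⊤), ∀ a : k, φ (algebraMap k (fam c) a) =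
      ((Scheme.ΓSpecIso (.of k)).inv ≫ (e.hom ≫ sX c).appTop) a := by
  let i : CommRingCat.of (fam c) ≅ Γ(X, ⊤) :=
    (Scheme.ΓSpecIso (.of (fam c))).symm ≪≫ Scheme.Γ.mapIso e.op
  refine ⟨i.commRingCatIsoToRingEquiv, fun a => ?_⟩
  change i.hom (algebraMap k (fam c) a) = _
  have : CommRingCat.ofHom (algebraMap k (fam c)) ≫ i.hom =
      (Scheme.ΓSpecIso (.of k)).inv ≫ (e.hom ≫ sX c).appTop := by
    simp only [i, Iso.trans_hom, Iso.symm_hom, Scheme.Hom.comp_appTop]
    rw [sX, ← Category.assoc, ← Category.assoc, ← Scheme.ΓSpecIso_inv_naturality]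
    rfl
  rw [← this]
  rfl

/-- The closed point of the affine line with coordinate `c`. -/
noncomputable def clT (c : k) : TT k := ptT c (IsLocalRing.closedPoint k)

omit [IsAlgClosed k] in
lemma mem_asIdeal_clT (c : k) (h : k[X]) : h ∈ (clT c : PrimeSpectrum k[X]).asIdeal ↔
    h.eval c = 0 := by
  change evalRingHom c h ∈ IsLocalRing.maximalIdeal k ↔ _
  rw [IsLocalRing.maximalIdeal_eq_bot]
  exact Iff.rfl

lemma isClosed_clT (c : k) : IsClosed {clT c} :=
  (pointEquivClosedPoint (gT k) ⟨ptT c, ptT_gT c⟩).2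

lemma point_clT (c : k) : pointOfClosedPoint (gT k) (clT c) (isClosed_clT c) = ptT c := by
  have h1 := (pointEquivClosedPoint (gT k)).symm_apply_apply ⟨ptT c, ptT_gT c⟩
  exact congrArg Subtype.val h1

omit [IsAlgClosed k] in
lemma exists_clT_mem [Infinite k] (U : (TT k).Opens) (h0 : clT (0 : k) ∈ U) :
    ∃ c : k, c ≠ 0 ∧ clT c ∈ U := by
  obtain ⟨_, ⟨h, rfl⟩, h1, h2⟩ :=
    PrimeSpectrum.isTopologicalBasis_basic_opens.exists_subset_of_mem_open
    (a := (clT (0 : k) : PrimeSpectrum k[X])) (u := U.1) h0 U.2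
  have h3 : h ≠ 0 := by
    rintro rfl
    exact h1 (Ideal.zero_mem _)
  have h4 : h * X ≠ 0 := mul_ne_zero h3 X_ne_zero
  obtain ⟨c, hc⟩ : ∃ c, (h * X).eval c ≠ 0 := by
    by_contra hcon
    push Not at hcon
    exact h4 (Polynomial.funext (by simpa using hcon))
  rw [eval_mul, eval_X] at hc
  refine ⟨c, right_ne_zero_of_mul hc, h2 ?_⟩
  change h ∉ (clT c : PrimeSpectrum k[X]).asIdeal
  rw [mem_asIdeal_clT]
  exact left_ne_zero_of_mul hc

end Closed

end Pool.Agent.KltOpen
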