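import Mathlib

universe u

open Polynomial

namespace Pool.Agent.KltOpen

section Gen

variable {D : Type u} [CommRing D]

/-- The polynomial `x - r y²` in `D[y][x]`. -/
noncomputable def fpoly (r : D) : D[X][X] := X - C (C r * X ^ 2)

/-- The round-up of `d / 4`. -/
def cd (d : ℕ) : ℕ := (d + 3) / 4

/-- The polynomial `x ^ ⌈d/4⌉` for `0 ≤ d` and `(x - r y²) ^ ⌈-d/4⌉` for `d ≤ 0`. -/
noncomputable def gpoly (r : D) (d : ℤ) : D[X][X] := X ^ cd d.toNat * fpoly r ^ cd (-d).toNat

lemma gpoly_zero (r : D) : gpoly r 0 = 1 := by simp [gpoly, cd]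

lemma gpoly_add (r : D) (d e : ℤ) : gpoly r (d + e) ∣ gpoly r d * gpoly r e := by
  have h1 : cd (d + e).toNat ≤ cd d.toNat + cd e.toNat := by unfold cd; omega
  have h2 : cd (-(d + e)).toNat ≤ cd (-d).toNat + cd (-e).toNat := by unfold cd; omega
  have : gpoly r d * gpoly r e =
      X ^ (cd d.toNat + cd e.toNat) * fpoly r ^ (cd (-d).toNat + cd (-e).toNat) := by
    unfold gpoly; ring
  rw [this]
  exact mul_dvd_mul (pow_dvd_pow _ h1) (pow_dvd_pow _ h2)

/-- The algebra `⊕_d g_d D[x,y] q^d` inside `D[x,y][q,q⁻¹]`. -/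
noncomputable def fam (r : D) : Subalgebra D (AddMonoidAlgebra D[X][X] ℤ) where
  carrier := {F | ∀ d, gpoly r d ∣ F.coeff d}
  mul_mem' := by
    intro F G hF hG d
    rw [AddMonoidAlgebra.coeff_mul]
    refine Finset.dvd_sum fun a _ => Finset.dvd_sum fun b _ => ?_
    dsimp only
    split_ifs with h
    · rw [← h]
      exact (gpoly_add r a b).trans (mul_dvd_mul (hF a) (hG b))
    · exact dvd_zero _
  add_mem' := by
    intro F G hF hG d
    rw [AddMonoidAlgebra.coeff_add]
    exact dvd_add (hF d) (hG d)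
  algebraMap_mem' := by
    intro a d
    have : (algebraMap D (AddMonoidAlgebra D[X][X] ℤ) a) = AddMonoidAlgebra.single 0 (C (C a)) := rfl
    rw [this, AddMonoidAlgebra.coeff_single, Finsupp.single_apply]
    split_ifs with h
    · rw [← h, gpoly_zero]; exact one_dvd _
    · exact dvd_zero _

lemma mem_fam {r : D} {F : AddMonoidAlgebra D[X][X] ℤ} :
    F ∈ fam r ↔ ∀ d, gpoly r d ∣ F.coeff d := Iff.rfl

/-- The coordinate `x`. -/
noncomputable def Lx : AddMonoidAlgebra D[X][X] ℤ := AddMonoidAlgebra.single 0 X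
/-- The coordinate `y`. -/
noncomputable def Ly : AddMonoidAlgebra D[X][X] ℤ := AddMonoidAlgebra.single 0 (C X)
/-- The coordinate `q`. -/
noncomputable def Lq : AddMonoidAlgebra D[X][X] ℤ := AddMonoidAlgebra.single 1 1
/-- The inverse of the coordinate `q`. -/
noncomputable def Lqi : AddMonoidAlgebra D[X][X] ℤ := AddMonoidAlgebra.single (-1) 1

/-- The element `x - r y²`. -/
noncomputable def Lf (r : D) : AddMonoidAlgebra D[X][X] ℤ :=
  AddMonoidAlgebra.single 0 (fpoly r)

variable (D) in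
/-- The generators. -/
noncomputable def famGen (r : D) : Set (AddMonoidAlgebra D[X][X] ℤ) :=
  {Lx, Ly, Lx * Lq, Lx * Lq ^ 2, Lx * Lq ^ 3, Lx * Lq ^ 4, Lf r * Lqi, Lf r * Lqi ^ 2,
    Lf r * Lqi ^ 3, Lf r * Lqi ^ 4}

lemma Lqi_pow (n : ℕ) : (Lqi ^ n : AddMonoidAlgebra D[X][X] ℤ) =
    AddMonoidAlgebra.single (-n : ℤ) 1 := by
  rw [Lqi, AddMonoidAlgebra.single_pow]; simp

lemma Lq_pow (n : ℕ) : (Lq ^ n : AddMonoidAlgebra D[X][X] ℤ) =
    AddMonoidAlgebra.single (n : ℤ) 1 := by
  rw [Lq, AddMonoidAlgebra.single_pow]; simp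

lemma fam_x (r : D) : Lx ∈ fam r := by
  intro d
  rw [Lx, AddMonoidAlgebra.coeff_single, Finsupp.single_apply]
  split_ifs with h
  · rw [← h, gpoly_zero]; exact one_dvd _
  · exact dvd_zero _

lemma fam_y (r : D) : Ly ∈ fam r := by
  intro d
  rw [Ly, AddMonoidAlgebra.coeff_single, Finsupp.single_apply]
  split_ifs with h
  · rw [← h, gpoly_zero]; exact one_dvd _
  · exact dvd_zero _

lemma fam_xq (r : D) (i : ℕ) (h1 : i ≤ 4) : Lx * Lq ^ i ∈ fam r := by
  intro d
  rw [Lx, Lq_pow, AddMonoidAlgebra.single_mul_single, AddMonoidAlgebra.coeff_single,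
    Finsupp.single_apply]
  split_ifs with h
  · have h2 : cd (-d).toNat = 0 := by unfold cd; omega
    have h3 : cd d.toNat ≤ 1 := by unfold cd; omega
    rw [gpoly, h2, pow_zero, mul_one, mul_one]
    calc X ^ cd d.toNat ∣ (X : D[X][X]) ^ 1 := pow_dvd_pow _ h3
      _ = X := pow_one _
  · exact dvd_zero _

lemma fam_fq (r : D) (i : ℕ) (h1 : i ≤ 4) : Lf r * Lqi ^ i ∈ fam r := by
  intro d
  rw [Lf, Lqi_pow, AddMonoidAlgebra.single_mul_single, AddMonoidAlgebra.coeff_single,
    Finsupp.single_apply]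
  split_ifs with h
  · have h2 : cd d.toNat = 0 := by unfold cd; omega
    have h3 : cd (-d).toNat ≤ 1 := by unfold cd; omega
    rw [gpoly, h2, pow_zero, one_mul, mul_one]
    calc fpoly r ^ cd (-d).toNat ∣ fpoly r ^ 1 := pow_dvd_pow _ h3
      _ = fpoly r := pow_one _
  · exact dvd_zero _

lemma adjoin_le_fam (r : D) : Algebra.adjoin D (famGen D r) ≤ fam r := by
  rw [Algebra.adjoin_le_iff]
  rintro z hz
  simp only [famGen, Set.mem_insert_iff, Set.mem_singleton_iff] at hz
  rcases hz with rfl | rfl | rfl | rfl | rfl | rfl | rfl | rfl | rfl | rfl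
  · exact fam_x r
  · exact fam_y r
  · simpa using fam_xq r 1 (by norm_num)
  · exact fam_xq r 2 (by norm_num)
  · exact fam_xq r 3 (by norm_num)
  · exact fam_xq r 4 (by norm_num)
  · simpa using fam_fq r 1 (by norm_num)
  · exact fam_fq r 2 (by norm_num)
  · exact fam_fq r 3 (by norm_num)
  · exact fam_fq r 4 (by norm_num)

lemma single_zero_mem (S : Subalgebra D (AddMonoidAlgebra D[X][X] ℤ)) (hx : Lx ∈ S) (hy : Ly ∈ S)
    (p : D[X][X]) : AddMonoidAlgebra.single 0 p ∈ S := by
  have hC : ∀ p : D[X], AddMonoidAlgebra.single 0 (C p) ∈ S := by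
    intro p
    induction p using Polynomial.induction_on' with
    | add p q hp hq =>
      rw [C_add, AddMonoidAlgebra.single_add]
      exact S.add_mem hp hq
    | monomial n a =>
      have : (AddMonoidAlgebra.single 0 (C (monomial n a)) : AddMonoidAlgebra D[X][X] ℤ) =
        algebraMap D _ a * Ly ^ n := by
        rw [show (algebraMap D (AddMonoidAlgebra D[X][X] ℤ) a) =
          AddMonoidAlgebra.single 0 (C (C a)) from rfl, Ly, AddMonoidAlgebra.single_pow,
          AddMonoidAlgebra.single_mul_single, ← C_pow, ← C_mul, C_mul_X_pow_eq_monomial]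
        simp
      rw [this]
      exact S.mul_mem (S.algebraMap_mem _) (S.pow_mem hy _)
  induction p using Polynomial.induction_on' with
  | add p q hp hq =>
    rw [AddMonoidAlgebra.single_add]
    exact S.add_mem hp hq
  | monomial n a =>
    have : (AddMonoidAlgebra.single 0 (monomial n a) : AddMonoidAlgebra D[X][X] ℤ) =
      AddMonoidAlgebra.single 0 (C a) * Lx ^ n := by
      rw [Lx, AddMonoidAlgebra.single_pow, AddMonoidAlgebra.single_mul_single,
        C_mul_X_pow_eq_monomial]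
      simp
    rw [this]
    exact S.mul_mem (hC _) (S.pow_mem hx _)

lemma gpoly_mem_adjoin (r : D) (d : ℤ) :
    AddMonoidAlgebra.single d (gpoly r d) ∈ Algebra.adjoin D (famGen D r) := by
  have hxq : ∀ i : ℕ, 1 ≤ i → i ≤ 4 → Lx * Lq ^ i ∈ Algebra.adjoin D (famGen D r) := by
    intro i h1 h2
    apply Algebra.subset_adjoin
    interval_cases i <;> simp [famGen]
  have hfq : ∀ i : ℕ, 1 ≤ i → i ≤ 4 → Lf r * Lqi ^ i ∈ Algebra.adjoin D (famGen D r) := by
    intro i h1 h2
    apply Algebra.subset_adjoin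
    interval_cases i <;> simp [famGen]
  rcases lt_trichotomy d 0 with hd | rfl | hd
  · have h2 : cd d.toNat = 0 := by unfold cd; omega
    obtain ⟨m, i, hi1, hi2, hm⟩ : ∃ m i : ℕ, 1 ≤ i ∧ i ≤ 4 ∧ (-d).toNat = 4 * m + i :=
      ⟨((-d).toNat - 1) / 4, (-d).toNat - 4 * (((-d).toNat - 1) / 4), by omega, by omega,
        by omega⟩
    have h3 : cd (-d).toNat = m + 1 := by rw [hm]; unfold cd; omega
    have hd' : d = m * (-(4 : ℤ)) + (-(i : ℤ)) := by omega
    have : (AddMonoidAlgebra.single d (gpoly r d) : AddMonoidAlgebra D[X][X] ℤ) =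
        (Lf r * Lqi ^ 4) ^ m * (Lf r * Lqi ^ i) := by
      rw [gpoly, h2, h3, pow_zero, one_mul, Lf, Lqi_pow, Lqi_pow,
        AddMonoidAlgebra.single_mul_single, AddMonoidAlgebra.single_mul_single,
        AddMonoidAlgebra.single_pow, AddMonoidAlgebra.single_mul_single]
      congr 1
      · rw [hd']; simp
      · ring
    rw [this]
    exact Subalgebra.mul_mem _ (Subalgebra.pow_mem _ (hfq 4 (by norm_num) (by norm_num)) _)
      (hfq i hi1 hi2)
  · rw [gpoly_zero]
    exact Subalgebra.one_mem _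
  · have h2 : cd (-d).toNat = 0 := by unfold cd; omega
    obtain ⟨m, i, hi1, hi2, hm⟩ : ∃ m i : ℕ, 1 ≤ i ∧ i ≤ 4 ∧ d.toNat = 4 * m + i :=
      ⟨(d.toNat - 1) / 4, d.toNat - 4 * ((d.toNat - 1) / 4), by omega, by omega,
        by omega⟩
    have h3 : cd d.toNat = m + 1 := by rw [hm]; unfold cd; omega
    have hd' : d = m * (4 : ℤ) + (i : ℤ) := by omega
    have : (AddMonoidAlgebra.single d (gpoly r d) : AddMonoidAlgebra D[X][X] ℤ) =
        (Lx * Lq ^ 4) ^ m * (Lx * Lq ^ i) := by
      rw [gpoly, h2, h3, pow_zero, mul_one, Lx, Lq_pow, Lq_pow,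
        AddMonoidAlgebra.single_mul_single, AddMonoidAlgebra.single_mul_single,
        AddMonoidAlgebra.single_pow, AddMonoidAlgebra.single_mul_single]
      congr 1
      · rw [hd']; simp
      · ring
    rw [this]
    exact Subalgebra.mul_mem _ (Subalgebra.pow_mem _ (hxq 4 (by norm_num) (by norm_num)) _)
      (hxq i hi1 hi2)

lemma fam_eq_adjoin (r : D) : fam r = Algebra.adjoin D (famGen D r) := by
  refine le_antisymm ?_ (adjoin_le_fam r)
  intro F hF
  rw [← AddMonoidAlgebra.sum_coeff_single F]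
  refine Subalgebra.sum_mem _ fun d _ => ?_
  obtain ⟨h, hh⟩ := hF d
  have : (AddMonoidAlgebra.single d (F.coeff d) : AddMonoidAlgebra D[X][X] ℤ) =
      AddMonoidAlgebra.single d (gpoly r d) * AddMonoidAlgebra.single 0 h := by
    rw [AddMonoidAlgebra.single_mul_single, add_zero, hh]
  rw [this]
  exact Subalgebra.mul_mem _ (gpoly_mem_adjoin r d) (single_zero_mem _
    (Algebra.subset_adjoin (by simp [famGen])) (Algebra.subset_adjoin (by simp [famGen])) h)

instance fam_finiteType (r : D) : Algebra.FiniteType D (fam r) := by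
  rw [← Subalgebra.fg_iff_finiteType, fam_eq_adjoin]
  exact ⟨(Set.Finite.toFinset (s := famGen D r) (by unfold famGen; exact Set.toFinite _)),
    by simp⟩

end Gen

end Pool.Agent.KltOpen
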