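import Pool.Agent.MP_ce0b4e_ag.Family

universe u

open Polynomial

namespace Pool.Agent.KltOpen

section Prime

variable {D : Type u} [CommRing D] [IsDomain D]

lemma prime_fpoly (r : D) : Prime (fpoly r) := prime_X_sub_C _

omit [IsDomain D] in
lemma fpoly_not_dvd {r b : D} (hb : b ≠ 0) : ¬ fpoly r ∣ C (C b) := by
  intro h
  rw [fpoly, dvd_iff_isRoot, IsRoot.def, eval_C] at h
  exact hb (C_injective (by rw [h, C_0]))

omit [IsDomain D] in
lemma X_not_dvd {b : D} (hb : b ≠ 0) : ¬ (X : D[X][X]) ∣ C (C b) := by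
  intro h
  rw [X_dvd_iff, coeff_C_zero] at h
  exact hb (C_injective (by rw [h, C_0]))

lemma gpoly_dvd_of_dvd_mul {r b : D} (hb : b ≠ 0) {d : ℤ} {G : D[X][X]}
    (h : gpoly r d ∣ C (C b) * G) : gpoly r d ∣ G := by
  rcases le_total 0 d with hd | hd
  · have h2 : cd (-d).toNat = 0 := by unfold cd; omega
    rw [gpoly, h2, pow_zero, mul_one] at h ⊢
    exact Polynomial.prime_X.pow_dvd_of_dvd_mul_left _ (X_not_dvd hb) h
  · have h2 : cd d.toNat = 0 := by unfold cd; omega
    rw [gpoly, h2, pow_zero, one_mul] at h ⊢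
    exact (prime_fpoly r).pow_dvd_of_dvd_mul_left _ (fpoly_not_dvd hb) h

/-- Saturation: an element of the family divisible by a scalar in the Laurent ring is divisible
in the family. -/
lemma fam_saturated {r b : D} (hb : b ≠ 0) {G : AddMonoidAlgebra D[X][X] ℤ}
    (h : algebraMap D _ b * G ∈ fam r) : G ∈ fam r := by
  intro d
  have h1 := h d
  have h2 : algebraMap D (AddMonoidAlgebra D[X][X] ℤ) b * G = (C (C b) : D[X][X]) • G := by
    rw [← Algebra.smul_def]
    ext d
    rw [AddMonoidAlgebra.coeff_smul, AddMonoidAlgebra.coeff_smul, Finsupp.smul_apply,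
      Finsupp.smul_apply, Algebra.smul_def, smul_eq_mul]
    rfl
  rw [h2, AddMonoidAlgebra.coeff_smul, Finsupp.smul_apply, smul_eq_mul] at h1
  exact gpoly_dvd_of_dvd_mul hb h1

instance : IsDomain (AddMonoidAlgebra D[X][X] ℤ) :=
  NoZeroDivisors.to_isDomain (AddMonoidAlgebra D[X][X] ℤ)

end Prime

section Map

variable {D D' : Type u} [CommRing D] [CommRing D'] (φ : D →+* D')

/-- The map on coefficients. -/
noncomputable def Lmap : AddMonoidAlgebra D[X][X] ℤ →+* AddMonoidAlgebra D'[X][X] ℤ :=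
  AddMonoidAlgebra.mapRingHom ℤ (mapRingHom (mapRingHom φ))

lemma Lmap_coeff (F : AddMonoidAlgebra D[X][X] ℤ) (d : ℤ) :
    (Lmap φ F).coeff d = mapRingHom (mapRingHom φ) (F.coeff d) :=
  AddMonoidAlgebra.coeff_mapRingHom _ _ _

lemma Lmap_single (d : ℤ) (p : D[X][X]) :
    Lmap φ (AddMonoidAlgebra.single d p) =
      AddMonoidAlgebra.single d (mapRingHom (mapRingHom φ) p) :=
  AddMonoidAlgebra.mapRingHom_single _ _ _

lemma Lmap_algebraMap (a : D) : Lmap φ (algebraMap D _ a) = algebraMap D' _ (φ a) := by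
  change Lmap φ (AddMonoidAlgebra.single 0 (C (C a))) = AddMonoidAlgebra.single 0 (C (C (φ a)))
  rw [Lmap_single]
  simp

lemma map_fpoly (r : D) : mapRingHom (mapRingHom φ) (fpoly r) = fpoly (φ r) := by
  simp [fpoly]

lemma map_gpoly (r : D) (d : ℤ) : mapRingHom (mapRingHom φ) (gpoly r d) = gpoly (φ r) d := by
  rw [gpoly, gpoly, map_mul, map_pow, map_pow, map_fpoly]
  simp

variable {φ} in
lemma Lmap_mem {r : D} {r' : D'} (hr : φ r = r') {F : AddMonoidAlgebra D[X][X] ℤ}
    (h : F ∈ fam r) : Lmap φ F ∈ fam r' := by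
  intro d
  rw [Lmap_coeff, ← hr, ← map_gpoly]
  exact _root_.map_dvd _ (h d)

variable {φ} in
/-- The specialization map on the family. -/
noncomputable def famMap {r : D} {r' : D'} (hr : φ r = r') : fam r →+* fam r' :=
  (Lmap φ).restrict (fam r) (fam r') (fun _ h => Lmap_mem hr h)

variable {φ} in
lemma famMap_coe {r : D} {r' : D'} (hr : φ r = r') (F : fam r) :
    (famMap hr F : AddMonoidAlgebra D'[X][X] ℤ) = Lmap φ F := rfl

variable {φ} in
lemma famMap_algebraMap {r : D} {r' : D'} (hr : φ r = r') (a : D) :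
    famMap hr (algebraMap D (fam r) a) = algebraMap D' (fam r') (φ a) := by
  apply Subtype.ext
  exact Lmap_algebraMap φ a

variable {φ} in
lemma famMap_surjective {r : D} {r' : D'} (hr : φ r = r') (hφ : Function.Surjective φ) :
    Function.Surjective (famMap hr) := by
  have hs : Function.Surjective (mapRingHom (mapRingHom φ)) := by
    rw [coe_mapRingHom]
    apply Polynomial.map_surjective
    rw [coe_mapRingHom]
    exact Polynomial.map_surjective _ hφ
  rintro ⟨F, hF⟩
  have key : ∀ d : ℤ, ∃ H ∈ fam r, Lmap φ H = AddMonoidAlgebra.single d (F.coeff d) := by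
    intro d
    obtain ⟨h, hh⟩ := hF d
    obtain ⟨h', rfl⟩ := hs h
    refine ⟨AddMonoidAlgebra.single d (gpoly r d * h'), ?_, ?_⟩
    · intro e
      rw [AddMonoidAlgebra.coeff_single, Finsupp.single_apply]
      split_ifs with hde
      · rw [← hde]; exact dvd_mul_right _ _
      · exact dvd_zero _
    · rw [Lmap_single, map_mul, map_gpoly, hr, hh]
  choose H hH hH' using key
  refine ⟨⟨∑ d ∈ F.coeff.support, H d, Subalgebra.sum_mem _ fun d _ => hH d⟩, ?_⟩
  apply Subtype.ext
  rw [famMap_coe]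
  change Lmap φ (∑ d ∈ F.coeff.support, H d) = F
  rw [map_sum]
  simp only [hH']
  exact AddMonoidAlgebra.sum_coeff_single F

end Map

section Fibre

variable {k : Type u} [Field k]

/-- Kernel of the specialization at `t = c`. -/
lemma exists_of_famMap_eq_zero {c : k} {r : k[X]} {r' : k} (hr : evalRingHom c r = r')
    {F : fam r} (h : famMap hr F = 0) :
    ∃ G : fam r, F = algebraMap k[X] (fam r) (X - C c) * G := by
  have h0 : Lmap (evalRingHom c) (F : AddMonoidAlgebra k[X][X][X] ℤ) = 0 := by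
    rw [← famMap_coe hr, h]; rfl
  have h1 : ∀ d, C (C (X - C c)) ∣ (F : AddMonoidAlgebra k[X][X][X] ℤ).coeff d := by
    intro d
    have h2 := congrArg (fun F => AddMonoidAlgebra.coeff F d) h0
    simp only [Lmap_coeff, AddMonoidAlgebra.coeff_zero, Finsupp.coe_zero, Pi.zero_apply] at h2
    rw [C_dvd_iff_dvd_coeff]
    intro i
    rw [C_dvd_iff_dvd_coeff]
    intro j
    have h3 := congrArg (fun p => (p.coeff i).coeff j) h2
    simp only [coe_mapRingHom, coeff_map, coe_evalRingHom, coeff_zero] at h3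
    exact dvd_iff_isRoot.2 h3
  choose G hG using h1
  set G' : AddMonoidAlgebra k[X][X][X] ℤ :=
    ∑ d ∈ (F : AddMonoidAlgebra k[X][X][X] ℤ).coeff.support, AddMonoidAlgebra.single d (G d) with hG'
  have hF : (F : AddMonoidAlgebra k[X][X][X] ℤ) =
      algebraMap k[X] (AddMonoidAlgebra k[X][X][X] ℤ) (X - C c) * G' := by
    rw [hG', Finset.mul_sum]
    conv_lhs => rw [← AddMonoidAlgebra.sum_coeff_single (F : AddMonoidAlgebra k[X][X][X] ℤ)]
    refine Finset.sum_congr rfl fun d _ => ?_
    rw [show algebraMap k[X] (AddMonoidAlgebra k[X][X][X] ℤ) (X - C c) =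
      AddMonoidAlgebra.single 0 (C (C (X - C c))) from rfl, AddMonoidAlgebra.single_mul_single,
      zero_add, ← hG]
  have hmem : G' ∈ fam r := by
    apply fam_saturated (X_sub_C_ne_zero c)
    rw [← hF]
    exact F.2
  exact ⟨⟨G', hmem⟩, Subtype.ext hF⟩

end Fibre

end Pool.Agent.KltOpen
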