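import Pool.Agent.MP_ce0b4e_ag.KltZero2

universe u

open MvPolynomial KaehlerDifferential

namespace Pool.Agent.KltOpen

variable {k K : Type u} [Field k] [Field K] [Algebra k K]
variable {x y q : K}

lemma form_mem_lattice {O : Subalgebra k K} (a : Fin 3 → K) (ha : ∀ i, a i ∈ O) :
    wedge k a ∈ formLattice 3 O :=
  Submodule.subset_span ⟨fun i => ⟨a i, ha i⟩, rfl⟩

/-- Lower bound for the order of a form. -/
lemma le_of_isFormOrd (h : Coord k ![x, y, q]) {O : Subalgebra k K} [IsDiscreteValuationRing O]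
    [IsFractionRing O K] {c e : K} (he0 : e ≠ 0) (hc : c ≠ 0)
    (hmem : (e * c) • wedge k ![x, y, q] ∈ formLattice 3 O) {m : ℤ}
    (hm : IsFormOrd 3 O (c • wedge k ![x, y, q]) m) : - ord O e ≤ m := by
  obtain ⟨ϖ, hϖ, hL⟩ := hm
  have hd := DV.of_irreducible hϖ
  rw [hL, Submodule.mem_span_singleton] at hmem
  obtain ⟨a, ha⟩ := hmem
  have ha' : (a : K) * ((ϖ : K) ^ (-m) * c) = e * c := by
    apply h.smul_wedge_inj
    rw [mul_smul, mul_smul]
    exact ha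
  have ha'' : (a : K) * (ϖ : K) ^ (-m) = e := by
    have : ((a : K) * (ϖ : K) ^ (-m)) * c = e * c := by rw [← ha']; ring
    exact mul_right_cancel₀ hc this
  have ha0 : (a : K) ≠ 0 := by
    intro h0
    rw [h0, zero_mul] at ha''
    exact he0 ha''.symm
  have h1 := hd.ord_nonneg ha0 a.2
  rw [← ha'', hd.ord_mul ha0 (zpow_ne_zero _ hd.ne), hd.ord_zpow hd.ne, hd.ord_unif]
  omega

/-- Along a divisor on which `x` vanishes, the logarithmic form has order at least `-1`. -/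
lemma log_form_mem (h : Coord k ![x, y, q]) {O : Subalgebra k K} {ϖ : K} (hO : DV O ϖ)
    (hy : y ∈ O) : (ϖ * (x * q)⁻¹) • wedge k ![x, y, q] ∈ formLattice 3 O := by
  have hx := h.ne_x
  have hq := h.ne_q
  have hϖ := hO.ne
  obtain ⟨u, hu0, hu, hu', hxu⟩ := hO.exists_ord hx
  obtain ⟨v, hv0, hv, hv', hqv⟩ := hO.exists_ord hq
  set a := ord O x with ha
  set b := ord O q with hb
  have hDx : D k K x = (x * u⁻¹) • D k K u + ((a : K) * x * ϖ⁻¹) • D k K ϖ := by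
    have e1 : D k K x = D k K (u * ϖ ^ a) := by rw [← hxu]
    rw [e1, Derivation.leibniz, Derivation.leibniz_zpow]
    have e2 : ϖ ^ (a - 1) = ϖ ^ a * ϖ⁻¹ := by rw [zpow_sub_one₀ hϖ]
    have e3 : x = u * ϖ ^ a := hxu
    rw [e2]
    have e4 : x * u⁻¹ = ϖ ^ a := by rw [e3]; field_simp
    rw [e4]
    have e5 : (a : K) * x * ϖ⁻¹ = u * ((a : K) * (ϖ ^ a * ϖ⁻¹)) := by
      conv_lhs => rw [e3]
      ring
    rw [e5]
    module
  have hDq : D k K q = (q * v⁻¹) • D k K v + ((b : K) * q * ϖ⁻¹) • D k K ϖ := by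
    have e1 : D k K q = D k K (v * ϖ ^ b) := by rw [← hqv]
    rw [e1, Derivation.leibniz, Derivation.leibniz_zpow]
    have e2 : ϖ ^ (b - 1) = ϖ ^ b * ϖ⁻¹ := by rw [zpow_sub_one₀ hϖ]
    have e3 : q = v * ϖ ^ b := hqv
    rw [e2]
    have e4 : q * v⁻¹ = ϖ ^ b := by rw [e3]; field_simp
    rw [e4]
    have e5 : (b : K) * q * ϖ⁻¹ = v * ((b : K) * (ϖ ^ b * ϖ⁻¹)) := by
      conv_lhs => rw [e3]
      ring
    rw [e5]
    module
  set ι := exteriorPower.ιMulti K 3 (M := Ω[K⁄k]) with hι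
  have e0 : wedge k ![x, y, q] = ι ![D k K x, D k K y, D k K q] := by
    rw [wedge]
    congr 1
    ext i
    fin_cases i <;> rfl
  have lin0 : ∀ (c₁ c₂ : K) (m₁ m₂ m' m'' : Ω[K⁄k]),
      ι ![c₁ • m₁ + c₂ • m₂, m', m''] = c₁ • ι ![m₁, m', m''] + c₂ • ι ![m₂, m', m''] := by
    intro c₁ c₂ m₁ m₂ m' m''
    have h1 := ι.map_update_add ![0, m', m''] 0 (c₁ • m₁) (c₂ • m₂)
    have h2 := ι.map_update_smul ![0, m', m''] 0 c₁ m₁
    have h3 := ι.map_update_smul ![0, m', m''] 0 c₂ m₂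
    have upd : ∀ m : Ω[K⁄k], Function.update ![0, m', m''] 0 m = ![m, m', m''] := by
      intro m
      ext i
      fin_cases i <;> rfl
    simp only [upd] at h1 h2 h3
    rw [h1, h2, h3]
  have lin2 : ∀ (c₁ c₂ : K) (m₁ m₂ m' m'' : Ω[K⁄k]),
      ι ![m', m'', c₁ • m₁ + c₂ • m₂] = c₁ • ι ![m', m'', m₁] + c₂ • ι ![m', m'', m₂] := by
    intro c₁ c₂ m₁ m₂ m' m''
    have h1 := ι.map_update_add ![m', m'', 0] 2 (c₁ • m₁) (c₂ • m₂)
    have h2 := ι.map_update_smul ![m', m'', 0] 2 c₁ m₁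
    have h3 := ι.map_update_smul ![m', m'', 0] 2 c₂ m₂
    have upd : ∀ m : Ω[K⁄k], Function.update ![m', m'', 0] 2 m = ![m', m'', m] := by
      intro m
      ext i
      fin_cases i <;> rfl
    simp only [upd] at h1 h2 h3
    rw [h1, h2, h3]
  have hzero : ι ![D k K ϖ, D k K y, D k K ϖ] = 0 :=
    ι.map_eq_zero_of_eq ![D k K ϖ, D k K y, D k K ϖ] (i := 0) (j := 2) rfl (by decide)
  rw [e0, hDx, hDq, lin0, lin2, lin2, hzero]
  have mem : ∀ a₀ a₁ a₂ : K, a₀ ∈ O → a₁ ∈ O → a₂ ∈ O →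
      ι ![D k K a₀, D k K a₁, D k K a₂] ∈ formLattice 3 O := by
    intro a₀ a₁ a₂ h0 h1 h2
    refine Submodule.subset_span ⟨![⟨a₀, h0⟩, ⟨a₁, h1⟩, ⟨a₂, h2⟩], ?_⟩
    congr 1
    ext i
    fin_cases i <;> rfl
  have m1 := mem u y v hu hy hv
  have m2 := mem u y ϖ hu hy hO.mem
  have m3 := mem ϖ y v hO.mem hy hv
  have smulmem : ∀ (c : K) (ω : ⋀[K]^3 Ω[K⁄k]), c ∈ O → ω ∈ formLattice 3 O →
      c • ω ∈ formLattice 3 O := fun c ω hc hω => (formLattice 3 O).smul_mem ⟨c, hc⟩ hω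
  have hintO : ∀ n : ℤ, (n : K) ∈ O := fun n => Subalgebra.intCast_mem _ n
  have c1 : ϖ * (x * q)⁻¹ * (x * u⁻¹) * (q * v⁻¹) = ϖ * u⁻¹ * v⁻¹ := by field_simp
  have c2 : ϖ * (x * q)⁻¹ * (x * u⁻¹) * ((b : K) * q * ϖ⁻¹) = u⁻¹ * b := by field_simp
  have c3 : ϖ * (x * q)⁻¹ * ((a : K) * x * ϖ⁻¹) * (q * v⁻¹) = a * v⁻¹ := by field_simp
  have final : (ϖ * (x * q)⁻¹) • ((x * u⁻¹) • ((q * v⁻¹) • ι ![D k K u, D k K y, D k K v] +
      ((b : K) * q * ϖ⁻¹) • ι ![D k K u, D k K y, D k K ϖ]) +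
      ((a : K) * x * ϖ⁻¹) • ((q * v⁻¹) • ι ![D k K ϖ, D k K y, D k K v] +
      ((b : K) * q * ϖ⁻¹) • (0 : ⋀[K]^3 Ω[K⁄k]))) =
      (ϖ * u⁻¹ * v⁻¹) • ι ![D k K u, D k K y, D k K v] +
      (u⁻¹ * b) • ι ![D k K u, D k K y, D k K ϖ] +
      (a * v⁻¹) • ι ![D k K ϖ, D k K y, D k K v] := by
    rw [← c1, ← c2, ← c3]
    module
  rw [final]
  refine Submodule.add_mem _ (Submodule.add_mem _ (smulmem _ _ ?_ m1) (smulmem _ _ ?_ m2))
    (smulmem _ _ ?_ m3)
  · exact Subalgebra.mul_mem _ (Subalgebra.mul_mem _ hO.mem hu') hv'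
  · exact Subalgebra.mul_mem _ hu' (hintO b)
  · exact Subalgebra.mul_mem _ (hintO a) hv'

/-- The fibre over `0` has a klt boundary (namely `B = 0`). -/
theorem hasKltBoundary_zero [CharZero k] (h : Coord k ![x, y, q]) :
    HasKltBoundary 3 (fun p : PrimeSpectrum (SR k x y q 0) => locAt _ p.asIdeal)
      (fun p => ringKrullDim (locAt (SR k x y q 0) p.asIdeal) = 1) := by
  have hx := h.ne_x
  have hq := h.ne_q
  have hxq := mul_ne_zero hx hq
  have hxqi := inv_ne_zero hxq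
  refine ⟨(x * q)⁻¹ • wedge k ![x, y, q], 0, smul_ne_zero hxqi h.wedge_ne_zero,
    fun _ => le_rfl, fun _ h => absurd rfl h, by simp, ?_⟩
  intro p
  refine ⟨Set.univ, isOpen_univ, Set.mem_univ _, 1, fun _ => -1 / 4, fun _ => x, fun _ => hx,
    ?_, ?_⟩
  · intro p' _ hp'
    obtain ⟨ϖ, hϖ⟩ := exists_dv_of_dim_one h p'.asIdeal hp'
    have key := formOrd_codim_one h hϖ
    have key' : (4 : ℝ) * (formOrd 3 (locAt _ p'.asIdeal) ((x * q)⁻¹ • wedge k ![x, y, q]) : ℝ) =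
        -(ord (locAt _ p'.asIdeal) x : ℝ) := by exact_mod_cast key
    simp only [Pi.zero_apply, add_zero, Finset.univ_unique, Finset.sum_singleton]
    linarith
  · rintro O hOp ⟨p', _, hdom⟩
    have hdvr := hOp.dvr
    have hfrac := hOp.frac
    obtain ⟨ϖ, hO⟩ := hOp.exists_dv
    have hSO : SR k x y q 0 ≤ O := le_locAt.trans hdom.1
    have hxO := hSO (SR_x x y q 0)
    have hyO := hSO (SR_y x y q 0)
    have hn := hO.ord_nonneg hx hxO
    simp only [Finset.univ_unique, Finset.sum_singleton]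
    by_cases hex : ∃ m, IsFormOrd 3 O ((x * q)⁻¹ • wedge k ![x, y, q]) m
    · have hfo : formOrd 3 O ((x * q)⁻¹ • wedge k ![x, y, q]) = hex.choose := dif_pos hex
      have hspec := hex.choose_spec
      rw [hfo]
      set m := hex.choose
      by_cases h0 : ord O x = 0
      · have hxi := ((hO.unit_iff hx).2 h0).2
        have hqO : q ∈ O := by
          have := O.mul_mem hxi (hSO (SR0_pos (x := x) (y := y) (q := q) (i := 1) (by norm_num)))
          have e : x⁻¹ * (x * q ^ 1) = q := by field_simp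
          rwa [e] at this
        have hqiO : q⁻¹ ∈ O := by
          have := O.mul_mem hxi (hSO (SR0_neg (x := x) (y := y) (q := q) (i := 1) (by norm_num)))
          have e : x⁻¹ * (x * q⁻¹ ^ 1) = q⁻¹ := by field_simp
          rwa [e] at this
        have hq0 : ord O q = 0 := (hO.unit_iff hq).1 ⟨hqO, hqiO⟩
        have hle := le_of_isFormOrd h (O := O) (c := (x * q)⁻¹) (e := x * q) hxq hxqi (by
          rw [mul_inv_cancel₀ hxq, one_smul]
          apply form_mem_lattice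
          intro i
          fin_cases i
          · exact hxO
          · exact hyO
          · exact hqO) hspec
        rw [hO.ord_mul hx hq, h0, hq0] at hle
        have : (0 : ℝ) ≤ (m : ℝ) := by exact_mod_cast hle
        rw [h0]
        push_cast
        linarith
      · have h1 : 1 ≤ ord O x := by omega
        have hle := le_of_isFormOrd h (O := O) (c := (x * q)⁻¹) (e := ϖ) hO.ne hxqi
          (log_form_mem h hO hyO) hspec
        rw [hO.ord_unif] at hle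
        have e1 : (-1 : ℝ) ≤ (m : ℝ) := by exact_mod_cast hle
        have e2 : (1 : ℝ) ≤ (ord O x : ℝ) := by exact_mod_cast h1
        linarith
    · have hfo : formOrd 3 O ((x * q)⁻¹ • wedge k ![x, y, q]) = 0 := dif_neg hex
      rw [hfo]
      have e2 : (0 : ℝ) ≤ (ord O x : ℝ) := by exact_mod_cast hn
      push_cast
      linarith

end Pool.Agent.KltOpen
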