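import Pool.Agent.MP_ce0b4e_ag.Family2
import Pool.Agent.MP_ce0b4e_ag.KltZero3

universe u

open Polynomial

namespace Pool.Agent.KltOpen

noncomputable instance famCommRing {D : Type u} [CommRing D] (r : D) : CommRing (fam r) :=
  Subalgebra.toCommRing (A := AddMonoidAlgebra D[X][X] ℤ) (fam r)

instance fam_isDomain {D : Type u} [CommRing D] [IsDomain D] (r : D) : IsDomain (fam r) :=
  Function.Injective.isDomain (fam r).val.toRingHom Subtype.coe_injective

variable {k : Type u} [Field k]

instance fam_flat (r : k[X]) : Module.Flat k[X] (fam r) := by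
  have : Module.IsTorsionFree k[X] (fam r) := inferInstance
  rw [Module.Flat.flat_iff_torsion_eq_bot_of_isBezout]
  rwa [← Submodule.isTorsionFree_iff_torsion_eq_bot]

/-- Coefficient extraction. -/
lemma aeval_coeff (p : MvPolynomial (Fin 3) k) (a b n : ℕ) :
    (((MvPolynomial.aeval ![Lx, Ly, Lq] p : AddMonoidAlgebra k[X][X] ℤ).coeff n).coeff a).coeff b =
      p.coeff (Finsupp.equivFunOnFinite.symm ![a, b, n]) := by
  induction p using MvPolynomial.induction_on' with
  | monomial m c =>
    rw [MvPolynomial.aeval_monomial]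
    have h1 : (m.prod fun i e => (![Lx, Ly, Lq] i : AddMonoidAlgebra k[X][X] ℤ) ^ e) =
      AddMonoidAlgebra.single (m 2 : ℤ) (X ^ m 0 * C (X ^ m 1)) := by
      rw [Finsupp.prod_fintype _ _ (by simp), Fin.prod_univ_three]
      simp only [Matrix.cons_val_zero, Matrix.cons_val_one, Matrix.cons_val_two,
        Matrix.tail_cons, Matrix.head_cons]
      rw [Lx, Ly, Lq, AddMonoidAlgebra.single_pow, AddMonoidAlgebra.single_pow,
        AddMonoidAlgebra.single_pow, AddMonoidAlgebra.single_mul_single,
        AddMonoidAlgebra.single_mul_single]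
      congr 1 <;> simp
    rw [h1, show algebraMap k (AddMonoidAlgebra k[X][X] ℤ) c =
      AddMonoidAlgebra.single 0 (C (C c)) from rfl, AddMonoidAlgebra.single_mul_single, zero_add,
      AddMonoidAlgebra.coeff_single, Finsupp.single_apply, MvPolynomial.coeff_monomial]
    have h2 : m = Finsupp.equivFunOnFinite.symm ![a, b, n] ↔ m 0 = a ∧ m 1 = b ∧ m 2 = n := by
      constructor
      · rintro rfl
        simp
      · rintro ⟨h0, h1, h2⟩
        ext i
        fin_cases i <;> simp [h0, h1, h2]
    rw [if_congr h2 rfl rfl]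
    by_cases hn : (m 2 : ℤ) = n
    · have hn' : m 2 = n := by exact_mod_cast hn
      rw [if_pos hn]
      have : (C (C c) * (X ^ m 0 * C (X ^ m 1)) : k[X][X]) = monomial (m 0) (monomial (m 1) c) := by
        rw [← C_mul_X_pow_eq_monomial, ← C_mul_X_pow_eq_monomial, C_mul]
        ring
      rw [this, coeff_monomial]
      by_cases h0 : m 0 = a
      · rw [if_pos h0, coeff_monomial]
        simp [h0, hn']
      · rw [if_neg h0]; simp [h0]
    · have hn' : ¬ m 2 = n := by exact_mod_cast hn
      rw [if_neg hn]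
      simp [hn']
  | add p q hp hq =>
    rw [map_add, AddMonoidAlgebra.coeff_add, Finsupp.add_apply, coeff_add, coeff_add, hp, hq,
      MvPolynomial.coeff_add]

lemma algIndep : AlgebraicIndependent k ![(Lx : AddMonoidAlgebra k[X][X] ℤ), Ly, Lq] := by
  rw [algebraicIndependent_iff_injective_aeval, injective_iff_map_eq_zero]
  intro p hp
  ext m
  have := aeval_coeff p (m 0) (m 1) (m 2)
  rw [hp] at this
  have hm : (Finsupp.equivFunOnFinite.symm ![m 0, m 1, m 2] : Fin 3 →₀ ℕ) = m := by
    ext i
    fin_cases i <;> simp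
  rw [hm] at this
  rw [← this]
  simp

section FracField

lemma exists_field (A : Type u) [CommRing A] [IsDomain A] [Algebra k A] :
    ∃ (K : Type u) (_ : Field K) (_ : Algebra k K) (j : A →ₐ[k] K), Function.Injective j ∧
      ∀ z : K, ∃ a b, z = j a / j b := by
  refine ⟨FractionRing A, inferInstance, inferInstance, IsScalarTower.toAlgHom k A _,
    IsFractionRing.injective A (FractionRing A), ?_⟩
  intro z
  obtain ⟨a, b, _, h⟩ := IsFractionRing.div_surjective (A := A) z
  exact ⟨a, b, h.symm⟩

variable (k) in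
lemma exists_KL :
    ∃ (K : Type u) (_ : Field K) (_ : Algebra k K) (j : AddMonoidAlgebra k[X][X] ℤ →ₐ[k] K),
      Function.Injective j ∧ ∀ z : K, ∃ a b, z = j a / j b :=
  exists_field (k := k) (AddMonoidAlgebra k[X][X] ℤ)

variable {K : Type u} [Field K] [Algebra k K] {j : AddMonoidAlgebra k[X][X] ℤ →ₐ[k] K}

lemma j_Lqi : j Lqi = (j Lq)⁻¹ := by
  apply eq_inv_of_mul_eq_one_left
  rw [← map_mul, Lqi, Lq, AddMonoidAlgebra.single_mul_single]
  simp [← AddMonoidAlgebra.one_def]

lemma coordKL (hj : Function.Injective j) (hj' : ∀ z : K, ∃ a b, z = j a / j b) :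
    Coord k ![j Lx, j Ly, j Lq] := by
  have hv : ![j Lx, j Ly, j Lq] = j ∘ ![Lx, Ly, Lq] := by
    ext i; fin_cases i <;> rfl
  refine ⟨?_, ?_⟩
  · rw [hv]
    exact algIndep.map' hj
  · rw [eq_top_iff]
    intro z _
    set S : Subalgebra k K :=
      (IntermediateField.adjoin k (Set.range ![j Lx, j Ly, j Lq])).toSubalgebra
      with hS
    have hx : j Lx ∈ S := IntermediateField.subset_adjoin _ _ ⟨0, rfl⟩
    have hy : j Ly ∈ S := IntermediateField.subset_adjoin _ _ ⟨1, rfl⟩
    have hq : j Lq ∈ S := IntermediateField.subset_adjoin _ _ ⟨2, rfl⟩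
    have hqi : j Lqi ∈ S := by
      rw [j_Lqi]
      exact IntermediateField.inv_mem _ hq
    have hall : ∀ F : AddMonoidAlgebra k[X][X] ℤ, j F ∈ S := by
      intro F
      rw [← AddMonoidAlgebra.sum_coeff_single F, Finsupp.sum, map_sum]
      refine Subalgebra.sum_mem _ fun d _ => ?_
      have h0 : (AddMonoidAlgebra.single 0 (F.coeff d) : AddMonoidAlgebra k[X][X] ℤ) ∈
        S.comap j := single_zero_mem _ hx hy _
      rcases le_total 0 d with hd | hd
      · have : (AddMonoidAlgebra.single d (F.coeff d) : AddMonoidAlgebra k[X][X] ℤ) =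
          AddMonoidAlgebra.single 0 (F.coeff d) * Lq ^ d.toNat := by
          rw [Lq_pow, AddMonoidAlgebra.single_mul_single, mul_one]
          congr 1
          omega
        rw [this, map_mul, map_pow]
        exact S.mul_mem h0 (S.pow_mem hq _)
      · have : (AddMonoidAlgebra.single d (F.coeff d) : AddMonoidAlgebra k[X][X] ℤ) =
          AddMonoidAlgebra.single 0 (F.coeff d) * Lqi ^ (-d).toNat := by
          rw [Lqi_pow, AddMonoidAlgebra.single_mul_single, mul_one]
          congr 1
          omega
        rw [this, map_mul, map_pow]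
        exact S.mul_mem h0 (S.pow_mem hqi _)
    obtain ⟨a, b, rfl⟩ := hj' z
    exact IntermediateField.div_mem _ (hall a) (hall b)

lemma map_fam (c : k) : (fam c).map j = SR k (j Lx) (j Ly) (j Lq) c := by
  have hf : j (Lf c) = ff (j Lx) (j Ly) c := by
    have : (Lf c : AddMonoidAlgebra k[X][X] ℤ) = Lx - algebraMap k _ c * Ly ^ 2 := by
      rw [Lf, fpoly, Lx, Ly, show algebraMap k (AddMonoidAlgebra k[X][X] ℤ) c =
        AddMonoidAlgebra.single 0 (C (C c)) from rfl, AddMonoidAlgebra.single_pow,
        AddMonoidAlgebra.single_mul_single]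
      simp [AddMonoidAlgebra.single_sub]
    rw [this, map_sub, map_mul, map_pow, AlgHom.commutes]
    rfl
  rw [fam_eq_adjoin, AlgHom.map_adjoin, SR, famGen]
  simp only [Set.image_insert_eq, Set.image_singleton, map_mul, map_pow, j_Lqi, hf]

end FracField

end Pool.Agent.KltOpen
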