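import Pool.Agent.MP_ce0b4e_ag.Coord

universe u

open MvPolynomial KaehlerDifferential

namespace Pool.Agent.KltOpen

variable {k K : Type u} [Field k] [Field K] [Algebra k K]

variable (k) in
/-- The form `dv₀ ∧ dv₁ ∧ dv₂`. -/
noncomputable def wedge (v : Fin 3 → K) : ⋀[K]^3 Ω[K⁄k] :=
  exteriorPower.ιMulti K 3 (fun i => D k K (v i))

namespace Coord

variable {v : Fin 3 → K}

lemma exists_basis (h : Coord k v) :
    ∃ b : Module.Basis (Fin 3) K Ω[K⁄k], ∀ i, b i = D k K (v i) := by
  let alg : Algebra (MvPolynomial (Fin 3) k) K := (aeval v).toAlgebra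
  have : IsScalarTower k (MvPolynomial (Fin 3) k) K := IsScalarTower.of_algebraMap_eq (by
    intro c
    change algebraMap k K c = aeval v (C c)
    simp)
  have : FaithfulSMul (MvPolynomial (Fin 3) k) K := by
    rw [faithfulSMul_iff_algebraMap_injective]
    exact h.aeval_injective
  have : IsFractionRing (MvPolynomial (Fin 3) k) K := by
    refine IsFractionRing.of_field _ K ?_
    intro z
    obtain ⟨a, ha, b, hb, hb0, hz⟩ := h.exists_frac z
    obtain ⟨p, rfl⟩ := mem_cring.1 ha
    obtain ⟨s, rfl⟩ := mem_cring.1 hb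
    exact ⟨p, s, hz⟩
  let b := (KaehlerDifferential.mvPolynomialBasis k (Fin 3)).ofIsLocalizedModule K
    (nonZeroDivisors (MvPolynomial (Fin 3) k))
    (KaehlerDifferential.map k k (MvPolynomial (Fin 3) k) K)
  refine ⟨b, fun i => ?_⟩
  have h1 : b i = KaehlerDifferential.map k k (MvPolynomial (Fin 3) k) K
      (KaehlerDifferential.mvPolynomialBasis k (Fin 3) i) :=
    Module.Basis.ofIsLocalizedModule_apply _ _ _ _ _
  rw [h1, KaehlerDifferential.mvPolynomialBasis_apply, KaehlerDifferential.map_D]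
  congr 1
  change aeval v (X i) = v i
  simp

/-- The basis `dv₀, dv₁, dv₂` of `Ω_{K/k}`. -/
noncomputable def basis (h : Coord k v) : Module.Basis (Fin 3) K Ω[K⁄k] := h.exists_basis.choose

lemma basis_apply (h : Coord k v) (i : Fin 3) : h.basis i = D k K (v i) :=
  h.exists_basis.choose_spec i

lemma basis_eq (h : Coord k v) : (h.basis : Fin 3 → Ω[K⁄k]) = fun i => D k K (v i) :=
  funext h.basis_apply

lemma finrank (h : Coord k v) : Module.finrank K Ω[K⁄k] = 3 := by
  rw [Module.finrank_eq_card_basis h.basis]; simp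

lemma ιMulti_eq (h : Coord k v) (w : Fin 3 → Ω[K⁄k]) :
    exteriorPower.ιMulti K 3 w = (h.basis.det w) • wedge k v := by
  have key : exteriorPower.ιMulti K 3 (M := Ω[K⁄k]) =
      (LinearMap.toSpanSingleton K (⋀[K]^3 Ω[K⁄k]) (wedge k v)).compAlternatingMap h.basis.det := by
    refine Module.Basis.ext_alternating h.basis fun i hi => ?_
    let σ : Equiv.Perm (Fin 3) := Equiv.ofBijective i (Finite.injective_iff_bijective.1 hi)
    change exteriorPower.ιMulti K 3 (h.basis ∘ σ) =
      (LinearMap.toSpanSingleton K (⋀[K]^3 Ω[K⁄k]) (wedge k v)).compAlternatingMap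
        h.basis.det (h.basis ∘ σ)
    rw [AlternatingMap.map_perm, AlternatingMap.map_perm]
    congr 1
    rw [LinearMap.compAlternatingMap_apply, Module.Basis.det_self,
      LinearMap.toSpanSingleton_apply, one_smul, wedge, h.basis_eq]
  have := congrArg (fun f => f w) key
  simpa using this

lemma wedge_ne_zero (h : Coord k v) : wedge k v ≠ 0 := by
  intro h0
  have h1 : exteriorPower.alternatingMapLinearEquiv h.basis.det (wedge k v) = 1 := by
    rw [wedge, exteriorPower.alternatingMapLinearEquiv_apply_ιMulti, ← h.basis_eq,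
      Module.Basis.det_self]
  rw [h0, map_zero] at h1
  exact zero_ne_one h1

lemma exists_smul (h : Coord k v) (η : ⋀[K]^3 Ω[K⁄k]) : ∃ c : K, η = c • wedge k v := by
  have hη : η ∈ Submodule.span K (Set.range (exteriorPower.ιMulti K 3 (M := Ω[K⁄k]))) := by
    rw [exteriorPower.ιMulti_span]; trivial
  induction hη using Submodule.span_induction with
  | mem x hx =>
    obtain ⟨w, rfl⟩ := hx
    exact ⟨_, h.ιMulti_eq w⟩
  | zero => exact ⟨0, by simp⟩
  | add x y _ _ hx hy =>
    obtain ⟨c, hc⟩ := hx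
    obtain ⟨d, hd⟩ := hy
    exact ⟨c + d, by rw [add_smul, ← hc, ← hd]⟩
  | smul a x _ hx =>
    obtain ⟨c, hc⟩ := hx
    exact ⟨a * c, by rw [mul_smul, ← hc]⟩

lemma smul_wedge_inj (h : Coord k v) {c d : K} (hcd : c • wedge k v = d • wedge k v) : c = d := by
  exact smul_left_injective K h.wedge_ne_zero hcd

lemma repr_mem_of_cring (h : Coord k v) {O : Subalgebra k K} (hO : cring k v ≤ O) {z : K}
    (hz : z ∈ cring k v) (j : Fin 3) : h.basis.repr (D k K z) j ∈ O := by
  obtain ⟨p, rfl⟩ := mem_cring.1 hz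
  clear hz
  induction p using MvPolynomial.induction_on with
  | C a =>
    have : aeval v (C a : MvPolynomial (Fin 3) k) = algebraMap k K a := by simp
    rw [this, Derivation.map_algebraMap]
    simp
  | add p q hp hq =>
    rw [map_add, map_add, map_add]
    exact O.add_mem hp hq
  | mul_X p i hp =>
    rw [map_mul, Derivation.leibniz, map_add, aeval_X]
    simp only [LinearEquiv.map_smul, Finsupp.add_apply, Finsupp.smul_apply, smul_eq_mul]
    refine O.add_mem (O.mul_mem (hO (mem_cring.2 ⟨p, rfl⟩)) ?_)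
      (O.mul_mem (hO (coord_mem_cring v i)) hp)
    rw [← h.basis_apply, Module.Basis.repr_self]
    by_cases hij : i = j
    · subst hij; simp [O.one_mem]
    · rw [Finsupp.single_apply, if_neg hij]; exact O.zero_mem

lemma repr_mem (h : Coord k v) {O : Subalgebra k K} (hO : cring k v ≤ O) {a b : K}
    (ha : a ∈ cring k v) (hb : b ∈ cring k v) (hb' : b⁻¹ ∈ O) (j : Fin 3) :
    h.basis.repr (D k K (a / b)) j ∈ O := by
  rw [div_eq_mul_inv, Derivation.leibniz, Derivation.leibniz_inv]
  simp only [map_add, LinearEquiv.map_smul, Finsupp.add_apply, Finsupp.smul_apply, smul_eq_mul]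
  have h1 := h.repr_mem_of_cring hO ha j
  have h2 := h.repr_mem_of_cring hO hb j
  refine O.add_mem (O.mul_mem (hO ha) (O.mul_mem ?_ h2)) (O.mul_mem hb' h1)
  simpa using O.neg_mem (O.pow_mem hb' 2)

end Coord

/-- `O` is a localization of the polynomial ring `k[v]`. -/
structure IsLoc (v : Fin 3 → K) (O : Subalgebra k K) : Prop where
  le : cring k v ≤ O
  frac : ∀ z ∈ O, ∃ a ∈ cring k v, ∃ b ∈ cring k v, b ≠ 0 ∧ b⁻¹ ∈ O ∧ z = a / b

lemma formLattice_eq {v : Fin 3 → K} (h : Coord k v) {O : Subalgebra k K} (hO : IsLoc v O) :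
    formLattice 3 O = Submodule.span O {wedge k v} := by
  apply le_antisymm
  · rw [formLattice, Submodule.span_le]
    rintro _ ⟨a, rfl⟩
    rw [SetLike.mem_coe, Submodule.mem_span_singleton]
    have hdet : h.basis.det (fun i => D k K (a i : K)) ∈ O := by
      rw [Module.Basis.det_apply, Matrix.det_apply]
      refine O.sum_mem fun σ _ => ?_
      have : ∏ i, h.basis.toMatrix (fun i => D k K (a i : K)) (σ i) i ∈ O := by
        refine O.prod_mem fun i _ => ?_
        rw [Module.Basis.toMatrix_apply]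
        obtain ⟨x, hx, y, hy, hy0, hyi, hxy⟩ := hO.frac (a i : K) (a i).2
        rw [hxy]
        exact h.repr_mem hO.le hx hy hyi _
      rcases Int.units_eq_one_or (Equiv.Perm.sign σ) with hs | hs
      · rw [hs, one_smul]; exact this
      · rw [hs, Units.neg_smul, one_smul]; exact O.neg_mem this
    refine ⟨⟨_, hdet⟩, ?_⟩
    rw [h.ιMulti_eq]
    rfl
  · rw [Submodule.span_singleton_le_iff_mem]
    refine Submodule.subset_span ⟨fun i => ⟨v i, hO.le (coord_mem_cring v i)⟩, rfl⟩

lemma isFormOrd_iff {v : Fin 3 → K} (h : Coord k v) {O : Subalgebra k K} (hO : IsLoc v O)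
    {ϖ : K} (hϖ : DV O ϖ) {c : K} (hc : c ≠ 0) (m : ℤ) :
    IsFormOrd 3 O (c • wedge k v) m ↔ m = ord O c := by
  have := hϖ.dvr
  have := hϖ.frac
  constructor
  · rintro ⟨ϖ', hϖ', hL⟩
    have hd := DV.of_irreducible hϖ'
    rw [formLattice_eq h hO] at hL
    have h1 : wedge k v ∈ Submodule.span O {((ϖ' : K) ^ (-m)) • c • wedge k v} := by
      rw [← hL]; exact Submodule.mem_span_singleton_self _
    have h2 : ((ϖ' : K) ^ (-m)) • c • wedge k v ∈ Submodule.span O {wedge k v} := by
      rw [hL]; exact Submodule.mem_span_singleton_self _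
    rw [Submodule.mem_span_singleton] at h1 h2
    obtain ⟨a, ha⟩ := h1
    obtain ⟨b, hb⟩ := h2
    have ha' : (a : K) * ((ϖ' : K) ^ (-m) * c) = 1 := by
      apply h.smul_wedge_inj
      rw [one_smul, mul_smul, mul_smul]
      exact ha
    have hb' : (ϖ' : K) ^ (-m) * c = (b : K) := by
      apply h.smul_wedge_inj
      rw [mul_smul]
      exact hb.symm
    have hne : (ϖ' : K) ^ (-m) * c ≠ 0 := mul_ne_zero (zpow_ne_zero _ hd.ne) hc
    have hinv : ((ϖ' : K) ^ (-m) * c)⁻¹ ∈ O := by
      have : ((ϖ' : K) ^ (-m) * c)⁻¹ = (a : K) := by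
        rw [inv_eq_iff_eq_inv, eq_comm, inv_eq_of_mul_eq_one_right ha']
      rw [this]; exact a.2
    have h0 := hd.ord_unit hne (hb' ▸ b.2) hinv
    rw [hd.ord_mul (zpow_ne_zero _ hd.ne) hc, hd.ord_zpow hd.ne, hd.ord_unif] at h0
    omega
  · rintro rfl
    refine ⟨⟨ϖ, hϖ.mem⟩, hϖ.irreducible, ?_⟩
    rw [formLattice_eq h hO]
    obtain ⟨u, hu0, hu, hu', hcu⟩ := hϖ.exists_ord hc
    have hu2 : ϖ ^ (-ord O c) * c = u := by
      conv_lhs => rw [hcu]
      rw [zpow_neg, hϖ.ord_mul hu0 (zpow_ne_zero _ hϖ.ne), hϖ.ord_zpow hϖ.ne, hϖ.ord_unif,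
        hϖ.ord_unit hu0 hu hu']
      have := zpow_ne_zero (ord O c) hϖ.ne
      simp only [zero_add, mul_one]
      field_simp
    apply le_antisymm
    · rw [Submodule.span_singleton_le_iff_mem, Submodule.mem_span_singleton]
      refine ⟨⟨u⁻¹, hu'⟩, ?_⟩
      change u⁻¹ • (ϖ ^ (-ord O c)) • c • wedge k v = wedge k v
      rw [smul_smul, smul_smul, mul_assoc, hu2, inv_mul_cancel₀ hu0, one_smul]
    · rw [Submodule.span_singleton_le_iff_mem, Submodule.mem_span_singleton]
      refine ⟨⟨u, hu⟩, ?_⟩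
      change u • wedge k v = (ϖ ^ (-ord O c)) • c • wedge k v
      rw [smul_smul, hu2]

lemma formOrd_eq {v : Fin 3 → K} (h : Coord k v) {O : Subalgebra k K} (hO : IsLoc v O)
    {ϖ : K} (hϖ : DV O ϖ) {c : K} (hc : c ≠ 0) : formOrd 3 O (c • wedge k v) = ord O c := by
  have hex : ∃ m, IsFormOrd 3 O (c • wedge k v) m :=
    ⟨ord O c, (isFormOrd_iff h hO hϖ hc _).2 rfl⟩
  have hd : formOrd 3 O (c • wedge k v) = hex.choose := dif_pos hex
  rw [hd]
  exact (isFormOrd_iff h hO hϖ hc _).1 hex.choose_spec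

end Pool.Agent.KltOpen
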