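import Mathlib

open AlgebraicGeometry CategoryTheory

universe u

namespace Pool.Agent.KltType

/-! ### Orders of functions and of top forms along a discrete valuation ring

`K` is a field over `k` (the function field of a variety), `O` is a `k`-subalgebra of `K`
which, in all uses below, is a discrete valuation ring with fraction field `K`, and
`d : K → Ω` is the universal derivation of `K` over `k` (with `Ω` the module of differentials
of `K` over `k`). -/

section Field

variable {k K Ω : Type u} [Field k] [Field K] [Algebra k K] [AddCommGroup Ω] [Module K Ω]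

/-- `f = u * ϖ ^ n` with `ϖ` a uniformizer and `u` a unit of `O`. -/
def IsOrd (O : Subalgebra k K) (f : K) (n : ℤ) : Prop :=
  ∃ (ϖ : O) (u : Oˣ), Irreducible ϖ ∧ f = ((u : O) : K) * (ϖ : K) ^ n

open Classical in
/-- The order of vanishing `ord_O(f)` of `f ≠ 0` along the discrete valuation ring `O`: the
integer `n` with `f = u * ϖ ^ n`. -/
noncomputable def ord (O : Subalgebra k K) (f : K) : ℤ :=
  if h : ∃ n, IsOrd O f n then h.choose else 0

/-- The `O`-submodule of `⋀ⁿ Ω` spanned by the forms `da₁ ∧ ⋯ ∧ daₙ` with all `aᵢ ∈ O`. -/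
noncomputable def formLattice (d : K → Ω) (n : ℕ) (O : Subalgebra k K) :
    Submodule O (⋀[K]^n Ω) :=
  Submodule.span O {ω | ∃ a : Fin n → O, ω = exteriorPower.ιMulti K n (fun i => d (a i : K))}

/-- `O η = ϖ ^ m L`, where `L` is the lattice spanned by the forms `da₁ ∧ ⋯ ∧ daₙ` with all
`aᵢ ∈ O` and `ϖ` is a uniformizer of `O`. -/
def IsFormOrd (d : K → Ω) (n : ℕ) (O : Subalgebra k K) (η : ⋀[K]^n Ω) (m : ℤ) : Prop :=
  ∃ ϖ : O, Irreducible ϖ ∧ formLattice d n O = Submodule.span O {((ϖ : K) ^ (-m)) • η}

open Classical in
/-- The order `ord_O(η)` of a nonzero rational top form `η` along the discrete valuation ring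
`O`: the integer `m` with `O η = ϖ ^ m L`, `L` spanned by the forms `da₁ ∧ ⋯ ∧ daₙ` with all
`aᵢ ∈ O`. -/
noncomputable def formOrd (d : K → Ω) (n : ℕ) (O : Subalgebra k K) (η : ⋀[K]^n Ω) : ℤ :=
  if h : ∃ m, IsFormOrd d n O η m then h.choose else 0

/-- `O` is a discrete valuation ring with fraction field `K`, essentially of finite type over
`k`. These are exactly the local rings `O_{Y,E}` of the prime divisors `E` on the normal
varieties `Y` over `k` with function field `K`. -/
structure IsPrimeDivisorRing (O : Subalgebra k K) : Prop where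
  dvr : IsDiscreteValuationRing O
  frac : IsFractionRing O K
  ess : Algebra.EssFiniteType k O

/-- The ring `O` dominates the local ring `A`. -/
def Dominates (A O : Subalgebra k K) : Prop :=
  A ≤ O ∧ ∀ a ∈ A, a⁻¹ ∈ O → a⁻¹ ∈ A

/-- Existence of an effective `ℝ`-divisor `B` with `K_X + B` `ℝ`-Cartier and `(X, B)` klt, for a
normal variety `X` with function field `K` of dimension `n`.

Here `d : K → Ω` is the universal derivation of `K` over `k`, `P` is the space of points of `X`,
`loc x ⊆ K` is the local ring of `X` at `x`, and
`codimOne x` says that `x` is (the generic point of) a prime divisor. The canonical divisor is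
`K_X = div(η)` with `η` a nonzero rational `n`-form. `B` is a function on the prime divisors
with nonnegative values and finite support. Every point has an open neighbourhood `U` on which
`K_X + B = ∑ rᵢ div(Fᵢ)` with real `rᵢ` and rational functions `Fᵢ`, and then for every prime
divisor `E` over `X` with centre in `U` the discrepancy
`a(E, X, B) = ord_E(η) - ∑ rᵢ ord_E(Fᵢ)` is required to be `> -1`. -/
def HasKltBoundary (d : K → Ω) (n : ℕ) {P : Type u} [TopologicalSpace P]
    (loc : P → Subalgebra k K) (codimOne : P → Prop) : Prop :=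
  ∃ (η : ⋀[K]^n Ω) (B : P → ℝ), η ≠ 0 ∧ (∀ x, 0 ≤ B x) ∧ (∀ x, B x ≠ 0 → codimOne x) ∧
    (Function.support B).Finite ∧
    ∀ x : P, ∃ U : Set P, IsOpen U ∧ x ∈ U ∧
      ∃ (m : ℕ) (r : Fin m → ℝ) (F : Fin m → K), (∀ i, F i ≠ 0) ∧
        (∀ y ∈ U, codimOne y →
          (formOrd d n (loc y) η : ℝ) + B y = ∑ i, r i * (ord (loc y) (F i) : ℝ)) ∧
        (∀ O : Subalgebra k K, IsPrimeDivisorRing O → (∃ y ∈ U, Dominates (loc y) O) →
          -1 < (formOrd d n O η : ℝ) - ∑ i, r i * (ord O (F i) : ℝ))

end Field

/-! ### Varieties over `k` and klt type -/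

section Schemes

variable {k : Type u} [Field k]

/-- A variety over `k`: an integral separated scheme of finite type over `k`. -/
structure IsVariety {X : Scheme.{u}} (s : X ⟶ Spec (.of k)) : Prop where
  integral : IsIntegral X
  separated : IsSeparated s
  locallyOfFiniteType : LocallyOfFiniteType s
  quasiCompact : QuasiCompact s

variable {X : Scheme.{u}} [IsIntegral X] (s : X ⟶ Spec (.of k))

/-- The structure map `k → Γ(X, 𝒪)` of a scheme over `k`. -/
noncomputable def scalar : k →+* Γ(X, ⊤) :=
  ((Scheme.ΓSpecIso (.of k)).inv ≫ s.appTop).hom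

/-- The restriction map `Γ(X, 𝒪) → K(X)`. -/
noncomputable def toFunctionField : Γ(X, ⊤) →+* X.functionField :=
  (X.presheaf.germ ⊤ (genericPoint X) trivial).hom

/-- The function field of `X` as a `k`-algebra. -/
@[reducible] noncomputable def functionFieldAlgebra : Algebra k X.functionField :=
  (toFunctionField.comp (scalar s)).toAlgebra

/-- The local ring `O_{X,x}` as a `k`-subalgebra of the function field. -/
noncomputable def localRing (x : X) :
    letI := functionFieldAlgebra s
    Subalgebra k X.functionField :=
  letI := functionFieldAlgebra s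
  { (algebraMap (X.presheaf.stalk x) X.functionField).range with
    algebraMap_mem' := by
      intro c
      refine ⟨X.presheaf.germ ⊤ x trivial (((Scheme.ΓSpecIso (.of k)).inv ≫ s.appTop) c), ?_⟩
      have := ConcreteCategory.congr_hom (X.presheaf.germ_stalkSpecializes
        (U := ⊤) (y := x) trivial ((genericPoint_spec X).specializes trivial))
        (((Scheme.ΓSpecIso (.of k)).inv ≫ s.appTop) c)
      exact this }

end Schemes

/-- A scheme `X` over the field `k` (a variety in all uses) is of klt type: it is integral and
normal, and there is an effective `ℝ`-divisor `B` such that `K_X + B` is `ℝ`-Cartier and the pair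
`(X, B)` is klt. The dimension of `X` enters as `n = dim_K Ω_{K/k}`, `K` the function field. -/
def IsKltType {k : Type u} [Field k] {X : Scheme.{u}} (s : X ⟶ Spec (.of k)) : Prop :=
  ∃ _ : IsIntegral X,
    letI := functionFieldAlgebra s
    (∀ x : X, IsIntegrallyClosed (X.presheaf.stalk x)) ∧
    HasKltBoundary (KaehlerDifferential.D k X.functionField)
      (Module.finrank X.functionField Ω[X.functionField⁄k])
      (localRing s) (fun x => ringKrullDim (X.presheaf.stalk x) = 1)

end Pool.Agent.KltType
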