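import Pool.Agent.MP_ce0b4e_ag.NotKlt

universe u

open MvPolynomial KaehlerDifferential

namespace Pool.Agent.KltOpen

variable {k K : Type u} [Field k] [Field K] [Algebra k K]
variable {x y q : K}

lemma ff_zero (x y : K) : ff x y (0 : k) = x := by simp [ff]

/-! ### Integral closedness of the fibre over `0` -/

section normal

variable (h : Coord k ![x, y, q])

lemma SR0_pos {i : ℕ} (hi : i ≤ 4) : x * q ^ i ∈ SR k x y q 0 := by
  interval_cases i
  · simpa using SR_x x y q 0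
  · simpa using SR_x1 x y q 0
  · exact SR_x2 x y q 0
  · exact SR_x3 x y q 0
  · exact SR_x4 x y q 0

lemma SR0_neg {i : ℕ} (hi : i ≤ 4) : x * q⁻¹ ^ i ∈ SR k x y q 0 := by
  have e : x = ff x y (0 : k) := (ff_zero x y).symm
  interval_cases i
  · simpa using SR_x x y q 0
  · have := SR_f1 x y q (0 : k)
    rw [ff_zero] at this
    simpa using this
  · have := SR_f2 x y q (0 : k)
    rwa [ff_zero] at this
  · have := SR_f3 x y q (0 : k)
    rwa [ff_zero] at this
  · have := SR_f4 x y q (0 : k)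
    rwa [ff_zero] at this

lemma SR0_zpow {d : ℤ} (h1 : -4 ≤ d) (h2 : d ≤ 4) : x * q ^ d ∈ SR k x y q 0 := by
  rcases le_total 0 d with hd | hd
  · obtain ⟨i, rfl⟩ := Int.eq_ofNat_of_zero_le hd
    rw [zpow_natCast]
    exact SR0_pos (by omega)
  · obtain ⟨i, hi⟩ := Int.eq_ofNat_of_zero_le (Int.neg_nonneg.mpr hd)
    have : d = -(i : ℤ) := by omega
    rw [this, zpow_neg, zpow_natCast, ← inv_pow]
    exact SR0_neg (by omega)

lemma SR0_monomial (hq : q ≠ 0) (j : ℕ) : ∀ d : ℤ, -(4 * j : ℤ) ≤ d → d ≤ 4 * j →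
    x ^ j * q ^ d ∈ SR k x y q 0 := by
  induction j with
  | zero =>
    intro d h1 h2
    have : d = 0 := by push_cast at h1 h2; omega
    rw [this]; simp
  | succ j ih =>
    intro d h1 h2
    push_cast at h1 h2
    have key : ∃ i : ℤ, -4 ≤ i ∧ i ≤ 4 ∧ -(4 * j : ℤ) ≤ d - i ∧ d - i ≤ 4 * j := by
      rcases le_total d (-(4 * j : ℤ)) with hd | hd
      · exact ⟨d + 4 * j, by omega, by omega, by omega, by omega⟩
      · rcases le_total (4 * j : ℤ) d with hd' | hd'
        · exact ⟨d - 4 * j, by omega, by omega, by omega, by omega⟩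
        · exact ⟨0, by omega, by omega, by omega, by omega⟩
    obtain ⟨i, hi1, hi2, hi3, hi4⟩ := key
    have e : x ^ (j + 1) * q ^ d = (x * q ^ i) * (x ^ j * q ^ (d - i)) := by
      have : q ^ d = q ^ i * q ^ (d - i) := by
        rw [← zpow_add₀ hq]; congr 1; ring
      rw [this, pow_succ]; ring
    rw [e]
    exact Subalgebra.mul_mem _ (SR0_zpow hi1 hi2) (ih _ hi3 hi4)

include h

lemma ord2_x0 : ord (h.to2 0).Oc x = 4 :=
  (congrArg (ord (h.to2 0).Oc) (ff_zero x y).symm).trans (ord2_f h (0 : k))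

lemma A2_pair {a : K} (ha : a ∈ A2 k x y) (ha0 : a ≠ 0) : ∃ (j : ℕ) (b : K), b ∈ A2 k x y ∧
    a = x ^ j * b ∧ ord h.to1.Oc a = 4 * j ∧ ord (h.to2 0).Oc a = 4 * j := by
  obtain ⟨j, g, t, ht, hg, hz1⟩ := A2_decomp ha ha0
  have hx := h.ne_x
  set z' := Polynomial.aeval y g + x * t with hz'
  have hz'0 : z' ≠ 0 := by
    intro h1
    apply ha0
    rw [hz1, h1, mul_zero]
  have hyA : Polynomial.aeval y g ∈ A2 k x y :=
    Algebra.adjoin_mono (by simp) (Polynomial.aeval_mem_adjoin_singleton k y)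
  have hz'A : z' ∈ A2 k x y :=
    Subalgebra.add_mem _ hyA (Subalgebra.mul_mem _ (left_mem_A2 _ _) ht)
  have o1 : ord h.to1.Oc z' = 0 := by
    have e0 : ord h.to1.Oc (Polynomial.aeval y g) = 0 := h.to1.ord_poly_v2 hg
    rw [hz', (h.to1.dv.ord_add_eq hg _).2, e0]
    intro hxt
    have ht0 : t ≠ 0 := fun h1 => hxt (by rw [h1, mul_zero])
    have := h.to1.dv.ord_nonneg ht0 (A2_le_1 h ht)
    rw [e0, h.to1.dv.ord_mul hx ht0, ord1_x h]
    omega
  have o2 : ord (h.to2 0).Oc z' = 0 := by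
    have e0 : ord (h.to2 0).Oc (Polynomial.aeval y g) = 0 := (h.to2 0).ord_poly_v2 hg
    rw [hz', ((h.to2 0).dv.ord_add_eq hg _).2, e0]
    intro hxt
    have ht0 : t ≠ 0 := fun h1 => hxt (by rw [h1, mul_zero])
    have := (h.to2 0).dv.ord_nonneg ht0 (A2_le_2 h 0 ht)
    rw [e0, (h.to2 0).dv.ord_mul hx ht0, ord2_x0 h]
    omega
  refine ⟨j, z', hz'A, hz1, ?_, ?_⟩
  · rw [hz1, h.to1.dv.ord_mul (pow_ne_zero j hx) hz'0, h.to1.dv.ord_pow hx, ord1_x h, o1]
    ring
  · rw [hz1, (h.to2 0).dv.ord_mul (pow_ne_zero j hx) hz'0, (h.to2 0).dv.ord_pow hx,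
      ord2_x0 h, o2]
    ring

omit h in
lemma cring1_le_AL : cring k ![x * q ^ 4, q⁻¹, y] ≤ AL k x y q :=
  cring_le_of (Subalgebra.mul_mem _ AL_x (Subalgebra.pow_mem _ AL_q 4)) AL_qi AL_y

/-- The coordinate ring of the fibre over `0` as an intersection. -/
lemma mem_SR0 [CharZero k] {z : K} (hz1 : z ∈ cring k ![x * q ^ 4, q⁻¹, y])
    (hz2 : z ∈ (h.to2 0).Oc) : z ∈ SR k x y q 0 := by
  obtain ⟨a, ha, hza⟩ := AL_rep h (cring1_le_AL hz1)
  have hq := h.ne_q
  rw [hza]
  refine Subalgebra.sum_mem _ fun d hd => ?_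
  have hd0 : a d ≠ 0 := Finsupp.mem_support_iff.1 hd
  have h1 := le_comp_1 h ha (e := 0) (by
    rw [← hza, Coord.mem_filt, neg_zero, zpow_zero, mul_one]
    exact h.to1.isLoc.le hz1) hd0
  have h2 := le_comp_2 h 0 ha (e := 0) (by
    rw [← hza, Coord.mem_filt, neg_zero, zpow_zero, mul_one]
    exact hz2) hd0
  obtain ⟨j, b, hb, hab, hj1, hj2⟩ := A2_pair h (ha d) hd0
  rw [hj1] at h1
  rw [hj2] at h2
  have e : a d * q ^ d = (x ^ j * q ^ d) * b := by rw [hab]; ring
  change a d * q ^ d ∈ _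
  rw [e]
  exact Subalgebra.mul_mem _ (SR0_monomial hq j d (by omega) (by omega))
    (A2_le (SR_x x y q 0) (SR_y x y q 0) hb)

lemma SR_frac (c : k) : IsFractionRing (SR k x y q c) K := by
  have hx := h.ne_x
  have key : ∀ z ∈ cring k ![x, y, q], ∃ n : ℕ, z * x ^ n ∈ SR k x y q c := by
    intro z hz
    rw [cring_eq_adjoin] at hz
    induction hz using Algebra.adjoin_induction with
    | mem z hz =>
      obtain ⟨i, rfl⟩ := hz
      fin_cases i
      · exact ⟨0, by simpa using SR_x x y q c⟩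
      · exact ⟨0, by simpa using SR_y x y q c⟩
      · refine ⟨1, ?_⟩
        have := SR_x1 x y q c
        rw [mul_comm] at this
        simpa using this
    | algebraMap r => exact ⟨0, by simp⟩
    | add u w _ _ hu hw =>
      obtain ⟨n, hn⟩ := hu
      obtain ⟨m, hm⟩ := hw
      refine ⟨n + m, ?_⟩
      have : (u + w) * x ^ (n + m) = u * x ^ n * x ^ m + w * x ^ m * x ^ n := by
        rw [pow_add]; ring
      rw [this]
      exact Subalgebra.add_mem _ (Subalgebra.mul_mem _ hn (Subalgebra.pow_mem _ (SR_x x y q c) m))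
        (Subalgebra.mul_mem _ hm (Subalgebra.pow_mem _ (SR_x x y q c) n))
    | mul u w _ _ hu hw =>
      obtain ⟨n, hn⟩ := hu
      obtain ⟨m, hm⟩ := hw
      refine ⟨n + m, ?_⟩
      have : (u * w) * x ^ (n + m) = (u * x ^ n) * (w * x ^ m) := by
        rw [pow_add]; ring
      rw [this]
      exact Subalgebra.mul_mem _ hn hm
  refine IsFractionRing.of_field _ K ?_
  intro z
  obtain ⟨a, ha, b, hb, hb0, rfl⟩ := h.exists_frac z
  obtain ⟨n, hn⟩ := key a ha
  obtain ⟨m, hm⟩ := key b hb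
  refine ⟨⟨a * x ^ n * x ^ m, Subalgebra.mul_mem _ hn (Subalgebra.pow_mem _ (SR_x x y q c) m)⟩,
    ⟨b * x ^ m * x ^ n, Subalgebra.mul_mem _ hm (Subalgebra.pow_mem _ (SR_x x y q c) n)⟩, ?_⟩
  change a / b = (a * x ^ n * x ^ m) / (b * x ^ m * x ^ n)
  field_simp

omit h in
lemma mem_of_isIntegral {S T : Subalgebra k K} (hST : S ≤ T) [IsIntegrallyClosed T]
    [IsFractionRing T K] {z : K} (hz : IsIntegral S z) : z ∈ T := by
  obtain ⟨p, hp, hpz⟩ := hz
  have hz' : IsIntegral T z := by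
    refine ⟨p.map (Subalgebra.inclusion hST).toRingHom, hp.map _, ?_⟩
    rw [Polynomial.eval₂_map]
    exact hpz
  obtain ⟨w, hw⟩ := (isIntegrallyClosed_iff K).1 inferInstance hz'
  rw [← hw]; exact w.2

lemma SR0_isIntegrallyClosed [CharZero k] : IsIntegrallyClosed (SR k x y q 0) := by
  have := SR_frac h (0 : k)
  rw [isIntegrallyClosed_iff K]
  intro z hz
  have h1 : z ∈ cring k ![x * q ^ 4, q⁻¹, y] := by
    have hu := h.to1.ufd
    have hf := h.to1.isFractionRing
    exact mem_of_isIntegral (SR_le_cring1 h (0 : k)) hz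
  have h2 : z ∈ (h.to2 0).Oc := by
    have hd := (h.to2 (0 : k)).dv.dvr
    have hf := (h.to2 (0 : k)).dv.frac
    exact mem_of_isIntegral (SR_le_2 h (0 : k)) hz
  exact ⟨⟨z, mem_SR0 h h1 h2⟩, rfl⟩

lemma SR0_locAt_isIntegrallyClosed [CharZero k] (p : Ideal (SR k x y q 0)) [p.IsPrime] :
    IsIntegrallyClosed (locAt _ p) := by
  have := SR0_isIntegrallyClosed h
  let _ := (Subalgebra.inclusion (le_locAt (S := SR k x y q 0) (p := p))).toAlgebra
  have := isLocalization_locAt p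
  exact isIntegrallyClosed_of_isLocalization _ p.primeCompl
    (Ideal.primeCompl_le_nonZeroDivisors p)

omit h in
lemma SR_finiteType (c : k) : Algebra.FiniteType k (SR k x y q c) := by
  rw [← Subalgebra.fg_iff_finiteType, SR]
  classical
  exact ⟨{x, y, x * q, x * q ^ 2, x * q ^ 3, x * q ^ 4, ff x y c * q⁻¹, ff x y c * q⁻¹ ^ 2,
    ff x y c * q⁻¹ ^ 3, ff x y c * q⁻¹ ^ 4}, by simp⟩

end normal

/-- A normal local ring of dimension one is a discrete valuation ring. -/
lemma exists_dv_of_dim_one [CharZero k] (h : Coord k ![x, y, q]) (p : Ideal (SR k x y q 0))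
    [p.IsPrime] (hp : ringKrullDim (locAt _ p) = 1) : ∃ ϖ, DV (locAt _ p) ϖ := by
  have hic := SR0_locAt_isIntegrallyClosed h p
  let _ := (Subalgebra.inclusion (le_locAt (S := SR k x y q 0) (p := p))).toAlgebra
  have hloc := isLocalization_locAt p
  have := SR_finiteType (x := x) (y := y) (q := q) (0 : k)
  have : IsNoetherianRing (SR k x y q 0) := Algebra.FiniteType.isNoetherianRing k _
  have hn : IsNoetherianRing (locAt (SR k x y q 0) p) :=
    IsLocalization.isNoetherianRing p.primeCompl _ inferInstance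
  have hl : IsLocalRing (locAt (SR k x y q 0) p) := IsLocalization.AtPrime.isLocalRing _ p
  have hdim : Ring.KrullDimLE 1 (locAt (SR k x y q 0) p) := Ring.krullDimLE_iff.2 hp.le
  have hnf : ¬ IsField (locAt (SR k x y q 0) p) := by
    intro hf
    have := ringKrullDim_eq_zero_of_isField hf
    rw [this] at hp
    exact absurd hp (by norm_num)
  have hdvr : IsDiscreteValuationRing (locAt (SR k x y q 0) p) := by
    have h1 := (tfae_of_isNoetherianRing_of_isLocalRing_of_isDomain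
      (locAt (SR k x y q 0) p)).out 3 0
    have h2 : IsPrincipalIdealRing (locAt (SR k x y q 0) p) := h1.1 ⟨hic, by
      intro P hP hP'
      exact IsLocalRing.eq_maximalIdeal (Ring.krullDimLE_one_iff_of_isPrime_bot.1 hdim P hP hP')⟩
    exact { not_a_field' := fun h0 => hnf (IsLocalRing.isField_iff_maximalIdeal_eq.2 h0) }
  have hfr : IsFractionRing (locAt (SR k x y q 0) p) K := by
    have := SR_frac h (0 : k)
    refine IsFractionRing.of_field _ K ?_
    intro z
    obtain ⟨a, b, hb, rfl⟩ := IsFractionRing.div_surjective (A := SR k x y q 0) z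
    exact ⟨⟨a, le_locAt a.2⟩, ⟨b, le_locAt b.2⟩, rfl⟩
  obtain ⟨ϖ, hϖ⟩ := IsDiscreteValuationRing.exists_irreducible (locAt (SR k x y q 0) p)
  exact ⟨ϖ, DV.of_irreducible hϖ⟩

end Pool.Agent.KltOpen
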