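import Pool.Agent.MP_ce0b4e_ag.KltZero

universe u

open MvPolynomial KaehlerDifferential

namespace Pool.Agent.KltOpen

variable {k K : Type u} [Field k] [Field K] [Algebra k K]

/-- A coordinate of positive order along a localization of the coordinate ring which is a discrete
valuation ring is a uniformizer. -/
lemma ord_coord_eq_one {w : Fin 3 → K} (hw : Coord k w) {O : Subalgebra k K} {ϖ : K}
    (hO : DV O ϖ) (hL : IsLoc w O) (hpos : 0 < ord O (w 1)) : ord O (w 1) = 1 := by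
  have hufd := hw.ufd
  have hw1 := hw.ne_zero 1
  have hv1 : ((hw.v1 : cring k w) : K) = w 1 := rfl
  have hzero : ∀ a : cring k w, ¬ hw.v1 ∣ a → ord O (a : K) = 0 := by
    intro a ha
    have ha0 : (a : K) ≠ 0 := by
      intro h0
      apply ha
      have : a = 0 := Subtype.ext h0
      rw [this]; exact dvd_zero _
    have hnn := hO.ord_nonneg ha0 (hL.le a.2)
    by_contra hne
    have hm : 0 < ord O (a : K) := lt_of_le_of_ne hnn (Ne.symm hne)
    obtain ⟨m, hm'⟩ := Int.eq_ofNat_of_zero_le hm.le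
    obtain ⟨n, hn'⟩ := Int.eq_ofNat_of_zero_le hpos.le
    have hz0 : (a : K) ^ n / (w 1) ^ m ≠ 0 := div_ne_zero (pow_ne_zero n ha0) (pow_ne_zero m hw1)
    have hz : ord O ((a : K) ^ n / (w 1) ^ m) = 0 := by
      rw [hO.ord_div (pow_ne_zero n ha0) (pow_ne_zero m hw1), hO.ord_pow ha0, hO.ord_pow hw1,
        hm', hn']
      ring
    have hzO := ((hO.unit_iff hz0).2 hz).1
    obtain ⟨b, hb, c, hc, hc0, hci, hbc⟩ := hL.frac _ hzO
    have e : a ^ n * ⟨c, hc⟩ = ⟨b, hb⟩ * hw.v1 ^ m := by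
      apply Subtype.ext
      change (a : K) ^ n * c = b * (w 1) ^ m
      have := pow_ne_zero m hw1
      field_simp at hbc
      rw [hbc, mul_comm]
    have hmpos : m ≠ 0 := by
      rintro rfl
      rw [hm'] at hm; exact absurd hm (by norm_num)
    have d1 : hw.v1 ∣ a ^ n * ⟨c, hc⟩ := by
      rw [e]
      exact Dvd.dvd.mul_left (dvd_pow_self _ hmpos) _
    rcases hw.prime_v1.dvd_or_dvd d1 with d2 | d2
    · exact ha (hw.prime_v1.dvd_of_dvd_pow d2)
    · obtain ⟨e', he'⟩ := d2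
      have he2 : c = w 1 * (e' : K) := congrArg Subtype.val he'
      have he0 : (e' : K) ≠ 0 := by
        intro h0
        apply hc0
        rw [he2, h0, mul_zero]
      have h1 : ord O c = 0 := (hO.unit_iff hc0).1 ⟨hL.le hc, hci⟩
      rw [he2, hO.ord_mul hw1 he0] at h1
      have := hO.ord_nonneg he0 (hL.le e'.2)
      omega
  obtain ⟨a, ha, b, hb, hb0, hbi, hab⟩ := hL.frac _ hO.mem
  have ha0 : a ≠ 0 := by
    rintro rfl
    apply hO.ne
    rw [hab, zero_div]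
  have h1 : ord O a = 1 := by
    have h2 : ord O (a / b) = 1 := by rw [← hab]; exact hO.ord_unif
    rw [hO.ord_div ha0 hb0, (hO.unit_iff hb0).1 ⟨hL.le hb, hbi⟩] at h2
    omega
  have ha0' : (⟨a, ha⟩ : cring k w) ≠ 0 := fun h0 => ha0 (congrArg Subtype.val h0)
  obtain ⟨j, a', ha', haa⟩ := WfDvdMonoid.max_power_factor ha0' hw.prime_v1.irreducible
  have haa2 : a = (w 1) ^ j * (a' : K) := congrArg Subtype.val haa
  have ha'0 : (a' : K) ≠ 0 := by
    intro h0
    apply ha0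
    rw [haa2, h0, mul_zero]
  rw [haa2, hO.ord_mul (pow_ne_zero j hw1) ha'0, hO.ord_pow hw1, hzero a' ha', add_zero] at h1
  rcases Int.mul_eq_one_iff_eq_one_or_neg_one.1 h1 with h2 | h2
  · exact h2.2
  · omega

variable {x y q : K}

section eval

variable (k) in
/-- The substitution `v₀, v₁ ↦ 0`, `v₂ ↦ T`. -/
noncomputable def ev : MvPolynomial (Fin 3) k →ₐ[k] Polynomial k :=
  aeval ![0, 0, Polynomial.X]

lemma SR0_eval (hq : q ≠ 0) (p : Ideal (SR k x y q 0))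
    (hpos : ∀ i : ℕ, (hi : i ≤ 4) → (⟨x * q ^ i, SR0_pos hi⟩ : SR k x y q 0) ∈ p)
    (hneg : ∀ i : ℕ, (hi : i ≤ 4) → (⟨x * q⁻¹ ^ i, SR0_neg hi⟩ : SR k x y q 0) ∈ p)
    {g : K} (hg : g ∈ SR k x y q 0) :
    ∃ P : MvPolynomial (Fin 3) k, aeval ![x * q ^ 4, q⁻¹, y] P = g ∧
      ∃ u ∈ p, (u : K) = g - Polynomial.aeval y (ev k P) := by
  have hyS : ∀ r : Polynomial k, Polynomial.aeval y r ∈ SR k x y q 0 := fun r =>
    Algebra.adjoin_mono (by simp) (Polynomial.aeval_mem_adjoin_singleton k y)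
  have e0 : x * q ^ 4 * q⁻¹ ^ 4 = x := by field_simp
  have epos : ∀ i : ℕ, i ≤ 4 → x * q ^ 4 * q⁻¹ ^ (4 - i) = x * q ^ i := by
    intro i hi
    interval_cases i <;> norm_num <;> field_simp
  have eneg : ∀ i : ℕ, x * q ^ 4 * q⁻¹ ^ (4 + i) = x * q⁻¹ ^ i := by
    intro i
    rw [pow_add, ← mul_assoc, e0]
  have key : ∀ i : ℕ, i ≤ 4 → ∃ P : MvPolynomial (Fin 3) k, aeval ![x * q ^ 4, q⁻¹, y] P = x * q ^ i ∧
      ∃ u ∈ p, (u : K) = x * q ^ i - Polynomial.aeval y (ev k P) := by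
    intro i hi
    refine ⟨X 0 * X 1 ^ (4 - i), ?_, ⟨_, hpos i hi, ?_⟩⟩
    · simp only [map_mul, map_pow, aeval_X, Matrix.cons_val_zero, Matrix.cons_val_one]
      exact epos i hi
    · simp [ev]
  have key' : ∀ i : ℕ, i ≤ 4 → ∃ P : MvPolynomial (Fin 3) k,
      aeval ![x * q ^ 4, q⁻¹, y] P = ff x y (0 : k) * q⁻¹ ^ i ∧
      ∃ u ∈ p, (u : K) = ff x y (0 : k) * q⁻¹ ^ i - Polynomial.aeval y (ev k P) := by
    intro i hi
    rw [ff_zero]
    refine ⟨X 0 * X 1 ^ (4 + i), ?_, ⟨_, hneg i hi, ?_⟩⟩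
    · simp only [map_mul, map_pow, aeval_X, Matrix.cons_val_zero, Matrix.cons_val_one]
      exact eneg i
    · simp [ev]
  rw [SR] at hg
  induction hg using Algebra.adjoin_induction with
  | mem z hz =>
    simp only [Set.mem_insert_iff, Set.mem_singleton_iff] at hz
    rcases hz with rfl | rfl | rfl | rfl | rfl | rfl | rfl | rfl | rfl | rfl
    · simpa using key 0 (by norm_num)
    · refine ⟨X 2, by simp, 0, p.zero_mem, by simp [ev]⟩
    · simpa using key 1 (by norm_num)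
    · exact key 2 (by norm_num)
    · exact key 3 (by norm_num)
    · exact key 4 (by norm_num)
    · simpa using key' 1 (by norm_num)
    · exact key' 2 (by norm_num)
    · exact key' 3 (by norm_num)
    · exact key' 4 (by norm_num)
  | algebraMap r =>
    refine ⟨C r, by simp, 0, p.zero_mem, by simp [ev]⟩
  | add a b ha hb iha ihb =>
    obtain ⟨P, hP, u, hu, hu'⟩ := iha
    obtain ⟨Q, hQ, v, hv, hv'⟩ := ihb
    refine ⟨P + Q, by rw [map_add, hP, hQ], u + v, p.add_mem hu hv, ?_⟩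
    push_cast
    rw [hu', hv', map_add, map_add]; ring
  | mul a b ha hb iha ihb =>
    obtain ⟨P, hP, u, hu, hu'⟩ := iha
    obtain ⟨Q, hQ, v, hv, hv'⟩ := ihb
    have ha' : a ∈ SR k x y q 0 := ha
    refine ⟨P * Q, by rw [map_mul, hP, hQ], ⟨a, ha'⟩ * v + ⟨_, hyS (ev k Q)⟩ * u,
      p.add_mem (p.mul_mem_left _ hv) (p.mul_mem_left _ hu), ?_⟩
    push_cast
    rw [hu', hv', map_mul, map_mul]; ring

end eval

section codim_one

omit [Field K] [Algebra k K] in
lemma ev_eq_zero_of_dvd {P : MvPolynomial (Fin 3) k} (hP : (X 1 : MvPolynomial (Fin 3) k) ∣ P) :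
    ev k P = 0 := by
  obtain ⟨Q, rfl⟩ := hP
  simp [ev]

variable (h : Coord k ![x, y, q])
include h

/-- Prime ideals of codimension one do not contain all of `x, x q⁴, x q⁻⁴`. -/
lemma not_all_mem {p : Ideal (SR k x y q 0)} [p.IsPrime] {ϖ : K} (hO : DV (locAt _ p) ϖ)
    (h0 : (⟨x, SR_x x y q 0⟩ : SR k x y q 0) ∈ p)
    (h4 : (⟨x * q ^ 4, SR0_pos le_rfl⟩ : SR k x y q 0) ∈ p)
    (h4' : (⟨x * q⁻¹ ^ 4, SR0_neg le_rfl⟩ : SR k x y q 0) ∈ p) : False := by
  have hx := h.ne_x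
  have hq := h.ne_q
  have hqi := inv_ne_zero hq
  have hp := ‹p.IsPrime›
  have hpos : ∀ i : ℕ, (hi : i ≤ 4) → (⟨x * q ^ i, SR0_pos hi⟩ : SR k x y q 0) ∈ p := by
    intro i hi
    by_cases hi4 : i = 4
    · subst hi4; exact h4
    apply hp.mem_of_pow_mem 4
    have e : (⟨x * q ^ i, SR0_pos hi⟩ : SR k x y q 0) ^ 4 =
        (⟨x, SR_x x y q 0⟩ : SR k x y q 0) ^ (4 - i) * ⟨x * q ^ 4, SR0_pos le_rfl⟩ ^ i := by
      apply Subtype.ext
      change (x * q ^ i) ^ 4 = x ^ (4 - i) * (x * q ^ 4) ^ i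
      interval_cases i <;> norm_num <;> ring
    rw [e]
    exact p.mul_mem_right _ (Ideal.pow_mem_of_mem p h0 _ (by omega))
  have hneg : ∀ i : ℕ, (hi : i ≤ 4) → (⟨x * q⁻¹ ^ i, SR0_neg hi⟩ : SR k x y q 0) ∈ p := by
    intro i hi
    by_cases hi4 : i = 4
    · subst hi4; exact h4'
    apply hp.mem_of_pow_mem 4
    have e : (⟨x * q⁻¹ ^ i, SR0_neg hi⟩ : SR k x y q 0) ^ 4 =
        (⟨x, SR_x x y q 0⟩ : SR k x y q 0) ^ (4 - i) * ⟨x * q⁻¹ ^ 4, SR0_neg le_rfl⟩ ^ i := by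
      apply Subtype.ext
      change (x * q⁻¹ ^ i) ^ 4 = x ^ (4 - i) * (x * q⁻¹ ^ 4) ^ i
      generalize q⁻¹ = s
      interval_cases i <;> norm_num <;> ring
    rw [e]
    exact p.mul_mem_right _ (Ideal.pow_mem_of_mem p h0 _ (by omega))
  have hmem : ∀ a : SR k x y q 0, (a : K) ≠ 0 → (a ∈ p ↔ 0 < ord (locAt _ p) (a : K)) := by
    intro a ha
    rw [hO.ord_pos_iff ha, inv_mem_locAt_iff ha]
    push Not
    exact ⟨fun h => ⟨le_locAt a.2, h⟩, fun h => h.2⟩
  have hs0 : x * q ^ 4 ≠ 0 := mul_ne_zero hx (pow_ne_zero 4 hq)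
  have o0 := (hmem _ hx).1 h0
  have o4 := (hmem _ hs0).1 h4
  change 0 < ord (locAt _ p) x at o0
  change 0 < ord (locAt _ p) (x * q ^ 4) at o4
  obtain ⟨n, hn⟩ := Int.eq_ofNat_of_zero_le o0.le
  obtain ⟨m, hm⟩ := Int.eq_ofNat_of_zero_le o4.le
  have hz0 : (x * q ^ 4) ^ n / x ^ m ≠ 0 := div_ne_zero (pow_ne_zero n hs0) (pow_ne_zero m hx)
  have hz : ord (locAt _ p) ((x * q ^ 4) ^ n / x ^ m) = 0 := by
    rw [hO.ord_div (pow_ne_zero n hs0) (pow_ne_zero m hx), hO.ord_pow hs0, hO.ord_pow hx, hn, hm]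
    ring
  have hzO := ((hO.unit_iff hz0).2 hz).1
  obtain ⟨α, β, hβ, hαβ⟩ := mem_locAt_iff_div.1 hzO
  have hβ0 := ne_zero_of_notMem hβ
  have hα0 : (α : K) ≠ 0 := by
    intro h1
    rw [h1, zero_div] at hαβ
    exact hz0 hαβ
  have e : (x * q ^ 4) ^ n * (β : K) = x ^ m * (α : K) := by
    have := pow_ne_zero m hx
    field_simp at hαβ
    rw [hαβ]
  have hm0 : m ≠ 0 := by
    rintro rfl
    rw [hm] at o4; exact absurd o4 (by norm_num)
  have h1 : 0 < ord h.to1.Oc (β : K) := by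
    have e1 : ord h.to1.Oc ((x * q ^ 4) ^ n * (β : K)) = ord h.to1.Oc (x ^ m * (α : K)) := by
      rw [e]
    have e2 : ord h.to1.Oc (x * q ^ 4) = 0 := h.to1.ord_v0
    rw [h.to1.dv.ord_mul (pow_ne_zero n hs0) hβ0, h.to1.dv.ord_pow hs0, e2,
      h.to1.dv.ord_mul (pow_ne_zero m hx) hα0, h.to1.dv.ord_pow hx, ord1_x h] at e1
    have := h.to1.dv.ord_nonneg hα0 (SR_le_1 h 0 α.2)
    omega
  obtain ⟨P, hP, u, hu, hu'⟩ := SR0_eval hq p hpos hneg β.2
  have hd : (X 1 : MvPolynomial (Fin 3) k) ∣ P := by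
    apply h.to1.dvd_of_ord_pos
    rw [hP]; exact h1
  rw [ev_eq_zero_of_dvd hd, map_zero, sub_zero] at hu'
  apply hβ
  have : β = u := Subtype.ext hu'.symm
  rw [this]; exact hu

/-- The canonical divisor of the fibre over `0` is `-(1/4) div(x)`. -/
lemma formOrd_codim_one {p : Ideal (SR k x y q 0)} [p.IsPrime] {ϖ : K} (hO : DV (locAt _ p) ϖ) :
    4 * formOrd 3 (locAt _ p) ((x * q)⁻¹ • wedge k ![x, y, q]) = - ord (locAt _ p) x := by
  have hx := h.ne_x
  have hq := h.ne_q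
  have hqi := inv_ne_zero hq
  have hxq := mul_ne_zero hx hq
  have hmem : ∀ a : SR k x y q 0, a ∉ p → ord (locAt _ p) (a : K) = 0 := by
    intro a ha
    have ha0 := ne_zero_of_notMem ha
    exact hO.ord_unit ha0 (le_locAt a.2) (inv_mem_locAt ha)
  have hmem' : ∀ a : SR k x y q 0, (a : K) ≠ 0 → a ∈ p → 0 < ord (locAt _ p) (a : K) := by
    intro a ha ha'
    rw [hO.ord_pos_iff ha, inv_mem_locAt_iff ha]
    push Not
    exact ⟨le_locAt a.2, ha'⟩
  by_cases h0 : (⟨x, SR_x x y q 0⟩ : SR k x y q 0) ∈ p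
  · by_cases h4 : (⟨x * q ^ 4, SR0_pos le_rfl⟩ : SR k x y q 0) ∈ p
    · by_cases h4' : (⟨x * q⁻¹ ^ 4, SR0_neg le_rfl⟩ : SR k x y q 0) ∈ p
      · exact (not_all_mem h hO h0 h4 h4').elim
      · -- second chart
        have ff0 : ff x y (0 : k) * q⁻¹ ^ 4 = x * q⁻¹ ^ 4 := by rw [ff_zero]
        have hL : IsLoc ![ff x y (0 : k) * q⁻¹ ^ 4, q, y] (locAt _ p) := by
          refine ⟨cring_le_of ?_ ?_ (le_locAt (SR_y x y q 0)), ?_⟩
          · rw [ff0]; exact le_locAt (SR0_neg le_rfl)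
          · have := div_mem_locAt (⟨x * q⁻¹ ^ 3, SR0_neg (by norm_num)⟩ : SR k x y q 0) h4'
            have e : x * q⁻¹ ^ 3 / (x * q⁻¹ ^ 4) = q := by field_simp
            rwa [e] at this
          · intro z hz
            obtain ⟨a, b, hb, rfl⟩ := mem_locAt_iff_div.1 hz
            exact ⟨a, SR_le_cring2 h 0 a.2, b, SR_le_cring2 h 0 b.2, ne_zero_of_notMem hb,
              inv_mem_locAt hb, rfl⟩
        have o4 : ord (locAt _ p) (x * q⁻¹ ^ 4) = 0 := hmem _ h4'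
        have ox : 0 < ord (locAt _ p) x := hmem' _ hx h0
        have o4e := o4
        rw [hO.ord_mul hx (pow_ne_zero 4 hqi), hO.ord_pow hqi, hO.ord_inv hq] at o4e
        push_cast at o4e
        have oq : ord (locAt (SR k x y q 0) p) q = 1 := by
          apply ord_coord_eq_one (h.to2 0) hO hL
          change 0 < ord (locAt (SR k x y q 0) p) q
          omega
        have hq4 := neg_ne_zero.2 (pow_ne_zero 4 hq)
        rw [wedge_2 h 0, smul_smul, formOrd_eq (h.to2 0) hL hO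
          (mul_ne_zero (inv_ne_zero hxq) hq4), hO.ord_mul (inv_ne_zero hxq) hq4,
          hO.ord_inv hxq, hO.ord_mul hx hq, hO.ord_neg (pow_ne_zero 4 hq), hO.ord_pow hq, oq]
        push_cast
        omega
    · -- first chart
      have hL : IsLoc ![x * q ^ 4, q⁻¹, y] (locAt _ p) := by
        refine ⟨cring_le_of (le_locAt (SR0_pos le_rfl)) ?_ (le_locAt (SR_y x y q 0)), ?_⟩
        · have := div_mem_locAt (⟨x * q ^ 3, SR0_pos (by norm_num)⟩ : SR k x y q 0) h4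
          have e : x * q ^ 3 / (x * q ^ 4) = q⁻¹ := by field_simp
          rwa [e] at this
        · intro z hz
          obtain ⟨a, b, hb, rfl⟩ := mem_locAt_iff_div.1 hz
          exact ⟨a, SR_le_cring1 h 0 a.2, b, SR_le_cring1 h 0 b.2, ne_zero_of_notMem hb,
            inv_mem_locAt hb, rfl⟩
      have o4 : ord (locAt _ p) (x * q ^ 4) = 0 := hmem _ h4
      have ox : 0 < ord (locAt _ p) x := hmem' _ hx h0
      have o4e := o4
      rw [hO.ord_mul hx (pow_ne_zero 4 hq), hO.ord_pow hq] at o4e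
      push_cast at o4e
      have oq : ord (locAt (SR k x y q 0) p) q⁻¹ = 1 := by
        apply ord_coord_eq_one h.to1 hO hL
        change 0 < ord (locAt (SR k x y q 0) p) q⁻¹
        rw [hO.ord_inv hq]
        omega
      have oq' := oq
      rw [hO.ord_inv hq] at oq'
      rw [wedge_1 h, smul_smul, formOrd_eq h.to1 hL hO
        (mul_ne_zero (inv_ne_zero hxq) (pow_ne_zero 2 hqi)),
        hO.ord_mul (inv_ne_zero hxq) (pow_ne_zero 2 hqi),
        hO.ord_inv hxq, hO.ord_mul hx hq, hO.ord_pow hqi, oq]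
      push_cast
      omega
  · -- the torus
    have ox : ord (locAt _ p) x = 0 := hmem _ h0
    have hqm : q ∈ locAt (SR k x y q 0) p := by
      have := div_mem_locAt (⟨x * q ^ 1, SR0_pos (by norm_num)⟩ : SR k x y q 0) h0
      have e : x * q ^ 1 / x = q := by field_simp
      rwa [e] at this
    have hqim : q⁻¹ ∈ locAt (SR k x y q 0) p := by
      have := div_mem_locAt (⟨x * q⁻¹ ^ 1, SR0_neg (by norm_num)⟩ : SR k x y q 0) h0
      have e : x * q⁻¹ ^ 1 / x = q⁻¹ := by field_simp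
      rwa [e] at this
    have oq : ord (locAt _ p) q = 0 := (hO.unit_iff hq).1 ⟨hqm, hqim⟩
    have hL : IsLoc ![x, y, q] (locAt _ p) := by
      refine ⟨cring_le_of (le_locAt (SR_x x y q 0)) (le_locAt (SR_y x y q 0)) hqm, ?_⟩
      intro z hz
      obtain ⟨a, b, hb, rfl⟩ := mem_locAt_iff_div.1 hz
      have hqC : q ∈ cring k ![x, y, q] := coord_mem_cring ![x, y, q] 2
      obtain ⟨n, hn⟩ := AL_mul_pow_mem hq (SR_le_AL 0 a.2)
      obtain ⟨m, hm⟩ := AL_mul_pow_mem hq (SR_le_AL 0 b.2)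
      have hb0 := ne_zero_of_notMem hb
      refine ⟨(a : K) * q ^ n * q ^ m, Subalgebra.mul_mem _ hn (Subalgebra.pow_mem _ hqC m),
        (b : K) * q ^ m * q ^ n, Subalgebra.mul_mem _ hm (Subalgebra.pow_mem _ hqC n), ?_, ?_, ?_⟩
      · exact mul_ne_zero (mul_ne_zero hb0 (pow_ne_zero m hq)) (pow_ne_zero n hq)
      · rw [mul_inv, mul_inv, ← inv_pow, ← inv_pow]
        exact Subalgebra.mul_mem _ (Subalgebra.mul_mem _ (inv_mem_locAt hb)
          (Subalgebra.pow_mem _ hqim m)) (Subalgebra.pow_mem _ hqim n)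
      · field_simp
    rw [formOrd_eq h hL hO (inv_ne_zero hxq), hO.ord_inv hxq, hO.ord_mul hx hq, ox, oq]
    ring

end codim_one

end Pool.Agent.KltOpen
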