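import Pool.Agent.MP_ce0b4e_ag.Forms

universe u

open MvPolynomial KaehlerDifferential

namespace Pool.Agent.KltOpen

variable {k K : Type u} [Field k] [Field K] [Algebra k K]

/-- The localization of `S ⊆ K` at the prime ideal `p`, as a subalgebra of `K`. -/
def locAt (S : Subalgebra k K) (p : Ideal S) [p.IsPrime] : Subalgebra k K where
  carrier := {z | ∃ a b : S, b ∉ p ∧ z * b = a}
  mul_mem' := by
    rintro z w ⟨a, b, hb, h1⟩ ⟨c, d, hd, h2⟩
    refine ⟨a * c, b * d, fun h => ((Ideal.IsPrime.mem_or_mem ‹_› h).elim hb hd), ?_⟩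
    push_cast
    rw [← h1, ← h2]; ring
  one_mem' := ⟨1, 1, Ideal.one_notMem p, by simp⟩
  add_mem' := by
    rintro z w ⟨a, b, hb, h1⟩ ⟨c, d, hd, h2⟩
    refine ⟨a * d + c * b, b * d, fun h => ((Ideal.IsPrime.mem_or_mem ‹_› h).elim hb hd), ?_⟩
    push_cast
    rw [← h1, ← h2]; ring
  zero_mem' := ⟨0, 1, Ideal.one_notMem p, by simp⟩
  algebraMap_mem' := fun r => ⟨algebraMap k S r, 1, Ideal.one_notMem p, by simp⟩

section locAt

variable {S : Subalgebra k K} {p : Ideal S} [p.IsPrime]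

lemma mem_locAt {z : K} : z ∈ locAt S p ↔ ∃ a b : S, b ∉ p ∧ z * b = a := Iff.rfl

lemma ne_zero_of_notMem {b : S} (hb : b ∉ p) : (b : K) ≠ 0 := by
  intro h
  apply hb
  have : b = 0 := Subtype.ext h
  rw [this]; exact p.zero_mem

lemma le_locAt : S ≤ locAt S p := fun a ha => ⟨⟨a, ha⟩, 1, Ideal.one_notMem p, by simp⟩

lemma inv_mem_locAt {b : S} (hb : b ∉ p) : (b : K)⁻¹ ∈ locAt S p :=
  ⟨1, b, hb, by simp [ne_zero_of_notMem hb]⟩

lemma div_mem_locAt (a : S) {b : S} (hb : b ∉ p) : (a : K) / (b : K) ∈ locAt S p :=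
  ⟨a, b, hb, by field_simp [ne_zero_of_notMem hb]⟩

lemma mem_locAt_iff_div {z : K} : z ∈ locAt S p ↔ ∃ a b : S, b ∉ p ∧ z = a / b := by
  constructor
  · rintro ⟨a, b, hb, h⟩
    exact ⟨a, b, hb, by rw [← h]; field_simp [ne_zero_of_notMem hb]⟩
  · rintro ⟨a, b, hb, rfl⟩
    exact div_mem_locAt a hb

lemma inv_mem_locAt_iff {a : S} (ha : (a : K) ≠ 0) : (a : K)⁻¹ ∈ locAt S p ↔ a ∉ p := by
  constructor
  · rintro ⟨c, b, hb, h⟩ hap
    apply hb
    have : b = a * c := by
      apply Subtype.ext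
      push_cast
      rw [← h]; field_simp
    rw [this]
    exact p.mul_mem_right _ hap
  · exact inv_mem_locAt

end locAt

/-- The ideal of elements of `S` that are not units of the discrete valuation ring `O`. -/
noncomputable def cen {O : Subalgebra k K} {ϖ : K} (hO : DV O ϖ) {S : Subalgebra k K}
    (hS : S ≤ O) : Ideal S :=
  letI := hO.dvr
  (IsLocalRing.maximalIdeal O).comap (Subalgebra.inclusion hS)

section cen

variable {O : Subalgebra k K} {ϖ : K} (hO : DV O ϖ) {S : Subalgebra k K} (hS : S ≤ O)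

instance : (cen hO hS).IsPrime := by
  letI := hO.dvr
  exact Ideal.IsPrime.comap _

lemma mem_cen {a : S} : a ∈ cen hO hS ↔ ((a : K) ≠ 0 → 0 < ord O (a : K)) := by
  let _ := hO.dvr
  rw [cen, Ideal.mem_comap, IsLocalRing.mem_maximalIdeal, mem_nonunits_iff]
  constructor
  · intro h ha
    rw [hO.ord_pos_iff ha]
    exact ⟨hS a.2, fun h1 => h (DV.isUnit_of (hS a.2) h1 ha)⟩
  · intro h hu
    have ha : (a : K) ≠ 0 := by
      intro h0
      apply hu.ne_zero
      exact Subtype.ext h0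
    have := h ha
    rw [hO.ord_pos_iff ha] at this
    exact this.2 (DV.coe_isUnit hu)

lemma notMem_cen {a : S} : a ∉ cen hO hS ↔ ((a : K) ≠ 0 ∧ ord O (a : K) = 0) := by
  rw [mem_cen]
  push Not
  constructor
  · rintro ⟨h1, h2⟩
    exact ⟨h1, le_antisymm h2 (hO.ord_nonneg h1 (hS a.2))⟩
  · rintro ⟨h1, h2⟩
    exact ⟨h1, h2.le⟩

lemma locAt_cen_le : locAt S (cen hO hS) ≤ O := by
  intro z hz
  obtain ⟨a, b, hb, rfl⟩ := mem_locAt_iff_div.1 hz
  rw [notMem_cen] at hb
  rw [div_eq_mul_inv]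
  exact O.mul_mem (hS a.2) ((hO.unit_iff hb.1).2 hb.2).2

lemma dominates_locAt_cen : Dominates (locAt S (cen hO hS)) O := by
  refine ⟨locAt_cen_le hO hS, ?_⟩
  intro z hz hzi
  obtain ⟨a, b, hb, rfl⟩ := mem_locAt_iff_div.1 hz
  by_cases ha : (a : K) = 0
  · rw [ha]; simp
  rw [inv_div]
  apply div_mem_locAt
  rw [notMem_cen]
  refine ⟨ha, ?_⟩
  rw [notMem_cen] at hb
  apply (hO.unit_iff ha).1
  refine ⟨hS a.2, ?_⟩
  have : (a : K)⁻¹ = ((a : K) / b)⁻¹ * (b : K)⁻¹ := by
    have := hb.1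
    field_simp
  rw [this]
  exact O.mul_mem hzi ((hO.unit_iff hb.1).2 hb.2).2

/-- If `O` is a localization of `P` and `P` is contained in the localization of `S` at the centre
of `O`, then this localization is `O`. -/
lemma locAt_cen_eq {P : Subalgebra k K}
    (hP : ∀ z ∈ O, ∃ a ∈ P, ∃ b ∈ P, b ≠ 0 ∧ b⁻¹ ∈ O ∧ z = a / b)
    (hle : P ≤ locAt S (cen hO hS)) : locAt S (cen hO hS) = O := by
  apply le_antisymm (locAt_cen_le hO hS)
  intro z hz
  obtain ⟨a, ha, b, hb, hb0, hbi, rfl⟩ := hP z hz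
  rw [div_eq_mul_inv]
  refine Subalgebra.mul_mem _ (hle ha) ?_
  exact (dominates_locAt_cen hO hS).2 b (hle hb) hbi

end cen

/-- Localization of `S` at a prime element. -/
lemma dv_locAt {S : Subalgebra k K} [IsFractionRing S K] [WfDvdMonoid S] {π : S} (hπ : Prime π)
    [(Ideal.span {π}).IsPrime] : DV (locAt S (Ideal.span {π})) (π : K) where
  mem := le_locAt π.2
  ne := fun h => hπ.ne_zero (Subtype.ext h)
  inv_notMem := by
    have hne : (π : K) ≠ 0 := fun h => hπ.ne_zero (Subtype.ext h)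
    rw [inv_mem_locAt_iff hne]
    exact fun h => h (Ideal.mem_span_singleton_self π)
  fac := by
    intro z hz
    have hne : (π : K) ≠ 0 := fun h => hπ.ne_zero (Subtype.ext h)
    obtain ⟨a, b, hb, rfl⟩ := IsFractionRing.div_surjective (A := S) z
    have hb0 : b ≠ 0 := nonZeroDivisors.ne_zero hb
    have ha0 : a ≠ 0 := by
      rintro rfl
      simp at hz
    obtain ⟨n, a', ha', rfl⟩ := WfDvdMonoid.max_power_factor ha0 hπ.irreducible
    obtain ⟨m, b', hb', rfl⟩ := WfDvdMonoid.max_power_factor hb0 hπ.irreducible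
    have ha'' : a' ∉ Ideal.span {π} := by rwa [Ideal.mem_span_singleton]
    have hb'' : b' ∉ Ideal.span {π} := by rwa [Ideal.mem_span_singleton]
    have e : ∀ x : S, algebraMap S K x = (x : K) := fun _ => rfl
    refine ⟨(n : ℤ) - m, (a' : K) / (b' : K), div_mem_locAt a' hb'', ?_, ?_⟩
    · rw [inv_div]; exact div_mem_locAt b' ha''
    · rw [e, e, zpow_sub₀ hne, zpow_natCast, zpow_natCast]
      push_cast
      have := ne_zero_of_notMem hb''
      field_simp

end Pool.Agent.KltOpen
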