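import Pool.Agent.MP_ce0b4e_ag.SRing

universe u

open MvPolynomial KaehlerDifferential

namespace Pool.Agent.KltOpen

variable {k K : Type u} [Field k] [Field K] [Algebra k K]

/-- Change of coordinates for `dv₀ ∧ dv₁ ∧ dv₂`. -/
lemma wedge_change {v w : Fin 3 → K} (h : Coord k w) (M : Matrix (Fin 3) (Fin 3) K)
    (hM : ∀ i, D k K (v i) = ∑ j, M i j • D k K (w j)) : wedge k v = M.det • wedge k w := by
  rw [wedge, h.ιMulti_eq]
  congr 1
  rw [Module.Basis.det_apply, ← Matrix.det_transpose]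
  congr 1
  ext i j
  rw [Matrix.transpose_apply, Module.Basis.toMatrix_apply, hM]
  simp only [← h.basis_apply]
  rw [map_sum]
  simp [Finsupp.finsetSum_apply, Finsupp.single_apply]

variable {x y q : K}

section wedges

variable (h : Coord k ![x, y, q])
include h

lemma wedge_V : wedge k ![x, y, q] = (y ^ 2) • wedge k ![x / y ^ 2, y, q] := by
  have hy := h.ne_y
  rw [wedge_change h.toV !![y ^ 2, 2 * (x / y ^ 2) * y, 0; 0, 1, 0; 0, 0, 1]]
  · congr 1
    simp [Matrix.det_fin_three]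
  · intro i
    fin_cases i
    · have e : x = (x / y ^ 2) * y ^ 2 := by field_simp
      change D k K x = _
      conv_lhs => rw [e, Derivation.leibniz, Derivation.leibniz_pow]
      simp [Fin.sum_univ_three]
      module
    · simp [Fin.sum_univ_three]
    · simp [Fin.sum_univ_three]

lemma wedge_1 : wedge k ![x, y, q] = (q⁻¹ ^ 2) • wedge k ![x * q ^ 4, q⁻¹, y] := by
  have hq := h.ne_q
  rw [wedge_change h.to1 !![q⁻¹ ^ 4, 4 * (x * q ^ 4) * q⁻¹ ^ 3, 0; 0, 0, 1; 0, - q ^ 2, 0]]
  · congr 1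
    simp [Matrix.det_fin_three]
    field_simp
  · intro i
    fin_cases i
    · have e : x = (x * q ^ 4) * q⁻¹ ^ 4 := by field_simp
      change D k K x = _
      conv_lhs => rw [e, Derivation.leibniz, Derivation.leibniz_pow]
      simp [Fin.sum_univ_three]
      module
    · simp [Fin.sum_univ_three]
    · have e : q = (q⁻¹)⁻¹ := by simp
      change D k K q = _
      conv_lhs => rw [e, Derivation.leibniz_inv]
      simp [Fin.sum_univ_three]

lemma wedge_2 (c : k) : wedge k ![x, y, q] =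
    (- q ^ 4) • wedge k ![ff x y c * q⁻¹ ^ 4, q, y] := by
  have hq := h.ne_q
  rw [wedge_change (h.to2 c) !![q ^ 4, 4 * (ff x y c * q⁻¹ ^ 4) * q ^ 3,
    2 * algebraMap k K c * y; 0, 0, 1; 0, 1, 0]]
  · congr 1
    simp [Matrix.det_fin_three]
  · intro i
    fin_cases i
    · have e : x = (ff x y c * q⁻¹ ^ 4) * q ^ 4 + algebraMap k K c * y ^ 2 := by
        unfold ff
        field_simp
        ring
      change D k K x = _
      have e1 : D k K x = D k K ((ff x y c * q⁻¹ ^ 4) * q ^ 4) + D k K (algebraMap k K c * y ^ 2) := by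
        rw [← map_add, ← e]
      rw [e1]
      generalize ff x y c * q⁻¹ ^ 4 = w
      rw [Derivation.leibniz, Derivation.leibniz_pow, Derivation.leibniz,
        Derivation.leibniz_pow, Derivation.map_algebraMap]
      simp [Fin.sum_univ_three]
      module
    · simp [Fin.sum_univ_three]
    · simp [Fin.sum_univ_three]

lemma formOrd_V {a : K} (ha : a ≠ 0) :
    formOrd 3 h.toV.Oc (a • wedge k ![x, y, q]) = ord h.toV.Oc a + 2 := by
  have hy2 := pow_ne_zero 2 h.ne_y
  rw [wedge_V h, smul_smul, formOrd_eq h.toV h.toV.isLoc h.toV.dv (mul_ne_zero ha hy2),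
    h.toV.dv.ord_mul ha hy2, h.toV.dv.ord_pow h.ne_y, ordV_y h]
  simp

lemma formOrd_1 {a : K} (ha : a ≠ 0) :
    formOrd 3 h.to1.Oc (a • wedge k ![x, y, q]) = ord h.to1.Oc a + 2 := by
  have hqi := inv_ne_zero h.ne_q
  have hq2 := pow_ne_zero 2 hqi
  rw [wedge_1 h, smul_smul, formOrd_eq h.to1 h.to1.isLoc h.to1.dv (mul_ne_zero ha hq2),
    h.to1.dv.ord_mul ha hq2, h.to1.dv.ord_pow hqi, h.to1.dv.ord_inv h.ne_q, ord1_q h]
  simp

lemma formOrd_2 (c : k) {a : K} (ha : a ≠ 0) :
    formOrd 3 (h.to2 c).Oc (a • wedge k ![x, y, q]) = ord (h.to2 c).Oc a + 4 := by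
  have hq4 := pow_ne_zero 4 h.ne_q
  have hq4' := neg_ne_zero.2 hq4
  rw [wedge_2 h c, smul_smul, formOrd_eq (h.to2 c) (h.to2 c).isLoc (h.to2 c).dv
    (mul_ne_zero ha hq4'), (h.to2 c).dv.ord_mul ha hq4', (h.to2 c).dv.ord_neg hq4,
    (h.to2 c).dv.ord_pow h.ne_q, ord2_q h]
  simp

end wedges

lemma cring_le_of {S : Subalgebra k K} (hx : x ∈ S) (hy : y ∈ S) (hq : q ∈ S) :
    cring k ![x, y, q] ≤ S := by
  rw [cring_eq_adjoin, Algebra.adjoin_le_iff]
  rintro _ ⟨i, rfl⟩
  fin_cases i
  · exact hx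
  · exact hy
  · exact hq

section points

variable (h : Coord k ![x, y, q]) (c : k)

lemma locAt_1 : locAt (SR k x y q c) (cen h.to1.dv (SR_le_1 h c)) = h.to1.Oc := by
  have hq := h.ne_q
  refine locAt_cen_eq h.to1.dv (SR_le_1 h c) h.to1.isLoc.frac ?_
  refine cring_le_of (le_locAt (SR_x4 x y q c)) ?_ (le_locAt (SR_y x y q c))
  have hnot : (⟨x * q ^ 4, SR_x4 x y q c⟩ : SR k x y q c) ∉ cen h.to1.dv (SR_le_1 h c) := by
    rw [notMem_cen]
    exact ⟨h.to1.ne_zero 0, h.to1.ord_v0⟩
  have := div_mem_locAt (⟨x * q ^ 3, SR_x3 x y q c⟩ : SR k x y q c) hnot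
  have e : x * q ^ 3 / (x * q ^ 4) = q⁻¹ := by
    have := h.ne_x
    field_simp
  rwa [e] at this

lemma locAt_2 : locAt (SR k x y q c) (cen (h.to2 c).dv (SR_le_2 h c)) = (h.to2 c).Oc := by
  have hq := h.ne_q
  refine locAt_cen_eq (h.to2 c).dv (SR_le_2 h c) (h.to2 c).isLoc.frac ?_
  refine cring_le_of (le_locAt (SR_f4 x y q c)) ?_ (le_locAt (SR_y x y q c))
  have hnot : (⟨ff x y c * q⁻¹ ^ 4, SR_f4 x y q c⟩ : SR k x y q c) ∉
      cen (h.to2 c).dv (SR_le_2 h c) := by
    rw [notMem_cen]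
    exact ⟨(h.to2 c).ne_zero 0, (h.to2 c).ord_v0⟩
  have := div_mem_locAt (⟨ff x y c * q⁻¹ ^ 3, SR_f3 x y q c⟩ : SR k x y q c) hnot
  have e : ff x y c * q⁻¹ ^ 3 / (ff x y c * q⁻¹ ^ 4) = q := by
    have := h.ne_f c
    field_simp
  rwa [e] at this

lemma locAt_gen {O : Subalgebra k K} {ϖ : K} (hO : DV O ϖ) (hL : IsLoc ![x, y, q] O)
    (hS : SR k x y q c ≤ O) (hq0 : ord O q = 0) (hxf : ord O x = 0 ∨ ord O (ff x y c) = 0)
    (h : Coord k ![x, y, q]) : locAt (SR k x y q c) (cen hO hS) = O := by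
  have hq := h.ne_q
  have hx := h.ne_x
  have hf := h.ne_f c
  refine locAt_cen_eq hO hS hL.frac ?_
  refine cring_le_of (le_locAt (SR_x x y q c)) (le_locAt (SR_y x y q c)) ?_
  rcases hxf with hx0 | hf0
  · have hnot : (⟨x, SR_x x y q c⟩ : SR k x y q c) ∉ cen hO hS := by
      rw [notMem_cen]
      exact ⟨hx, hx0⟩
    have := div_mem_locAt (⟨x * q, SR_x1 x y q c⟩ : SR k x y q c) hnot
    have e : x * q / x = q := by field_simp
    rwa [e] at this
  · have hqi := inv_ne_zero hq
    have hnot : (⟨ff x y c * q⁻¹, SR_f1 x y q c⟩ : SR k x y q c) ∉ cen hO hS := by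
      rw [notMem_cen]
      refine ⟨mul_ne_zero hf hqi, ?_⟩
      change ord O (ff x y c * q⁻¹) = 0
      rw [hO.ord_mul hf hqi, hO.ord_inv hq, hf0, hq0]; rfl
    have := div_mem_locAt (⟨ff x y c, SR_f x y q c⟩ : SR k x y q c) hnot
    have e : ff x y c / (ff x y c * q⁻¹) = q := by field_simp
    rwa [e] at this

end points

lemma AL_mul_pow_mem {g : K} (hq : q ≠ 0) (hg : g ∈ AL k x y q) :
    ∃ n : ℕ, g * q ^ n ∈ cring k ![x, y, q] := by
  have hx : x ∈ cring k ![x, y, q] := coord_mem_cring ![x, y, q] 0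
  have hy : y ∈ cring k ![x, y, q] := coord_mem_cring ![x, y, q] 1
  have hq' : q ∈ cring k ![x, y, q] := coord_mem_cring ![x, y, q] 2
  rw [AL] at hg
  induction hg using Algebra.adjoin_induction with
  | mem z hz =>
    rcases hz with rfl | rfl | rfl | rfl
    · exact ⟨0, by simpa using hx⟩
    · exact ⟨0, by simpa using hy⟩
    · exact ⟨0, by simpa using hq'⟩
    · exact ⟨1, by simp [hq]⟩
  | algebraMap r => exact ⟨0, by simp⟩
  | add u w _ _ hu hw =>
    obtain ⟨n, hn⟩ := hu
    obtain ⟨m, hm⟩ := hw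
    refine ⟨n + m, ?_⟩
    have : (u + w) * q ^ (n + m) = u * q ^ n * q ^ m + w * q ^ m * q ^ n := by
      rw [pow_add]; ring
    rw [this]
    exact Subalgebra.add_mem _ (Subalgebra.mul_mem _ hn (Subalgebra.pow_mem _ hq' m))
      (Subalgebra.mul_mem _ hm (Subalgebra.pow_mem _ hq' n))
  | mul u w _ _ hu hw =>
    obtain ⟨n, hn⟩ := hu
    obtain ⟨m, hm⟩ := hw
    refine ⟨n + m, ?_⟩
    have : (u * w) * q ^ (n + m) = (u * q ^ n) * (w * q ^ m) := by
      rw [pow_add]; ring
    rw [this]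
    exact Subalgebra.mul_mem _ hn hm

/-- The linear combination of orders used below. -/
noncomputable def phi (h : Coord k ![x, y, q]) (c : k) (z : K) : ℤ :=
  2 * ord h.toV.Oc z - ord h.to1.Oc z - ord (h.to2 c).Oc z

section phi

variable (h : Coord k ![x, y, q]) (c : k)

lemma phi_mul {a b : K} (ha : a ≠ 0) (hb : b ≠ 0) : phi h c (a * b) = phi h c a + phi h c b := by
  unfold phi
  rw [h.toV.dv.ord_mul ha hb, h.to1.dv.ord_mul ha hb, (h.to2 c).dv.ord_mul ha hb]
  ring

lemma phi_q : phi h c q = 0 := by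
  unfold phi
  rw [ordV_q h, ord1_q h, ord2_q h]; ring

lemma phi_one : phi h c 1 = 0 := by
  have := phi_mul h c (a := 1) (b := 1) one_ne_zero one_ne_zero
  rw [mul_one] at this
  omega

lemma phi_nonneg [CharZero k] {c : k} (hc : c ≠ 0) {z : K} (hz : z ∈ cring k ![x, y, q])
    (h0 : z ≠ 0) : 0 ≤ phi h c z := by
  have := main_ineq h hc (cring_le_AL hz) h0
  unfold phi
  omega

lemma phi_pow {a : K} (ha : a ≠ 0) (n : ℕ) : phi h c (a ^ n) = n * phi h c a := by
  induction n with
  | zero => simp [phi_one]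
  | succ n ih =>
    rw [pow_succ, phi_mul h c (pow_ne_zero n ha) ha, ih]
    push_cast; ring

end phi

open Classical in
/-- For `c ≠ 0` the fibre is not of klt type. -/
theorem not_hasKltBoundary [CharZero k] (h : Coord k ![x, y, q]) {c : k} (hc : c ≠ 0) :
    ¬ HasKltBoundary 3 (fun p : PrimeSpectrum (SR k x y q c) => locAt _ p.asIdeal)
      (fun p => ringKrullDim (locAt (SR k x y q c) p.asIdeal) = 1) := by
  rintro ⟨η, B, hη, hB, -, -, hloc⟩
  have hx := h.ne_x
  have hy := h.ne_y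
  have hq := h.ne_q
  have hf := h.ne_f c
  obtain ⟨a, rfl⟩ := h.exists_smul η
  have ha : a ≠ 0 := by
    rintro rfl
    exact hη (zero_smul _ _)
  let o : PrimeSpectrum (SR k x y q c) := ⟨cen h.toV.dv (SR_le_V h c), inferInstance⟩
  obtain ⟨U, hU, hoU, m, r, F, hF, h1, h2⟩ := hloc o
  obtain ⟨_, ⟨g, rfl⟩, hog, hgU⟩ :=
    PrimeSpectrum.isTopologicalBasis_basic_opens.exists_subset_of_mem_open hoU hU
  have hgo : g ∉ cen h.toV.dv (SR_le_V h c) := hog
  rw [notMem_cen] at hgo
  obtain ⟨hg0, hgV⟩ := hgo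
  have hmemU : ∀ p : PrimeSpectrum (SR k x y q c), g ∉ p.asIdeal → p ∈ U := fun p hp => hgU hp
  -- discrepancy along the exceptional divisor
  have hVineq := h2 h.toV.Oc h.toV.isPrimeDivisorRing
    ⟨o, hoU, dominates_locAt_cen h.toV.dv (SR_le_V h c)⟩
  rw [formOrd_V h ha] at hVineq
  -- the general consequence of effectivity of `B`
  have hpoint : ∀ {O : Subalgebra k K} {ϖ : K} (hO : DV O ϖ) (hS : SR k x y q c ≤ O),
      locAt (SR k x y q c) (cen hO hS) = O → ord O (g : K) = 0 →
      (formOrd 3 O (a • wedge k ![x, y, q]) : ℝ) ≤ ∑ i, r i * (ord O (F i) : ℝ) := by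
    intro O ϖ hO hS heq hgO
    have hp : g ∉ cen hO hS := by
      rw [notMem_cen]; exact ⟨hg0, hgO⟩
    have := h1 ⟨cen hO hS, inferInstance⟩ (hmemU _ hp) (by
      change ringKrullDim (locAt (SR k x y q c) (cen hO hS)) = 1
      rw [heq]
      have := hO.dvr
      exact IsDiscreteValuationRing.ringKrullDim_eq_one _)
    have hBp := hB ⟨cen hO hS, inferInstance⟩
    simp only [heq] at this
    linarith [this, hBp]
  have hg1 := ord1_of_ordV h c g.2 hg0 hgV
  have hg2 := ord2_of_ordV h c g.2 hg0 hgV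
  have hI1 := hpoint h.to1.dv (SR_le_1 h c) (locAt_1 h c) hg1
  have hI2 := hpoint (h.to2 c).dv (SR_le_2 h c) (locAt_2 h c) hg2
  rw [formOrd_1 h ha] at hI1
  rw [formOrd_2 h c ha] at hI2
  -- the factorial ring
  have hufd := h.ufd
  have hfrac := h.isFractionRing
  have hgAL : (g : K) ∈ AL k x y q := SR_le_AL c g.2
  obtain ⟨N, hN⟩ := AL_mul_pow_mem hq hgAL
  have hphig : phi h c ((g : K) * q ^ N) = 0 := by
    rw [phi_mul h c hg0 (pow_ne_zero N hq), phi_pow h c hq, phi_q]
    unfold phi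
    rw [hgV, hg1, hg2]; ring
  have hxC : x ∈ cring k ![x, y, q] := coord_mem_cring ![x, y, q] 0
  have hyC : y ∈ cring k ![x, y, q] := coord_mem_cring ![x, y, q] 1
  have hqC : q ∈ cring k ![x, y, q] := coord_mem_cring ![x, y, q] 2
  have key := ufd_ineq (R := cring k ![x, y, q]) (K := K) (phi h c)
    (fun a b ha hb => phi_mul h c ha hb)
    (by
      intro u hu
      obtain ⟨w, hw⟩ := hu.exists_right_inv
      have hw' : (u : K) * (w : K) = 1 := by exact_mod_cast congrArg Subtype.val hw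
      have hu0 : (u : K) ≠ 0 := left_ne_zero_of_mul_eq_one hw'
      have hw0 : (w : K) ≠ 0 := right_ne_zero_of_mul_eq_one hw'
      have e1 := phi_nonneg h hc u.2 hu0
      have e2 := phi_nonneg h hc w.2 hw0
      have e3 := phi_mul h c hu0 hw0
      rw [hw', phi_one] at e3
      change phi h c (u : K) = 0
      omega)
    (ι := Option (Fin m)) (fun i => i.elim (-1) r) (fun i => i.elim a F)
    (by
      rintro (_ | i)
      · exact ha
      · exact hF i)
    (by
      intro π hπ
      have hπ0 : (π : K) ≠ 0 := fun h0 => hπ.ne_zero (Subtype.ext h0)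
      have hnn := phi_nonneg h hc π.2 hπ0
      refine ⟨hnn, ?_⟩
      by_cases hΦ : phi h c (π : K) = 0
      · exact Or.inl hΦ
      right
      have hprime : (Ideal.span {π}).IsPrime := by
        rw [Ideal.span_singleton_prime hπ.ne_zero]; exact hπ
      set O := locAt (cring k ![x, y, q]) (Ideal.span {π}) with hO
      have hdv : DV O (π : K) := dv_locAt hπ
      have hisL : IsLoc ![x, y, q] O := by
        refine ⟨le_locAt, ?_⟩
        intro z hz
        obtain ⟨s, t, ht, rfl⟩ := mem_locAt_iff_div.1 hz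
        exact ⟨s, s.2, t, t.2, ne_zero_of_notMem ht, inv_mem_locAt ht, rfl⟩
      have hzero : ∀ s : cring k ![x, y, q], ¬ π ∣ s → ord O (s : K) = 0 := by
        intro s hs
        have hs' : s ∉ Ideal.span {π} := by rwa [Ideal.mem_span_singleton]
        have hs0 := ne_zero_of_notMem hs'
        exact hdv.ord_unit hs0 (le_locAt s.2) (inv_mem_locAt hs')
      have hdvd : ∀ s : cring k ![x, y, q], ord O (s : K) ≠ 0 → π ∣ s := by
        intro s hs
        by_contra hcon
        exact hs (hzero s hcon)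
      -- `π` divides an element with trivial `phi`: impossible
      have himp : ∀ s : cring k ![x, y, q], (s : K) ≠ 0 → phi h c (s : K) = 0 → ¬ π ∣ s := by
        rintro s hs0 hs ⟨t, rfl⟩
        have ht0 : (t : K) ≠ 0 := by
          intro h0
          apply hs0
          change (π : K) * (t : K) = 0
          rw [h0, mul_zero]
        have e1 := phi_nonneg h hc t.2 ht0
        have e2 := phi_mul h c hπ0 ht0
        have e3 : phi h c ((π : K) * (t : K)) = 0 := hs
        apply hΦ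
        omega
      have hq0 : ord O q = 0 := hzero ⟨q, hqC⟩ (himp ⟨q, hqC⟩ hq (phi_q h c))
      have hqO : q⁻¹ ∈ O := ((hdv.unit_iff hq).2 hq0).2
      have hALO : AL k x y q ≤ O := by
        rw [AL, Algebra.adjoin_le_iff]
        rintro z (rfl | rfl | rfl | rfl)
        · exact le_locAt hxC
        · exact le_locAt hyC
        · exact le_locAt hqC
        · exact hqO
      have hSO : SR k x y q c ≤ O := (SR_le_AL c).trans hALO
      have hxf : ord O x = 0 ∨ ord O (ff x y c) = 0 := by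
        by_contra hcon
        push Not at hcon
        obtain ⟨hx1, hf1⟩ := hcon
        have hfC : ff x y c ∈ cring k ![x, y, q] :=
          Subalgebra.sub_mem _ hxC (Subalgebra.mul_mem _ (Subalgebra.algebraMap_mem _ c)
            (Subalgebra.pow_mem _ hyC 2))
        have d1 : π ∣ ⟨x, hxC⟩ := hdvd ⟨x, hxC⟩ hx1
        have d2 : π ∣ ⟨ff x y c, hfC⟩ := hdvd ⟨ff x y c, hfC⟩ hf1
        have d3 : π ∣ (⟨y, hyC⟩ : cring k ![x, y, q]) ^ 2 := by
          have e : (⟨y, hyC⟩ : cring k ![x, y, q]) ^ 2 =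
              algebraMap k _ c⁻¹ * (⟨x, hxC⟩ - ⟨ff x y c, hfC⟩) := by
            apply Subtype.ext
            change y ^ 2 = algebraMap k K c⁻¹ * (x - ff x y c)
            have hne : algebraMap k K c ≠ 0 := by simpa using hc
            unfold ff
            rw [map_inv₀]
            field_simp
            ring
          rw [e]
          exact Dvd.dvd.mul_left (dvd_sub d1 d2) _
        have d4 : π ∣ ⟨y, hyC⟩ := hπ.dvd_of_dvd_pow d3
        -- transfer to the polynomial ring
        have t0 : (⟨x, hxC⟩ : cring k ![x, y, q]) = h.equiv (X 0) := by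
          apply Subtype.ext
          rw [h.equiv_apply, aeval_X]; rfl
        have t1 : (⟨y, hyC⟩ : cring k ![x, y, q]) = h.equiv (X 1) := by
          apply Subtype.ext
          rw [h.equiv_apply, aeval_X]; rfl
        have p0 : Prime (⟨x, hxC⟩ : cring k ![x, y, q]) := by
          rw [t0]
          exact (MulEquiv.prime_iff h.equiv.toMulEquiv).2 MvPolynomial.X_prime
        have p1 : Prime (⟨y, hyC⟩ : cring k ![x, y, q]) := by
          rw [t1]
          exact (MulEquiv.prime_iff h.equiv.toMulEquiv).2 MvPolynomial.X_prime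
        have a0 := hπ.associated_of_dvd p0 d1
        have a1 := hπ.associated_of_dvd p1 d4
        have a2 : (⟨x, hxC⟩ : cring k ![x, y, q]) ∣ ⟨y, hyC⟩ := (a0.symm.trans a1).dvd
        rw [t0, t1, map_dvd_iff, MvPolynomial.X_dvd_X] at a2
        exact absurd a2 (by decide)
      have hgO : ord O (g : K) = 0 := by
        have hGq : ord O ((g : K) * q ^ N) = 0 :=
          hzero ⟨_, hN⟩ (himp ⟨_, hN⟩ (mul_ne_zero hg0 (pow_ne_zero N hq)) hphig)
        rw [hdv.ord_mul hg0 (pow_ne_zero N hq), hdv.ord_pow hq, hq0] at hGq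
        simpa using hGq
      refine ⟨ord O, fun a b ha hb => hdv.ord_mul ha hb, hdv.ord_unif, fun s hs => hzero s hs, ?_⟩
      have hI := hpoint hdv hSO (locAt_gen c hdv hisL hSO hq0 hxf h) hgO
      rw [formOrd_eq h hisL hdv ha] at hI
      rw [Fintype.sum_option]
      simp only [Option.elim_none, Option.elim_some]
      linarith)
  rw [Fintype.sum_option] at key
  simp only [Option.elim_none, Option.elim_some] at key
  unfold phi at key
  push_cast at key
  have hs : ∑ i, r i * (2 * (ord h.toV.Oc (F i) : ℝ) - (ord h.to1.Oc (F i) : ℝ) -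
      (ord (h.to2 c).Oc (F i) : ℝ)) = 2 * ∑ i, r i * (ord h.toV.Oc (F i) : ℝ) -
      ∑ i, r i * (ord h.to1.Oc (F i) : ℝ) - ∑ i, r i * (ord (h.to2 c).Oc (F i) : ℝ) := by
    rw [Finset.mul_sum, ← Finset.sum_sub_distrib, ← Finset.sum_sub_distrib]
    exact Finset.sum_congr rfl fun i _ => by ring
  rw [hs] at key
  push_cast at hVineq hI1 hI2
  linarith

end Pool.Agent.KltOpen
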