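import Pool.Agent.MP_ce0b4e_ag.Defs

universe u

namespace Pool.Agent.KltOpen

variable {k K : Type u} [Field k] [Field K] [Algebra k K]

/-- Working form of `O is a discrete valuation ring of K with uniformizer ϖ`. -/
structure DV (O : Subalgebra k K) (ϖ : K) : Prop where
  mem : ϖ ∈ O
  ne : ϖ ≠ 0
  inv_notMem : ϖ⁻¹ ∉ O
  fac : ∀ z : K, z ≠ 0 → ∃ (n : ℤ) (u : K), u ∈ O ∧ u⁻¹ ∈ O ∧ z = u * ϖ ^ n

namespace DV

variable {O : Subalgebra k K} {ϖ : K}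

lemma pow_mem (h : DV O ϖ) (n : ℕ) : ϖ ^ (n : ℤ) ∈ O := by
  rw [zpow_natCast]; exact O.pow_mem h.mem n

lemma zpow_mem (h : DV O ϖ) {n : ℤ} (hn : 0 ≤ n) : ϖ ^ n ∈ O := by
  obtain ⟨m, rfl⟩ := Int.eq_ofNat_of_zero_le hn
  exact h.pow_mem m

lemma zpow_notMem (h : DV O ϖ) {n : ℤ} (hn : n < 0) : ϖ ^ n ∉ O := by
  intro hmem
  apply h.inv_notMem
  have : ϖ⁻¹ = ϖ ^ n * ϖ ^ (-n - 1) := by
    rw [← zpow_add₀ h.ne]
    have : n + (-n - 1) = -1 := by ring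
    rw [this, zpow_neg_one]
  rw [this]
  exact O.mul_mem hmem (h.zpow_mem (by omega))

lemma unit_eq (h : DV O ϖ) {u : K} {n : ℤ} (hu : u ∈ O) (hu' : u⁻¹ ∈ O) (hu0 : u ≠ 0) {v : K}
    (hv : v ∈ O) (hv' : v⁻¹ ∈ O) (heq : u = v * ϖ ^ n) : n = 0 := by
  have hv0 : v ≠ 0 := by
    rintro rfl
    apply hu0
    rw [heq, zero_mul]
  have h1 : ϖ ^ n = v⁻¹ * u := by
    rw [heq]; field_simp
  have h2 : ϖ ^ (-n) = u⁻¹ * v := by
    rw [zpow_neg, h1]; field_simp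
  have h1' : ϖ ^ n ∈ O := h1 ▸ O.mul_mem hv' hu
  have h2' : ϖ ^ (-n) ∈ O := h2 ▸ O.mul_mem hu' hv
  rcases lt_trichotomy n 0 with hn | hn | hn
  · exact absurd h1' (h.zpow_notMem hn)
  · exact hn
  · exact absurd h2' (h.zpow_notMem (by omega))

lemma coe_isUnit {u : O} (hu : IsUnit u) : (u : K)⁻¹ ∈ O := by
  obtain ⟨v, hv⟩ := hu.exists_right_inv
  have hv' : (u : K) * (v : K) = 1 := by exact_mod_cast congrArg (Subtype.val) hv
  have : (u : K)⁻¹ = v := by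
    have hu0 : (u : K) ≠ 0 := by
      intro h0
      rw [h0, zero_mul] at hv'
      exact zero_ne_one hv'
    field_simp
    exact hv'.symm
  rw [this]
  exact v.2

lemma isUnit_of {u : K} (hu : u ∈ O) (hu' : u⁻¹ ∈ O) (h0 : u ≠ 0) : IsUnit (⟨u, hu⟩ : O) := by
  refine IsUnit.of_mul_eq_one ⟨u⁻¹, hu'⟩ ?_
  apply Subtype.ext
  simp [h0]

lemma notUnit (h : DV O ϖ) : ¬ IsUnit (⟨ϖ, h.mem⟩ : O) := fun hu => h.inv_notMem (coe_isUnit hu)

lemma mem_fac (h : DV O ϖ) {z : K} (hz : z ∈ O) (hz0 : z ≠ 0) :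
    ∃ (n : ℕ) (u : K), u ∈ O ∧ u⁻¹ ∈ O ∧ z = u * ϖ ^ n := by
  obtain ⟨n, u, hu, hu', rfl⟩ := h.fac z hz0
  have hu0 : u ≠ 0 := by rintro rfl; simp at hz0
  have hn : 0 ≤ n := by
    by_contra hn
    push Not at hn
    apply h.zpow_notMem hn
    have : ϖ ^ n = u⁻¹ * (u * ϖ ^ n) := by field_simp
    rw [this]
    exact O.mul_mem hu' hz
  obtain ⟨m, rfl⟩ := Int.eq_ofNat_of_zero_le hn
  exact ⟨m, u, hu, hu', by simp⟩

lemma irreducible (h : DV O ϖ) : Irreducible (⟨ϖ, h.mem⟩ : O) := by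
  refine ⟨h.notUnit, ?_⟩
  intro a b hab
  have hab' : ϖ = (a : K) * (b : K) := congrArg Subtype.val hab
  have ha0 : (a : K) ≠ 0 := by intro h0; apply h.ne; rw [hab', h0, zero_mul]
  have hb0 : (b : K) ≠ 0 := by intro h0; apply h.ne; rw [hab', h0, mul_zero]
  obtain ⟨n, u, hu, hu', hau⟩ := h.mem_fac a.2 ha0
  obtain ⟨m, v, hv, hv', hbv⟩ := h.mem_fac b.2 hb0
  have hu0 : u ≠ 0 := by rintro rfl; simp at hau; exact ha0 (by simpa using hau)
  have hv0 : v ≠ 0 := by rintro rfl; simp at hbv; exact hb0 (by simpa using hbv)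
  have key : (1 : K) = (u * v) * ϖ ^ ((n : ℤ) + m - 1) := by
    have hne := h.ne
    rw [zpow_sub₀ hne, zpow_add₀ hne, zpow_natCast, zpow_natCast, zpow_one]
    field_simp
    rw [hau, hbv] at hab'
    calc ϖ = u * ϖ ^ n * (v * ϖ ^ m) := hab'
      _ = _ := by ring
  have := h.unit_eq (u := 1) O.one_mem (by simp) one_ne_zero
    (O.mul_mem hu hv) (by rw [mul_inv]; exact O.mul_mem hu' hv') key
  have hnm : n = 0 ∨ m = 0 := by omega
  rcases hnm with rfl | rfl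
  · left
    have : (a : K) = u := by simpa using hau
    have h2 : a = ⟨u, hu⟩ := Subtype.ext this
    rw [h2]
    exact isUnit_of hu hu' hu0
  · right
    have : (b : K) = v := by simpa using hbv
    have h2 : b = ⟨v, hv⟩ := Subtype.ext this
    rw [h2]
    exact isUnit_of hv hv' hv0

lemma dvr (h : DV O ϖ) : IsDiscreteValuationRing O := by
  apply IsDiscreteValuationRing.ofHasUnitMulPowIrreducibleFactorization
  refine ⟨⟨ϖ, h.mem⟩, h.irreducible, ?_⟩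
  intro x hx
  have hx0 : (x : K) ≠ 0 := fun h0 => hx (Subtype.ext h0)
  obtain ⟨n, u, hu, hu', hxu⟩ := h.mem_fac x.2 hx0
  have hu0 : u ≠ 0 := by rintro rfl; apply hx0; rw [hxu, zero_mul]
  refine ⟨n, ?_⟩
  obtain ⟨w, hw⟩ := isUnit_of hu hu' hu0
  refine ⟨w, ?_⟩
  apply Subtype.ext
  rw [hw]
  simp only [MulMemClass.coe_mul, SubmonoidClass.coe_pow]
  rw [hxu, mul_comm]

lemma mem_or_inv_mem (h : DV O ϖ) (z : K) : z ∈ O ∨ z⁻¹ ∈ O := by
  by_cases hz : z = 0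
  · left; rw [hz]; exact O.zero_mem
  obtain ⟨n, u, hu, hu', rfl⟩ := h.fac z hz
  rcases le_total 0 n with hn | hn
  · left; exact O.mul_mem hu (h.zpow_mem hn)
  · right
    rw [mul_inv, ← zpow_neg]
    exact O.mul_mem hu' (h.zpow_mem (by omega))

lemma frac (h : DV O ϖ) : IsFractionRing O K := by
  refine IsFractionRing.of_field O K ?_
  intro z
  rcases h.mem_or_inv_mem z with hz | hz
  · refine ⟨⟨z, hz⟩, 1, ?_⟩
    have h1 : algebraMap O K ⟨z, hz⟩ = z := rfl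
    rw [h1, map_one, div_one]
  · refine ⟨1, ⟨z⁻¹, hz⟩, ?_⟩
    have h1 : algebraMap O K ⟨z⁻¹, hz⟩ = z⁻¹ := rfl
    rw [h1, map_one, one_div, inv_inv]

end DV

lemma DV.of_irreducible {O : Subalgebra k K} [IsDiscreteValuationRing O] [IsFractionRing O K]
    {ϖ : O} (hϖ : Irreducible ϖ) : DV O (ϖ : K) where
  mem := ϖ.2
  ne := fun h0 => hϖ.ne_zero (Subtype.ext h0)
  inv_notMem := fun h => hϖ.not_isUnit (DV.isUnit_of ϖ.2 h
    (fun h0 => hϖ.ne_zero (Subtype.ext h0)))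
  fac := by
    intro z hz
    have hϖ0 : (ϖ : K) ≠ 0 := fun h0 => hϖ.ne_zero (Subtype.ext h0)
    obtain ⟨a, b, hb, rfl⟩ := IsFractionRing.div_surjective (A := O) z
    have hb0 : b ≠ 0 := nonZeroDivisors.ne_zero hb
    have ha0 : a ≠ 0 := by
      rintro rfl
      simp at hz
    obtain ⟨n, u, hu⟩ := IsDiscreteValuationRing.eq_unit_mul_pow_irreducible ha0 hϖ
    obtain ⟨m, v, hv⟩ := IsDiscreteValuationRing.eq_unit_mul_pow_irreducible hb0 hϖ
    refine ⟨(n : ℤ) - m, ((u : O) : K) * ((v : O) : K)⁻¹, ?_, ?_, ?_⟩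
    · exact O.mul_mem (u : O).2 (DV.coe_isUnit v.isUnit)
    · rw [mul_inv, inv_inv]
      exact O.mul_mem (DV.coe_isUnit u.isUnit) (v : O).2
    · have e1 : (algebraMap O K) a = ((u : O) : K) * (ϖ : K) ^ n := by
        rw [hu]; rfl
      have e2 : (algebraMap O K) b = ((v : O) : K) * (ϖ : K) ^ m := by
        rw [hv]; rfl
      rw [e1, e2, zpow_sub₀ hϖ0, zpow_natCast, zpow_natCast]
      have hv0 : ((v : O) : K) ≠ 0 := by
        intro h0
        exact v.isUnit.ne_zero (Subtype.ext h0)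
      field_simp

lemma IsPrimeDivisorRing.exists_dv {O : Subalgebra k K} (h : IsPrimeDivisorRing O) :
    ∃ ϖ, DV O ϖ := by
  have := h.dvr
  have := h.frac
  obtain ⟨ϖ, hϖ⟩ := IsDiscreteValuationRing.exists_irreducible O
  exact ⟨ϖ, DV.of_irreducible hϖ⟩

namespace DV

variable {O : Subalgebra k K} {ϖ : K}

lemma isOrd_iff (h : DV O ϖ) {f : K} {n : ℤ} :
    IsOrd O f n ↔ ∃ u : K, u ≠ 0 ∧ u ∈ O ∧ u⁻¹ ∈ O ∧ f = u * ϖ ^ n := by
  have := h.dvr
  constructor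
  · rintro ⟨ϖ', u, hϖ', hf⟩
    obtain ⟨w, hw⟩ := IsDiscreteValuationRing.associated_of_irreducible O h.irreducible hϖ'
    have hw' : (ϖ' : K) = ϖ * ((w : O) : K) := by rw [← hw]; rfl
    have hu0 : ((u : O) : K) ≠ 0 := fun h0 => u.isUnit.ne_zero (Subtype.ext h0)
    have hw0 : ((w : O) : K) ≠ 0 := fun h0 => w.isUnit.ne_zero (Subtype.ext h0)
    have hwn : ∀ n : ℤ, ((w : O) : K) ^ n ∈ O := by
      intro n
      rcases Int.le_total 0 n with hn | hn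
      · obtain ⟨m, rfl⟩ := Int.eq_ofNat_of_zero_le hn
        rw [zpow_natCast]; exact O.pow_mem (w : O).2 m
      · obtain ⟨m, hm⟩ := Int.eq_ofNat_of_zero_le (Int.neg_nonneg.mpr hn)
        have : n = -(m : ℤ) := by omega
        rw [this, zpow_neg, zpow_natCast, ← inv_pow]
        exact O.pow_mem (DV.coe_isUnit w.isUnit) m
    refine ⟨((u : O) : K) * ((w : O) : K) ^ n, mul_ne_zero hu0 (zpow_ne_zero _ hw0), ?_, ?_, ?_⟩
    · exact O.mul_mem (u : O).2 (hwn n)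
    · rw [mul_inv, ← zpow_neg]
      exact O.mul_mem (DV.coe_isUnit u.isUnit) (hwn (-n))
    · rw [hf, hw', mul_zpow]; ring
  · rintro ⟨u, hu0, hu, hu', hf⟩
    obtain ⟨w, hw⟩ := DV.isUnit_of hu hu' hu0
    refine ⟨⟨ϖ, h.mem⟩, w, h.irreducible, ?_⟩
    rw [hw, hf]

lemma ord_eq (h : DV O ϖ) {u : K} (hu0 : u ≠ 0) (hu : u ∈ O) (hu' : u⁻¹ ∈ O) (n : ℤ) :
    ord O (u * ϖ ^ n) = n := by
  have hex : ∃ m, IsOrd O (u * ϖ ^ n) m := ⟨n, h.isOrd_iff.2 ⟨u, hu0, hu, hu', rfl⟩⟩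
  have hs := hex.choose_spec
  have hd : ord O (u * ϖ ^ n) = hex.choose := dif_pos hex
  rw [hd]
  obtain ⟨v, hv0, hv, hv', he⟩ := h.isOrd_iff.1 hs
  set m := hex.choose
  have : u = v * ϖ ^ (m - n) := by
    rw [zpow_sub₀ h.ne]
    have := zpow_ne_zero n h.ne
    field_simp
    exact he
  have := h.unit_eq hu hu' hu0 hv hv' this
  omega

lemma exists_ord (h : DV O ϖ) {z : K} (hz : z ≠ 0) :
    ∃ u : K, u ≠ 0 ∧ u ∈ O ∧ u⁻¹ ∈ O ∧ z = u * ϖ ^ (ord O z) := by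
  obtain ⟨n, u, hu, hu', rfl⟩ := h.fac z hz
  have hu0 : u ≠ 0 := by rintro rfl; simp at hz
  exact ⟨u, hu0, hu, hu', by rw [h.ord_eq hu0 hu hu']⟩

lemma ord_mul (h : DV O ϖ) {a b : K} (ha : a ≠ 0) (hb : b ≠ 0) :
    ord O (a * b) = ord O a + ord O b := by
  obtain ⟨u, hu0, hu, hu', hau⟩ := h.exists_ord ha
  obtain ⟨v, hv0, hv, hv', hbv⟩ := h.exists_ord hb
  have : a * b = (u * v) * ϖ ^ (ord O a + ord O b) := by
    rw [zpow_add₀ h.ne]
    conv_lhs => rw [hau, hbv]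
    ring
  rw [this, h.ord_eq (mul_ne_zero hu0 hv0) (O.mul_mem hu hv)
    (by rw [mul_inv]; exact O.mul_mem hu' hv')]

lemma ord_unit (h : DV O ϖ) {u : K} (hu0 : u ≠ 0) (hu : u ∈ O) (hu' : u⁻¹ ∈ O) :
    ord O u = 0 := by
  have := h.ord_eq hu0 hu hu' 0
  simpa using this

lemma ord_one (h : DV O ϖ) : ord O (1 : K) = 0 :=
  h.ord_unit one_ne_zero O.one_mem (by simp)

lemma ord_unif (h : DV O ϖ) : ord O ϖ = 1 := by
  have := h.ord_eq one_ne_zero O.one_mem (by simp) 1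
  simpa using this

lemma ord_neg_one (h : DV O ϖ) : ord O (-1 : K) = 0 :=
  h.ord_unit (neg_ne_zero.2 one_ne_zero) (O.neg_mem O.one_mem)
    (by rw [inv_neg, inv_one]; exact O.neg_mem O.one_mem)

lemma ord_neg (h : DV O ϖ) {a : K} (ha : a ≠ 0) : ord O (-a) = ord O a := by
  rw [neg_eq_neg_one_mul, h.ord_mul (neg_ne_zero.2 one_ne_zero) ha, h.ord_neg_one, zero_add]

lemma ord_inv (h : DV O ϖ) {a : K} (ha : a ≠ 0) : ord O a⁻¹ = - ord O a := by
  have := h.ord_mul ha (inv_ne_zero ha)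
  rw [mul_inv_cancel₀ ha, h.ord_one] at this
  omega

lemma ord_div (h : DV O ϖ) {a b : K} (ha : a ≠ 0) (hb : b ≠ 0) :
    ord O (a / b) = ord O a - ord O b := by
  rw [div_eq_mul_inv, h.ord_mul ha (inv_ne_zero hb), h.ord_inv hb]; ring

lemma ord_pow (h : DV O ϖ) {a : K} (ha : a ≠ 0) (n : ℕ) : ord O (a ^ n) = n * ord O a := by
  induction n with
  | zero => simp [h.ord_one]
  | succ n ih => rw [pow_succ, h.ord_mul (pow_ne_zero n ha) ha, ih]; push_cast; ring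

lemma ord_zpow (h : DV O ϖ) {a : K} (ha : a ≠ 0) (n : ℤ) : ord O (a ^ n) = n * ord O a := by
  obtain ⟨m, rfl | rfl⟩ := n.eq_nat_or_neg
  · rw [zpow_natCast, h.ord_pow ha]
  · rw [zpow_neg, h.ord_inv (zpow_ne_zero _ ha), zpow_natCast, h.ord_pow ha]; ring

lemma mem_iff (h : DV O ϖ) {z : K} (hz : z ≠ 0) : z ∈ O ↔ 0 ≤ ord O z := by
  obtain ⟨u, hu0, hu, hu', hzu⟩ := h.exists_ord hz
  constructor
  · intro hm
    by_contra hn
    push Not at hn
    apply h.zpow_notMem hn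
    have : ϖ ^ ord O z = u⁻¹ * z := by
      conv_rhs => rw [hzu]
      field_simp
    rw [this]
    exact O.mul_mem hu' hm
  · intro hn
    rw [hzu]
    exact O.mul_mem hu (h.zpow_mem hn)

lemma unit_iff (h : DV O ϖ) {z : K} (hz : z ≠ 0) : (z ∈ O ∧ z⁻¹ ∈ O) ↔ ord O z = 0 := by
  rw [h.mem_iff hz, h.mem_iff (inv_ne_zero hz), h.ord_inv hz]
  omega

lemma ord_nonneg (h : DV O ϖ) {z : K} (hz : z ≠ 0) (hm : z ∈ O) : 0 ≤ ord O z :=
  (h.mem_iff hz).1 hm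

lemma le_ord_iff (h : DV O ϖ) {z : K} (hz : z ≠ 0) {n : ℤ} :
    n ≤ ord O z ↔ z * ϖ ^ (-n) ∈ O := by
  rw [h.mem_iff (mul_ne_zero hz (zpow_ne_zero _ h.ne)), h.ord_mul hz (zpow_ne_zero _ h.ne),
    h.ord_zpow h.ne, h.ord_unif]
  omega

lemma le_ord_add (h : DV O ϖ) {a b : K} (hab : a + b ≠ 0) {n : ℤ} (ha : a ≠ 0 → n ≤ ord O a)
    (hb : b ≠ 0 → n ≤ ord O b) : n ≤ ord O (a + b) := by
  rw [h.le_ord_iff hab, add_mul]
  apply O.add_mem
  · by_cases ha0 : a = 0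
    · rw [ha0, zero_mul]; exact O.zero_mem
    · exact (h.le_ord_iff ha0).1 (ha ha0)
  · by_cases hb0 : b = 0
    · rw [hb0, zero_mul]; exact O.zero_mem
    · exact (h.le_ord_iff hb0).1 (hb hb0)

lemma ord_add_eq (h : DV O ϖ) {a b : K} (ha : a ≠ 0) (hb : b ≠ 0 → ord O a < ord O b) :
    a + b ≠ 0 ∧ ord O (a + b) = ord O a := by
  by_cases hb0 : b = 0
  · subst hb0; simp [ha]
  have hlt := hb hb0
  have hab : a + b ≠ 0 := by
    intro h0
    have : b = -a := by linear_combination h0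
    rw [this, h.ord_neg ha] at hlt
    omega
  refine ⟨hab, ?_⟩
  apply le_antisymm
  · by_contra hc
    push Not at hc
    have h1 : ord O a + 1 ≤ ord O ((a + b) + (-b)) := by
      apply h.le_ord_add
      · simpa using ha
      · intro _; omega
      · intro _
        rw [h.ord_neg hb0]
        omega
    have h2 : (a + b) + (-b) = a := by ring
    rw [h2] at h1
    omega
  · exact h.le_ord_add hab (fun _ => le_rfl) (fun _ => hlt.le)

/-- Two descriptions by uniformizers give the same order. -/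
lemma ord_pos_iff (h : DV O ϖ) {z : K} (hz : z ≠ 0) : 0 < ord O z ↔ (z ∈ O ∧ z⁻¹ ∉ O) := by
  rw [h.mem_iff hz, h.mem_iff (inv_ne_zero hz), h.ord_inv hz]
  omega

end DV

end Pool.Agent.KltOpen
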