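import Pool.Agent.MP_ce0b4e_ag.Setup

universe u

open MvPolynomial KaehlerDifferential

namespace Pool.Agent.KltOpen

variable {k K : Type u} [Field k] [Field K] [Algebra k K]
variable {x y q : K} (h : Coord k ![x, y, q])

variable (k) in
/-- The subalgebra `k[x,y,q,q⁻¹]`. -/
def AL (x y q : K) : Subalgebra k K := Algebra.adjoin k {x, y, q, q⁻¹}

include h in
lemma AL_rep {z : K} (hz : z ∈ AL k x y q) : ∃ a : ℤ →₀ K, (∀ d, a d ∈ A2 k x y) ∧
    z = a.sum (fun d t => t * q ^ d) := by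
  have hq := h.ne_q
  have h1 : z ∈ Submodule.span k (Submonoid.closure {x, y, q, q⁻¹} : Set K) := by
    rw [← Algebra.adjoin_eq_span]; exact hz
  induction h1 using Submodule.span_induction with
  | mem z hzc =>
    have : ∃ t ∈ A2 k x y, ∃ d : ℤ, z = t * q ^ d := by
      clear * - hzc hq
      induction hzc using Submonoid.closure_induction with
      | mem z hz' =>
        rcases hz' with rfl | rfl | rfl | rfl
        · exact ⟨_, left_mem_A2 _ _, 0, by simp⟩
        · exact ⟨_, right_mem_A2 _ _, 0, by simp⟩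
        · exact ⟨1, Subalgebra.one_mem _, 1, by simp⟩
        · exact ⟨1, Subalgebra.one_mem _, -1, by simp⟩
      | one => exact ⟨1, Subalgebra.one_mem _, 0, by simp⟩
      | mul a b _ _ ha hb =>
        obtain ⟨s, hs, d, rfl⟩ := ha
        obtain ⟨t, ht, e, rfl⟩ := hb
        exact ⟨s * t, Subalgebra.mul_mem _ hs ht, d + e, by rw [zpow_add₀ hq]; ring⟩
    obtain ⟨t, ht, d, rfl⟩ := this
    refine ⟨Finsupp.single d t, ?_, ?_⟩
    · intro e
      rw [Finsupp.single_apply]
      split_ifs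
      · exact ht
      · exact Subalgebra.zero_mem _
    · rw [Finsupp.sum_single_index]; simp
  | zero => exact ⟨0, fun d => by simp, by simp⟩
  | add u w hu' hw' hu hw =>
    have hu2 : u ∈ AL k x y q := by
      have := hu'
      rw [← Algebra.adjoin_eq_span] at this; exact this
    have hw2 : w ∈ AL k x y q := by
      have := hw'
      rw [← Algebra.adjoin_eq_span] at this; exact this
    obtain ⟨a, ha, rfl⟩ := hu hu2
    obtain ⟨b, hb, rfl⟩ := hw hw2
    refine ⟨a + b, fun d => Subalgebra.add_mem _ (ha d) (hb d), ?_⟩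
    rw [Finsupp.sum_add_index']
    · intro d; simp
    · intro d s t; ring
  | smul c u hu' hu =>
    have hu2 : u ∈ AL k x y q := by
      have := hu'
      rw [← Algebra.adjoin_eq_span] at this; exact this
    obtain ⟨a, ha, rfl⟩ := hu hu2
    refine ⟨c • a, fun d => by rw [Finsupp.smul_apply]; exact Subalgebra.smul_mem _ (ha d) c, ?_⟩
    rw [Finsupp.sum_smul_index', Finsupp.smul_sum]
    · simp
    · intro d; simp

lemma cring_le_AL : cring k ![x, y, q] ≤ AL k x y q := by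
  rw [cring_eq_adjoin, AL]
  apply Algebra.adjoin_mono
  rintro _ ⟨i, rfl⟩
  fin_cases i
  · change x ∈ ({x, y, q, q⁻¹} : Set K); simp
  · change y ∈ ({x, y, q, q⁻¹} : Set K); simp
  · change q ∈ ({x, y, q, q⁻¹} : Set K); simp

lemma A2_le {a b : K} {S : Subalgebra k K} (ha : a ∈ S) (hb : b ∈ S) : A2 k a b ≤ S := by
  rw [A2, Algebra.adjoin_le_iff]
  rintro z (rfl | rfl)
  · exact ha
  · exact hb

include h

lemma A2_le_V : A2 k x y ≤ h.toV.Oc :=
  A2_le ((h.toV.dv.mem_iff h.ne_x).2 (by rw [ordV_x h]; norm_num))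
    ((h.toV.dv.mem_iff h.ne_y).2 (by rw [ordV_y h]; norm_num))

lemma A2_le_1 : A2 k x y ≤ h.to1.Oc :=
  A2_le ((h.to1.dv.mem_iff h.ne_x).2 (by rw [ord1_x h]; norm_num))
    ((h.to1.dv.mem_iff h.ne_y).2 (by rw [ord1_y h]))

lemma A2_le_2 (c : k) : A2 k x y ≤ (h.to2 c).Oc := by
  rw [← A2_ff x y c]
  exact A2_le (((h.to2 c).dv.mem_iff (h.ne_f c)).2 (by rw [ord2_f h]; norm_num))
    (((h.to2 c).dv.mem_iff h.ne_y).2 (by rw [ord2_y h]))

lemma A2_ineq {c : k} (hc : c ≠ 0) {z : K} (hz : z ∈ A2 k x y) (h0 : z ≠ 0) :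
    ord h.to1.Oc z + ord (h.to2 c).Oc z ≤ 2 * ord h.toV.Oc z := by
  obtain ⟨j, g, t, ht, hg, hz1⟩ := A2_decomp hz h0
  set z' := Polynomial.aeval y g + x * t with hz'
  have hz'0 : z' ≠ 0 := by
    intro h1
    apply h0
    rw [hz1, h1, mul_zero]
  have hyA : Polynomial.aeval y g ∈ A2 k x y :=
    Algebra.adjoin_mono (by simp) (Polynomial.aeval_mem_adjoin_singleton k y)
  have hz'A : z' ∈ A2 k x y :=
    Subalgebra.add_mem _ hyA (Subalgebra.mul_mem _ (left_mem_A2 _ _) ht)
  have hz'A' : z' ∈ A2 k (ff x y c) y := by rw [A2_ff]; exact hz'A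
  obtain ⟨l, g', t', ht', hg', hz2⟩ := A2_decomp hz'A' hz'0
  set z'' := Polynomial.aeval y g' + ff x y c * t' with hz''
  have hz''0 : z'' ≠ 0 := by
    intro h1
    apply hz'0
    rw [hz2, h1, mul_zero]
  rw [A2_ff] at ht'
  have hyA' : Polynomial.aeval y g' ∈ A2 k x y :=
    Algebra.adjoin_mono (by simp) (Polynomial.aeval_mem_adjoin_singleton k y)
  have hfA : ff x y c ∈ A2 k x y := by rw [← A2_ff x y c]; exact left_mem_A2 _ _
  have hz''A : z'' ∈ A2 k x y := Subalgebra.add_mem _ hyA' (Subalgebra.mul_mem _ hfA ht')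
  have hx := h.ne_x
  have hf := h.ne_f c
  -- order along the first divisor
  have o1 : ord h.to1.Oc z' = 0 := by
    have e0 : ord h.to1.Oc (Polynomial.aeval y g) = 0 := h.to1.ord_poly_v2 hg
    rw [hz', (h.to1.dv.ord_add_eq hg _).2, e0]
    intro hxt
    have ht0 : t ≠ 0 := fun h1 => hxt (by rw [h1, mul_zero])
    have := h.to1.dv.ord_nonneg ht0 (A2_le_1 h ht)
    rw [e0, h.to1.dv.ord_mul hx ht0, ord1_x h]
    omega
  have o2 : ord (h.to2 c).Oc z'' = 0 := by
    have e0 : ord (h.to2 c).Oc (Polynomial.aeval y g') = 0 := (h.to2 c).ord_poly_v2 hg'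
    rw [hz'', ((h.to2 c).dv.ord_add_eq hg' _).2, e0]
    intro hxt
    have ht0 : t' ≠ 0 := fun h1 => hxt (by rw [h1, mul_zero])
    have := (h.to2 c).dv.ord_nonneg ht0 (A2_le_2 h c ht')
    rw [e0, (h.to2 c).dv.ord_mul hf ht0, ord2_f h]
    omega
  have e1 : ord h.to1.Oc z = 4 * j := by
    rw [hz1, h.to1.dv.ord_mul (pow_ne_zero j hx) hz'0, h.to1.dv.ord_pow hx, ord1_x h, o1]
    ring
  have e2 : ord (h.to2 c).Oc z = 4 * l := by
    rw [hz1, (h.to2 c).dv.ord_mul (pow_ne_zero j hx) hz'0, (h.to2 c).dv.ord_pow hx,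
      ord2_x h hc, hz2, (h.to2 c).dv.ord_mul (pow_ne_zero l hf) hz''0,
      (h.to2 c).dv.ord_pow hf, ord2_f h, o2]
    ring
  have e3 : ord h.toV.Oc z = 2 * j + l * ord h.toV.Oc (ff x y c) + ord h.toV.Oc z'' := by
    rw [hz1, h.toV.dv.ord_mul (pow_ne_zero j hx) hz'0, h.toV.dv.ord_pow hx,
      ordV_x h, hz2, h.toV.dv.ord_mul (pow_ne_zero l hf) hz''0, h.toV.dv.ord_pow hf]
    ring
  have h1 := ordV_f h c
  have h2 := h.toV.dv.ord_nonneg hz''0 (A2_le_V h hz''A)
  have h3 : (l : ℤ) * 2 ≤ l * ord h.toV.Oc (ff x y c) :=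
    mul_le_mul_of_nonneg_left h1 (by positivity)
  rw [e1, e2, e3]
  omega

lemma theta_A2 {z : K} (hz : z ∈ A2 k x y) : h.theta z = 0 := by
  rw [A2] at hz
  induction hz using Algebra.adjoin_induction with
  | mem z hz =>
    rcases hz with rfl | rfl
    · have := h.theta_v 0
      simpa using this
    · have := h.theta_v 1
      simpa using this
  | algebraMap r => exact Derivation.map_algebraMap _ r
  | add u w _ _ hu hw => rw [map_add, hu, hw, add_zero]
  | mul u w _ _ hu hw => rw [Derivation.leibniz, hu, hw, smul_zero, smul_zero, add_zero]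

lemma theta_q : h.theta q = q := by
  have := h.theta_v 2
  simpa using this

lemma theta_comp {a : K} (ha : a ∈ A2 k x y) (d : ℤ) : h.theta (a * q ^ d) = (d : K) * (a * q ^ d) := by
  have hq := h.ne_q
  rw [Derivation.leibniz, theta_A2 h ha, Derivation.leibniz_zpow, theta_q h]
  simp only [smul_eq_mul, zsmul_eq_mul, mul_zero, add_zero]
  have : q ^ (d - 1) * q = q ^ d := by
    rw [← zpow_add_one₀ hq]; congr 1; ring
  linear_combination (a * (d : K)) * this

lemma homog_1 : Coord.Homog h.theta ![x * q ^ 4, q⁻¹, y] := by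
  intro i
  fin_cases i
  · refine ⟨4, ?_⟩
    have := theta_comp h (left_mem_A2 x y) 4
    exact_mod_cast this
  · refine ⟨-1, ?_⟩
    have := theta_comp h (Subalgebra.one_mem (A2 k x y)) (-1)
    simpa using this
  · refine ⟨0, ?_⟩
    have := theta_A2 h (right_mem_A2 x y)
    simpa using this

lemma homog_2 (c : k) : Coord.Homog h.theta ![ff x y c * (q⁻¹) ^ 4, q, y] := by
  intro i
  have hfA : ff x y c ∈ A2 k x y := by rw [← A2_ff x y c]; exact left_mem_A2 _ _
  fin_cases i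
  · refine ⟨-4, ?_⟩
    have := theta_comp h hfA (-4)
    have e : q ^ (-4 : ℤ) = (q⁻¹) ^ 4 := by
      rw [zpow_neg, inv_pow]; norm_cast
    rw [e] at this
    exact this
  · refine ⟨1, ?_⟩
    have := theta_q h
    simpa using this
  · refine ⟨0, ?_⟩
    have := theta_A2 h (right_mem_A2 x y)
    simpa using this

/-- Components of an element of `k[x,y,q,q⁻¹]` along the first divisor. -/
lemma le_comp_1 [CharZero k] {a : ℤ →₀ K} (ha : ∀ d, a d ∈ A2 k x y) {e : ℤ}
    (hF : a.sum (fun d t => t * q ^ d) ∈ h.to1.filt e) {d : ℤ} (hd : a d ≠ 0) :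
    e ≤ ord h.to1.Oc (a d) - d := by
  have hq := h.ne_q
  have := h.to1.le_ord_component (homog_1 h) a.support (fun d => a d * q ^ d)
    (fun d _ => theta_comp h (ha d) d) (e := e) hF (d := d) (Finsupp.mem_support_iff.2 hd)
    (mul_ne_zero hd (zpow_ne_zero _ hq))
  rw [h.to1.dv.ord_mul hd (zpow_ne_zero _ hq), h.to1.dv.ord_zpow hq, ord1_q h] at this
  omega

lemma le_comp_2 [CharZero k] (c : k) {a : ℤ →₀ K} (ha : ∀ d, a d ∈ A2 k x y) {e : ℤ}
    (hF : a.sum (fun d t => t * q ^ d) ∈ (h.to2 c).filt e) {d : ℤ} (hd : a d ≠ 0) :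
    e ≤ ord (h.to2 c).Oc (a d) + d := by
  have hq := h.ne_q
  have := (h.to2 c).le_ord_component (homog_2 h c) a.support (fun d => a d * q ^ d)
    (fun d _ => theta_comp h (ha d) d) (e := e) hF (d := d) (Finsupp.mem_support_iff.2 hd)
    (mul_ne_zero hd (zpow_ne_zero _ hq))
  rw [(h.to2 c).dv.ord_mul hd (zpow_ne_zero _ hq), (h.to2 c).dv.ord_zpow hq, ord2_q h] at this
  omega

/-- The main inequality between the three orders on `k[x,y,q,q⁻¹]`. -/
lemma main_ineq [CharZero k] {c : k} (hc : c ≠ 0) {z : K} (hz : z ∈ AL k x y q) (h0 : z ≠ 0) :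
    ord h.to1.Oc z + ord (h.to2 c).Oc z ≤ 2 * ord h.toV.Oc z := by
  have hq := h.ne_q
  obtain ⟨a, ha, hza⟩ := AL_rep h hz
  -- a component of minimal order along `V`
  have hex : ∃ d, a d ≠ 0 ∧ ord h.toV.Oc (a d) ≤ ord h.toV.Oc z := by
    by_contra hcon
    push Not at hcon
    have : z ∈ h.toV.filt (ord h.toV.Oc z + 1) := by
      have key : a.sum (fun d t => t * q ^ d) ∈ h.toV.filt (ord h.toV.Oc z + 1) := by
        refine Submodule.sum_mem _ fun d hd => ?_
        have hd0 : a d ≠ 0 := Finsupp.mem_support_iff.1 hd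
        rw [h.toV.mem_filt_iff (mul_ne_zero hd0 (zpow_ne_zero _ hq)),
          h.toV.dv.ord_mul hd0 (zpow_ne_zero _ hq), h.toV.dv.ord_zpow hq, ordV_q h]
        have := hcon d hd0
        omega
      rwa [← hza] at key
    rw [h.toV.mem_filt_iff h0] at this
    omega
  obtain ⟨d, hd0, hd⟩ := hex
  have h1 := le_comp_1 h ha (e := ord h.to1.Oc z) (by
    rw [← hza, h.to1.mem_filt_iff h0]) hd0
  have h2 := le_comp_2 h c ha (e := ord (h.to2 c).Oc z) (by
    rw [← hza, (h.to2 c).mem_filt_iff h0]) hd0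
  have h3 := A2_ineq h hc (ha d) hd0
  omega

end Pool.Agent.KltOpen
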