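import Mathlib

namespace Pool.Agent.KltOpen

/-- Auxiliary form of `ufd_ineq` for elements of the ring. -/
lemma ufd_ineq_aux {R K : Type*} [CommRing R] [IsDomain R] [UniqueFactorizationMonoid R]
    [Field K] [Algebra R K] [IsFractionRing R K] (Φ : K → ℤ)
    (hΦ : ∀ a b : K, a ≠ 0 → b ≠ 0 → Φ (a * b) = Φ a + Φ b)
    (hu : ∀ u : R, IsUnit u → Φ (algebraMap R K u) = 0) {ι : Type*} [Fintype ι] (r : ι → ℝ) :
    ∀ (A : R) (a : ι → R), ∏ i, a i = A → (∀ i, a i ≠ 0) →
    (∀ π : R, Prime π → 0 ≤ Φ (algebraMap R K π) ∧ (Φ (algebraMap R K π) = 0 ∨ ∃ ψ : K → ℤ,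
      (∀ a b : K, a ≠ 0 → b ≠ 0 → ψ (a * b) = ψ a + ψ b) ∧ ψ (algebraMap R K π) = 1 ∧
      (∀ a : R, ¬ π ∣ a → ψ (algebraMap R K a) = 0) ∧
      0 ≤ ∑ i, r i * (ψ (algebraMap R K (a i)) : ℝ))) →
    0 ≤ ∑ i, r i * (Φ (algebraMap R K (a i)) : ℝ) := by
  classical
  have hinj : Function.Injective (algebraMap R K) := IsFractionRing.injective R K
  have hne : ∀ a : R, a ≠ 0 → algebraMap R K a ≠ 0 := fun a ha => by
    rwa [ne_eq, map_eq_zero_iff _ hinj]
  have hpow : ∀ (ψ : K → ℤ), (∀ a b : K, a ≠ 0 → b ≠ 0 → ψ (a * b) = ψ a + ψ b) →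
      ∀ (p : R), p ≠ 0 → ∀ n : ℕ, ψ (algebraMap R K (p ^ n)) = n * ψ (algebraMap R K p) := by
    intro ψ hψ p hp n
    have h1 : ψ 1 = 0 := by
      have := hψ 1 1 one_ne_zero one_ne_zero
      simpa using this
    induction n with
    | zero => simp [h1]
    | succ n ih =>
      rw [pow_succ, map_mul, hψ _ _ (hne _ (pow_ne_zero n hp)) (hne _ hp), ih]
      push_cast; ring
  intro A
  induction A using WellFounded.induction (r := DvdNotUnit)
    (wellFounded_dvdNotUnit (α := R)) with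
  | _ A ih =>
    intro a hA ha hp
    by_cases hAu : IsUnit A
    · have hall : ∀ i, Φ (algebraMap R K (a i)) = 0 := by
        intro i
        apply hu
        rw [← hA] at hAu
        exact isUnit_of_dvd_unit (Finset.dvd_prod_of_mem a (Finset.mem_univ i)) hAu
      simp [hall]
    · have hA0 : A ≠ 0 := by
        rw [← hA]; exact Finset.prod_ne_zero_iff.2 fun i _ => ha i
      obtain ⟨π, hπi, hπA⟩ := WfDvdMonoid.exists_irreducible_factor hAu hA0
      have hπ : Prime π := UniqueFactorizationMonoid.irreducible_iff_prime.1 hπi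
      have hfac : ∀ i, ∃ (n : ℕ) (b : R), ¬ π ∣ b ∧ a i = π ^ n * b :=
        fun i => WfDvdMonoid.max_power_factor (ha i) hπi
      choose e b hb hab using hfac
      have hb0 : ∀ i, b i ≠ 0 := fun i h0 => hb i (h0 ▸ dvd_zero π)
      have hprod : A = π ^ (∑ i, e i) * ∏ i, b i := by
        rw [← hA, ← Finset.prod_pow_eq_pow_sum, ← Finset.prod_mul_distrib]
        exact Finset.prod_congr rfl fun i _ => hab i
      have hnd : ¬ π ∣ ∏ i, b i := by
        intro h
        obtain ⟨i, _, hi⟩ := hπ.exists_mem_finset_dvd h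
        exact hb i hi
      have hpos : ∑ i, e i ≠ 0 := by
        intro h0
        rw [h0, pow_zero, one_mul] at hprod
        exact hnd (hprod ▸ hπA)
      have hlt : DvdNotUnit (∏ i, b i) A := by
        refine ⟨Finset.prod_ne_zero_iff.2 fun i _ => hb0 i, π ^ (∑ i, e i), ?_, ?_⟩
        · rw [isUnit_pow_iff hpos]; exact hπ.not_unit
        · rw [hprod]; ring
      have hval : ∀ (ψ : K → ℤ), (∀ a b : K, a ≠ 0 → b ≠ 0 → ψ (a * b) = ψ a + ψ b) → ∀ i,
          ψ (algebraMap R K (a i)) = e i * ψ (algebraMap R K π) + ψ (algebraMap R K (b i)) := by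
        intro ψ hψ i
        rw [hab i, map_mul, hψ _ _ (hne _ (pow_ne_zero _ hπ.ne_zero)) (hne _ (hb0 i)),
          hpow ψ hψ π hπ.ne_zero]
      have hrec := ih (∏ i, b i) hlt b rfl hb0 (by
        intro π' hπ'
        obtain ⟨h1, h2⟩ := hp π' hπ'
        refine ⟨h1, ?_⟩
        rcases h2 with h2 | ⟨ψ, hψ, hψ1, hψ2, hψ3⟩
        · exact Or.inl h2
        · refine Or.inr ⟨ψ, hψ, hψ1, hψ2, ?_⟩
          by_cases hdvd : π' ∣ π
          · have hass : Associated π' π := hπ'.associated_of_dvd hπ hdvd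
            have : ∀ i, ψ (algebraMap R K (b i)) = 0 := by
              intro i
              apply hψ2
              intro h
              exact hb i (hass.dvd_iff_dvd_left.1 h)
            simp [this]
          · have h0 := hψ2 π hdvd
            have : ∀ i, ψ (algebraMap R K (a i)) = ψ (algebraMap R K (b i)) := by
              intro i
              rw [hval ψ hψ i, h0]; ring
            simpa [this] using hψ3)
      have hsum : ∑ i, r i * (Φ (algebraMap R K (a i)) : ℝ) =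
          (∑ i, r i * (e i : ℝ)) * (Φ (algebraMap R K π) : ℝ) +
            ∑ i, r i * (Φ (algebraMap R K (b i)) : ℝ) := by
        rw [Finset.sum_mul, ← Finset.sum_add_distrib]
        refine Finset.sum_congr rfl fun i _ => ?_
        rw [hval Φ hΦ i]; push_cast; ring
      rw [hsum]
      refine add_nonneg ?_ hrec
      obtain ⟨h1, h2⟩ := hp π hπ
      rcases h2 with h2 | ⟨ψ, hψ, hψ1, hψ2, hψ3⟩
      · rw [h2]; simp
      · refine mul_nonneg ?_ (by exact_mod_cast h1)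
        have : ∀ i, ψ (algebraMap R K (a i)) = e i := by
          intro i
          rw [hval ψ hψ i, hψ1, hψ2 _ (hb i)]; ring
        simpa [this] using hψ3

/-- Let `R` be a factorial domain with fraction field `K`, `Φ` a homomorphism `K^× → ℤ` trivial on
units of `R`, nonnegative at primes, and such that `∑ rᵢ ord_π(Fᵢ) ≥ 0` for each prime `π` with
`Φ(π) ≠ 0`. Then `∑ rᵢ Φ(Fᵢ) ≥ 0`. -/
lemma ufd_ineq {R K : Type*} [CommRing R] [IsDomain R] [UniqueFactorizationMonoid R]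
    [Field K] [Algebra R K] [IsFractionRing R K] (Φ : K → ℤ)
    (hΦ : ∀ a b : K, a ≠ 0 → b ≠ 0 → Φ (a * b) = Φ a + Φ b)
    (hu : ∀ u : R, IsUnit u → Φ (algebraMap R K u) = 0) {ι : Type*} [Fintype ι] (r : ι → ℝ)
    (F : ι → K) (hF : ∀ i, F i ≠ 0)
    (hp : ∀ π : R, Prime π → 0 ≤ Φ (algebraMap R K π) ∧ (Φ (algebraMap R K π) = 0 ∨
      ∃ ψ : K → ℤ, (∀ a b : K, a ≠ 0 → b ≠ 0 → ψ (a * b) = ψ a + ψ b) ∧
        ψ (algebraMap R K π) = 1 ∧ (∀ a : R, ¬ π ∣ a → ψ (algebraMap R K a) = 0) ∧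
        0 ≤ ∑ i, r i * (ψ (F i) : ℝ))) :
    0 ≤ ∑ i, r i * (Φ (F i) : ℝ) := by
  have hinj : Function.Injective (algebraMap R K) := IsFractionRing.injective R K
  have hne : ∀ a : R, a ≠ 0 → algebraMap R K a ≠ 0 := fun a ha => by
    rwa [ne_eq, map_eq_zero_iff _ hinj]
  have hfr : ∀ i, ∃ a b : R, a ≠ 0 ∧ b ≠ 0 ∧ F i = algebraMap R K a / algebraMap R K b := by
    intro i
    obtain ⟨a, b, hb, h⟩ := IsFractionRing.div_surjective (A := R) (F i)
    refine ⟨a, b, ?_, nonZeroDivisors.ne_zero hb, h.symm⟩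
    rintro rfl
    apply hF i
    rw [← h]; simp
  choose a b ha hb hab using hfr
  have hval : ∀ (ψ : K → ℤ), (∀ a b : K, a ≠ 0 → b ≠ 0 → ψ (a * b) = ψ a + ψ b) → ∀ i,
      ψ (F i) = ψ (algebraMap R K (a i)) - ψ (algebraMap R K (b i)) := by
    intro ψ hψ i
    have h1 : algebraMap R K (a i) = F i * algebraMap R K (b i) := by
      rw [hab i]
      have := hne _ (hb i)
      field_simp
    have h2 := hψ (F i) (algebraMap R K (b i)) (hF i) (hne _ (hb i))
    rw [← h1] at h2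
    omega
  have hsum : ∀ (ψ : K → ℤ), (∀ a b : K, a ≠ 0 → b ≠ 0 → ψ (a * b) = ψ a + ψ b) →
      ∑ i : ι ⊕ ι, (Sum.elim r (fun i => -r i) i) *
        (ψ (algebraMap R K (Sum.elim a b i)) : ℝ) = ∑ i, r i * (ψ (F i) : ℝ) := by
    intro ψ hψ
    rw [Fintype.sum_sum_type]
    simp only [Sum.elim_inl, Sum.elim_inr]
    rw [← Finset.sum_add_distrib]
    refine Finset.sum_congr rfl fun i _ => ?_
    rw [hval ψ hψ i]; push_cast; ring
  rw [← hsum Φ hΦ]
  apply ufd_ineq_aux Φ hΦ hu (Sum.elim r (fun i => -r i)) _ (Sum.elim a b) rfl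
  · rintro (i | i)
    · exact ha i
    · exact hb i
  · intro π hπ
    obtain ⟨h1, h2⟩ := hp π hπ
    refine ⟨h1, ?_⟩
    rcases h2 with h2 | ⟨ψ, hψ, hψ1, hψ2, hψ3⟩
    · exact Or.inl h2
    · exact Or.inr ⟨ψ, hψ, hψ1, hψ2, by rw [hsum ψ hψ]; exact hψ3⟩

end Pool.Agent.KltOpen
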