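import Pool.Agent.MP_ce0b4e_ag.Phi
import Pool.Agent.MP_ce0b4e_ag.Ufd

universe u

open MvPolynomial KaehlerDifferential

namespace Pool.Agent.KltOpen

variable {k K : Type u} [Field k] [Field K] [Algebra k K]

lemma Coord.mul_mem_filt {w : Fin 3 → K} (h : Coord k w) {a b : K} {e : ℤ} (ha : a ∈ h.Oc)
    (hb : b ∈ h.filt e) : a * b ∈ h.filt e := by
  rw [Coord.mem_filt] at hb ⊢
  rw [mul_assoc]
  exact Subalgebra.mul_mem _ ha hb

variable {x y q : K}

variable (k) in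
/-- The coordinate ring `k[x, y, x qⁱ, (x - c y²) q⁻ⁱ (1 ≤ i ≤ 4)]` of the fibre over `c`. -/
def SR (x y q : K) (c : k) : Subalgebra k K := Algebra.adjoin k
  {x, y, x * q, x * q ^ 2, x * q ^ 3, x * q ^ 4, ff x y c * q⁻¹, ff x y c * q⁻¹ ^ 2,
    ff x y c * q⁻¹ ^ 3, ff x y c * q⁻¹ ^ 4}

section SRmem

variable (x y q) (c : k)

lemma SR_x : x ∈ SR k x y q c := Algebra.subset_adjoin (by simp)
lemma SR_y : y ∈ SR k x y q c := Algebra.subset_adjoin (by simp)
lemma SR_x1 : x * q ∈ SR k x y q c := Algebra.subset_adjoin (by simp)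
lemma SR_x2 : x * q ^ 2 ∈ SR k x y q c := Algebra.subset_adjoin (by simp)
lemma SR_x3 : x * q ^ 3 ∈ SR k x y q c := Algebra.subset_adjoin (by simp)
lemma SR_x4 : x * q ^ 4 ∈ SR k x y q c := Algebra.subset_adjoin (by simp)
lemma SR_f1 : ff x y c * q⁻¹ ∈ SR k x y q c := Algebra.subset_adjoin (by simp)
lemma SR_f2 : ff x y c * q⁻¹ ^ 2 ∈ SR k x y q c := Algebra.subset_adjoin (by simp)
lemma SR_f3 : ff x y c * q⁻¹ ^ 3 ∈ SR k x y q c := Algebra.subset_adjoin (by simp)
lemma SR_f4 : ff x y c * q⁻¹ ^ 4 ∈ SR k x y q c := Algebra.subset_adjoin (by simp)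
lemma SR_f : ff x y c ∈ SR k x y q c :=
  Subalgebra.sub_mem _ (SR_x x y q c) (Subalgebra.mul_mem _ (Subalgebra.algebraMap_mem _ c)
    (Subalgebra.pow_mem _ (SR_y x y q c) 2))

end SRmem

/-- The generators as a predicate. -/
lemma SR_le {S : Subalgebra k K} {c : k} (hx : x ∈ S) (hy : y ∈ S)
    (hxq : ∀ i : ℕ, 1 ≤ i → i ≤ 4 → x * q ^ i ∈ S)
    (hfq : ∀ i : ℕ, 1 ≤ i → i ≤ 4 → ff x y c * q⁻¹ ^ i ∈ S) : SR k x y q c ≤ S := by
  rw [SR, Algebra.adjoin_le_iff]
  rintro z hz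
  simp only [Set.mem_insert_iff, Set.mem_singleton_iff] at hz
  rcases hz with rfl | rfl | rfl | rfl | rfl | rfl | rfl | rfl | rfl | rfl
  · exact hx
  · exact hy
  · simpa using hxq 1 (by norm_num) (by norm_num)
  · exact hxq 2 (by norm_num) (by norm_num)
  · exact hxq 3 (by norm_num) (by norm_num)
  · exact hxq 4 (by norm_num) (by norm_num)
  · simpa using hfq 1 (by norm_num) (by norm_num)
  · exact hfq 2 (by norm_num) (by norm_num)
  · exact hfq 3 (by norm_num) (by norm_num)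
  · exact hfq 4 (by norm_num) (by norm_num)

lemma AL_x : x ∈ AL k x y q := Algebra.subset_adjoin (by simp)
lemma AL_y : y ∈ AL k x y q := Algebra.subset_adjoin (by simp)
lemma AL_q : q ∈ AL k x y q := Algebra.subset_adjoin (by simp)
lemma AL_qi : q⁻¹ ∈ AL k x y q := Algebra.subset_adjoin (by simp)
lemma AL_f (c : k) : ff x y c ∈ AL k x y q :=
  Subalgebra.sub_mem _ AL_x (Subalgebra.mul_mem _ (Subalgebra.algebraMap_mem _ c)
    (Subalgebra.pow_mem _ AL_y 2))

lemma SR_le_AL (c : k) : SR k x y q c ≤ AL k x y q :=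
  SR_le AL_x AL_y (fun i _ _ => Subalgebra.mul_mem _ AL_x (Subalgebra.pow_mem _ AL_q i))
    (fun i _ _ => Subalgebra.mul_mem _ (AL_f c) (Subalgebra.pow_mem _ AL_qi i))

variable (h : Coord k ![x, y, q])
include h

lemma V_xq (i : ℕ) : ord h.toV.Oc (x * q ^ i) = 2 := by
  rw [h.toV.dv.ord_mul h.ne_x (pow_ne_zero i h.ne_q), h.toV.dv.ord_pow h.ne_q, ordV_x h,
    ordV_q h]; ring

lemma V_fq (c : k) (i : ℕ) : 2 ≤ ord h.toV.Oc (ff x y c * q⁻¹ ^ i) := by
  have hqi := inv_ne_zero h.ne_q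
  rw [h.toV.dv.ord_mul (h.ne_f c) (pow_ne_zero i hqi), h.toV.dv.ord_pow hqi,
    h.toV.dv.ord_inv h.ne_q, ordV_q h]
  have := ordV_f h c
  omega

lemma SR_le_V (c : k) : SR k x y q c ≤ h.toV.Oc := by
  have hqi := inv_ne_zero h.ne_q
  refine SR_le (A2_le_V h (left_mem_A2 _ _)) (A2_le_V h (right_mem_A2 _ _)) ?_ ?_
  · intro i _ _
    rw [h.toV.dv.mem_iff (mul_ne_zero h.ne_x (pow_ne_zero i h.ne_q)), V_xq h]
    norm_num
  · intro i _ _
    rw [h.toV.dv.mem_iff (mul_ne_zero (h.ne_f c) (pow_ne_zero i hqi))]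
    have := V_fq h c i
    omega

/-- Compatibility of two evaluations at the vertex. -/
lemma SR_compat {w : Fin 3 → K} (c : k)
    (hx : ∃ p : MvPolynomial (Fin 3) k, aeval w p = x ∧ constantCoeff p = 0)
    (hy : ∃ p : MvPolynomial (Fin 3) k, aeval w p = y ∧ constantCoeff p = 0)
    (hxq : ∀ i : ℕ, 1 ≤ i → i ≤ 4 →
      ∃ p : MvPolynomial (Fin 3) k, aeval w p = x * q ^ i ∧ constantCoeff p = 0)
    (hfq : ∀ i : ℕ, 1 ≤ i → i ≤ 4 →
      ∃ p : MvPolynomial (Fin 3) k, aeval w p = ff x y c * q⁻¹ ^ i ∧ constantCoeff p = 0)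
    {g : K} (hg : g ∈ SR k x y q c) :
    ∃ p : MvPolynomial (Fin 3) k, aeval w p = g ∧
      g - algebraMap k K (constantCoeff p) ∈ h.toV.filt 1 := by
  have hqi := inv_ne_zero h.ne_q
  have hSV := SR_le_V h c
  have gen : ∀ z : K, z ≠ 0 → 1 ≤ ord h.toV.Oc z →
      (∃ p : MvPolynomial (Fin 3) k, aeval w p = z ∧ constantCoeff p = 0) →
      ∃ p : MvPolynomial (Fin 3) k, aeval w p = z ∧
        z - algebraMap k K (constantCoeff p) ∈ h.toV.filt 1 := by
    rintro z hz hz1 ⟨p, hp, hp0⟩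
    refine ⟨p, hp, ?_⟩
    rw [hp0, map_zero, sub_zero, h.toV.mem_filt_iff hz]
    exact hz1
  have hind : ∀ g ∈ SR k x y q c, g ∈ h.toV.Oc ∧ ∃ p : MvPolynomial (Fin 3) k, aeval w p = g ∧
      g - algebraMap k K (constantCoeff p) ∈ h.toV.filt 1 := by
    intro g hg
    refine ⟨hSV hg, ?_⟩
    rw [SR] at hg
    induction hg using Algebra.adjoin_induction with
    | mem z hz =>
      simp only [Set.mem_insert_iff, Set.mem_singleton_iff] at hz
      have key1 : ∀ i : ℕ, 1 ≤ i → i ≤ 4 → ∃ p : MvPolynomial (Fin 3) k,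
          aeval w p = x * q ^ i ∧ x * q ^ i - algebraMap k K (constantCoeff p) ∈ h.toV.filt 1 :=
        fun i h1 h2 => gen _ (mul_ne_zero h.ne_x (pow_ne_zero i h.ne_q))
          (by rw [V_xq h]; norm_num) (hxq i h1 h2)
      have key2 : ∀ i : ℕ, 1 ≤ i → i ≤ 4 → ∃ p : MvPolynomial (Fin 3) k,
          aeval w p = ff x y c * q⁻¹ ^ i ∧
          ff x y c * q⁻¹ ^ i - algebraMap k K (constantCoeff p) ∈ h.toV.filt 1 :=
        fun i h1 h2 => gen _ (mul_ne_zero (h.ne_f c) (pow_ne_zero i hqi))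
          (by have := V_fq h c i; omega) (hfq i h1 h2)
      rcases hz with rfl | rfl | rfl | rfl | rfl | rfl | rfl | rfl | rfl | rfl
      · exact gen _ h.ne_x (by rw [ordV_x h]; norm_num) hx
      · exact gen _ h.ne_y (by rw [ordV_y h]) hy
      · simpa using key1 1 (by norm_num) (by norm_num)
      · exact key1 2 (by norm_num) (by norm_num)
      · exact key1 3 (by norm_num) (by norm_num)
      · exact key1 4 (by norm_num) (by norm_num)
      · simpa using key2 1 (by norm_num) (by norm_num)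
      · exact key2 2 (by norm_num) (by norm_num)
      · exact key2 3 (by norm_num) (by norm_num)
      · exact key2 4 (by norm_num) (by norm_num)
    | algebraMap r =>
      exact ⟨C r, by simp, by simp⟩
    | add a b ha hb iha ihb =>
      obtain ⟨p, hp, hp'⟩ := iha
      obtain ⟨p2, hp2, hp2'⟩ := ihb
      refine ⟨p + p2, by rw [map_add, hp, hp2], ?_⟩
      have : a + b - algebraMap k K (constantCoeff (p + p2)) =
          (a - algebraMap k K (constantCoeff p)) + (b - algebraMap k K (constantCoeff p2)) := by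
        rw [map_add, map_add]; ring
      rw [this]
      exact Submodule.add_mem _ hp' hp2'
    | mul a b ha hb iha ihb =>
      obtain ⟨p, hp, hp'⟩ := iha
      obtain ⟨p2, hp2, hp2'⟩ := ihb
      refine ⟨p * p2, by rw [map_mul, hp, hp2], ?_⟩
      have : a * b - algebraMap k K (constantCoeff (p * p2)) =
          a * (b - algebraMap k K (constantCoeff p2)) +
            algebraMap k K (constantCoeff p2) * (a - algebraMap k K (constantCoeff p)) := by
        rw [map_mul, map_mul]; ring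
      rw [this]
      exact Submodule.add_mem _ (h.toV.mul_mem_filt (hSV ha) hp2')
        (h.toV.mul_mem_filt (Subalgebra.algebraMap_mem _ _) hp')
  exact (hind g hg).2

lemma SR_compat_1 (c : k) {g : K} (hg : g ∈ SR k x y q c) :
    ∃ p : MvPolynomial (Fin 3) k, aeval ![x * q ^ 4, q⁻¹, y] p = g ∧
      g - algebraMap k K (constantCoeff p) ∈ h.toV.filt 1 := by
  have hq := h.ne_q
  have hpw : ∀ i : ℕ, i ≤ 4 → q ^ 4 * q⁻¹ ^ (4 - i) = q ^ i := by
    intro i hi
    interval_cases i <;> norm_num <;> field_simp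
  refine SR_compat h c ?_ ?_ ?_ ?_ hg
  · refine ⟨X 0 * X 1 ^ 4, ?_, by simp⟩
    simp only [map_mul, map_pow, aeval_X, Matrix.cons_val_zero, Matrix.cons_val_one]
    rw [mul_assoc]
    have := hpw 0 (by norm_num)
    simp only [Nat.sub_zero, pow_zero] at this
    rw [this, mul_one]
  · exact ⟨X 2, by simp, by simp⟩
  · intro i _ hi
    refine ⟨X 0 * X 1 ^ (4 - i), ?_, by simp⟩
    simp only [map_mul, map_pow, aeval_X, Matrix.cons_val_zero, Matrix.cons_val_one]
    rw [mul_assoc, hpw i hi]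
  · intro i _ hi
    refine ⟨(X 0 * X 1 ^ 4 - C c * X 2 ^ 2) * X 1 ^ i, ?_, by simp⟩
    simp only [map_mul, map_sub, map_pow, aeval_X, Matrix.cons_val_zero, Matrix.cons_val_one,
      Matrix.cons_val_two, algHom_C]
    unfold ff
    have := hpw 0 (by norm_num)
    simp only [Nat.sub_zero, pow_zero] at this
    rw [mul_assoc x, this, mul_one]
    rfl

lemma SR_compat_2 (c : k) {g : K} (hg : g ∈ SR k x y q c) :
    ∃ p : MvPolynomial (Fin 3) k, aeval ![ff x y c * q⁻¹ ^ 4, q, y] p = g ∧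
      g - algebraMap k K (constantCoeff p) ∈ h.toV.filt 1 := by
  have hq := h.ne_q
  have hpw : ∀ i : ℕ, i ≤ 4 → q⁻¹ ^ 4 * q ^ (4 - i) = q⁻¹ ^ i := by
    intro i hi
    interval_cases i <;> field_simp <;> norm_num
  have hx4 : ff x y c * q⁻¹ ^ 4 * q ^ 4 + algebraMap k K c * y ^ 2 = x := by
    unfold ff
    field_simp
    ring
  refine SR_compat h c ?_ ?_ ?_ ?_ hg
  · refine ⟨X 0 * X 1 ^ 4 + C c * X 2 ^ 2, ?_, by simp⟩
    simp only [map_mul, map_add, map_pow, aeval_X, Matrix.cons_val_zero, Matrix.cons_val_one,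
      algHom_C]
    exact hx4
  · exact ⟨X 2, by simp, by simp⟩
  · intro i _ hi
    refine ⟨(X 0 * X 1 ^ 4 + C c * X 2 ^ 2) * X 1 ^ i, ?_, by simp⟩
    simp only [map_mul, map_add, map_pow, aeval_X, Matrix.cons_val_zero, Matrix.cons_val_one,
      algHom_C]
    change (ff x y c * q⁻¹ ^ 4 * q ^ 4 + algebraMap k K c * y ^ 2) * q ^ i = _
    rw [hx4]
  · intro i _ hi
    refine ⟨X 0 * X 1 ^ (4 - i), ?_, by simp⟩
    simp only [map_mul, map_pow, aeval_X, Matrix.cons_val_zero, Matrix.cons_val_one]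
    rw [mul_assoc, hpw i hi]

/-- An element of the coordinate ring which is a unit at the vertex is a unit along the first
divisor. -/
lemma ord1_of_ordV (c : k) {g : K} (hg : g ∈ SR k x y q c) (hg0 : g ≠ 0)
    (hV : ord h.toV.Oc g = 0) : ord h.to1.Oc g = 0 := by
  obtain ⟨p, hp, hp'⟩ := SR_compat_1 h c hg
  rw [← hp]
  apply h.to1.ord_aeval_eq_zero
  rintro ⟨r, hr⟩
  have : constantCoeff p = 0 := by rw [hr]; simp
  rw [this, map_zero, sub_zero, h.toV.mem_filt_iff hg0, hV] at hp'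
  omega

lemma ord2_of_ordV (c : k) {g : K} (hg : g ∈ SR k x y q c) (hg0 : g ≠ 0)
    (hV : ord h.toV.Oc g = 0) : ord (h.to2 c).Oc g = 0 := by
  obtain ⟨p, hp, hp'⟩ := SR_compat_2 h c hg
  rw [← hp]
  apply (h.to2 c).ord_aeval_eq_zero
  rintro ⟨r, hr⟩
  have : constantCoeff p = 0 := by rw [hr]; simp
  rw [this, map_zero, sub_zero, h.toV.mem_filt_iff hg0, hV] at hp'
  omega

lemma SR_le_cring1 (c : k) : SR k x y q c ≤ cring k ![x * q ^ 4, q⁻¹, y] := by
  intro g hg
  obtain ⟨p, hp, _⟩ := SR_compat_1 h c hg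
  exact mem_cring.2 ⟨p, hp⟩

lemma SR_le_cring2 (c : k) : SR k x y q c ≤ cring k ![ff x y c * q⁻¹ ^ 4, q, y] := by
  intro g hg
  obtain ⟨p, hp, _⟩ := SR_compat_2 h c hg
  exact mem_cring.2 ⟨p, hp⟩

lemma SR_le_1 (c : k) : SR k x y q c ≤ h.to1.Oc := (SR_le_cring1 h c).trans h.to1.isLoc.le
lemma SR_le_2 (c : k) : SR k x y q c ≤ (h.to2 c).Oc := (SR_le_cring2 h c).trans (h.to2 c).isLoc.le

end Pool.Agent.KltOpen
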