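import Pool.Agent.MP_ce0b4e_ag.Theta

universe u

open MvPolynomial KaehlerDifferential

namespace Pool.Agent.KltOpen

variable {k K : Type u} [Field k] [Field K] [Algebra k K]

section coords

variable {x y q : K}

lemma adjoin_mem_range {w : Fin 3 → K} (i : Fin 3) :
    w i ∈ IntermediateField.adjoin k (Set.range w) :=
  IntermediateField.subset_adjoin k _ ⟨i, rfl⟩

lemma Coord.ne_x (h : Coord k ![x, y, q]) : x ≠ 0 := h.ne_zero 0
lemma Coord.ne_y (h : Coord k ![x, y, q]) : y ≠ 0 := h.ne_zero 1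
lemma Coord.ne_q (h : Coord k ![x, y, q]) : q ≠ 0 := h.ne_zero 2

lemma Coord.toV (h : Coord k ![x, y, q]) : Coord k ![x / y ^ 2, y, q] := by
  have h0 := adjoin_mem_range (k := k) (w := ![x / y ^ 2, y, q]) 0
  have h1 := adjoin_mem_range (k := k) (w := ![x / y ^ 2, y, q]) 1
  have h2 := adjoin_mem_range (k := k) (w := ![x / y ^ 2, y, q]) 2
  refine h.change fun i => ?_
  fin_cases i
  · have e : (x / y ^ 2) * y ^ 2 = x := by field_simp [h.ne_y]
    have key := mul_mem h0 (pow_mem h1 2)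
    change (x / y ^ 2) * y ^ 2 ∈ _ at key
    rw [e] at key
    exact key
  · exact h1
  · exact h2

lemma Coord.to1 (h : Coord k ![x, y, q]) : Coord k ![x * q ^ 4, q⁻¹, y] := by
  have h0 := adjoin_mem_range (k := k) (w := ![x * q ^ 4, q⁻¹, y]) 0
  have h1 := adjoin_mem_range (k := k) (w := ![x * q ^ 4, q⁻¹, y]) 1
  have h2 := adjoin_mem_range (k := k) (w := ![x * q ^ 4, q⁻¹, y]) 2
  refine h.change fun i => ?_
  fin_cases i
  · have e : (x * q ^ 4) * (q⁻¹) ^ 4 = x := by field_simp [h.ne_q]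
    have key := mul_mem h0 (pow_mem h1 4)
    change (x * q ^ 4) * (q⁻¹) ^ 4 ∈ _ at key
    rw [e] at key
    exact key
  · exact h2
  · have e : (q⁻¹)⁻¹ = q := by simp
    have key := inv_mem h1
    change (q⁻¹)⁻¹ ∈ _ at key
    rw [e] at key
    exact key

/-- The second curve `x = c y ^ 2`. -/
def ff (x y : K) (c : k) : K := x - algebraMap k K c * y ^ 2

lemma Coord.to2 (h : Coord k ![x, y, q]) (c : k) :
    Coord k ![ff x y c * (q⁻¹) ^ 4, q, y] := by
  have h0 := adjoin_mem_range (k := k) (w := ![ff x y c * (q⁻¹) ^ 4, q, y]) 0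
  have h1 := adjoin_mem_range (k := k) (w := ![ff x y c * (q⁻¹) ^ 4, q, y]) 1
  have h2 := adjoin_mem_range (k := k) (w := ![ff x y c * (q⁻¹) ^ 4, q, y]) 2
  refine h.change fun i => ?_
  fin_cases i
  · have e : (ff x y c * (q⁻¹) ^ 4) * q ^ 4 + algebraMap k K c * y ^ 2 = x := by
      have := h.ne_q
      unfold ff
      field_simp
      ring
    have key := add_mem (mul_mem h0 (pow_mem h1 4))
      (mul_mem (IntermediateField.algebraMap_mem _ c) (pow_mem h2 2))
    change (ff x y c * (q⁻¹) ^ 4) * q ^ 4 + algebraMap k K c * y ^ 2 ∈ _ at key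
    rw [e] at key
    exact key
  · exact h2
  · exact h1

lemma Coord.toF (h : Coord k ![x, y, q]) (c : k) : Coord k ![ff x y c, y, q] := by
  have h0 := adjoin_mem_range (k := k) (w := ![ff x y c, y, q]) 0
  have h1 := adjoin_mem_range (k := k) (w := ![ff x y c, y, q]) 1
  have h2 := adjoin_mem_range (k := k) (w := ![ff x y c, y, q]) 2
  refine h.change fun i => ?_
  fin_cases i
  · have e : ff x y c + algebraMap k K c * y ^ 2 = x := by
      unfold ff
      ring
    have key := add_mem h0 (mul_mem (IntermediateField.algebraMap_mem _ c) (pow_mem h1 2))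
    change ff x y c + algebraMap k K c * y ^ 2 ∈ _ at key
    rw [e] at key
    exact key
  · exact h1
  · exact h2

lemma Coord.ne_f (h : Coord k ![x, y, q]) (c : k) : ff x y c ≠ 0 := (h.toF c).ne_x

end coords

section orders

variable {x y q : K} (h : Coord k ![x, y, q])
include h

lemma ordV_y : ord h.toV.Oc y = 1 := h.toV.ord_v1
lemma ordV_q : ord h.toV.Oc q = 0 := h.toV.ord_v2
lemma ordV_x : ord h.toV.Oc x = 2 := by
  have h0 : ord h.toV.Oc (x / y ^ 2) = 0 := h.toV.ord_v0
  rw [h.toV.dv.ord_div h.ne_x (pow_ne_zero 2 h.ne_y), h.toV.dv.ord_pow h.ne_y, ordV_y h] at h0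
  push_cast at h0
  omega

lemma ord1_y : ord h.to1.Oc y = 0 := h.to1.ord_v2
lemma ord1_q : ord h.to1.Oc q = -1 := by
  have h0 : ord h.to1.Oc q⁻¹ = 1 := h.to1.ord_v1
  rw [h.to1.dv.ord_inv h.ne_q] at h0
  omega
lemma ord1_x : ord h.to1.Oc x = 4 := by
  have h0 : ord h.to1.Oc (x * q ^ 4) = 0 := h.to1.ord_v0
  rw [h.to1.dv.ord_mul h.ne_x (pow_ne_zero 4 h.ne_q), h.to1.dv.ord_pow h.ne_q, ord1_q h] at h0
  push_cast at h0
  omega

lemma ord2_y (c : k) : ord (h.to2 c).Oc y = 0 := (h.to2 c).ord_v2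
lemma ord2_q (c : k) : ord (h.to2 c).Oc q = 1 := (h.to2 c).ord_v1
lemma ord2_f (c : k) : ord (h.to2 c).Oc (ff x y c) = 4 := by
  have h0 : ord (h.to2 c).Oc (ff x y c * (q⁻¹) ^ 4) = 0 := (h.to2 c).ord_v0
  have hqi := inv_ne_zero h.ne_q
  rw [(h.to2 c).dv.ord_mul (h.ne_f c) (pow_ne_zero 4 hqi), (h.to2 c).dv.ord_pow hqi,
    (h.to2 c).dv.ord_inv h.ne_q, ord2_q h] at h0
  push_cast at h0
  omega

omit h in
lemma ord_const {O : Subalgebra k K} {ϖ : K} (hO : DV O ϖ) {c : k} (hc : c ≠ 0) :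
    ord O (algebraMap k K c) = 0 := by
  have hne : algebraMap k K c ≠ 0 := by simpa using hc
  refine hO.ord_unit hne (O.algebraMap_mem c) ?_
  rw [← map_inv₀]
  exact O.algebraMap_mem _

lemma ord1_f {c : k} (hc : c ≠ 0) : ord h.to1.Oc (ff x y c) = 0 := by
  have hne : algebraMap k K c ≠ 0 := by simpa using hc
  have hy2 := pow_ne_zero 2 h.ne_y
  have e : ff x y c = -(algebraMap k K c * y ^ 2) + x := by unfold ff; ring
  have h1 : ord h.to1.Oc (-(algebraMap k K c * y ^ 2)) = 0 := by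
    rw [h.to1.dv.ord_neg (mul_ne_zero hne hy2), h.to1.dv.ord_mul hne hy2,
      ord_const h.to1.dv hc, h.to1.dv.ord_pow h.ne_y, ord1_y h]
    simp
  rw [e, (h.to1.dv.ord_add_eq (neg_ne_zero.2 (mul_ne_zero hne hy2)) _).2, h1]
  intro _
  rw [h1, ord1_x h]; norm_num

lemma ord2_x {c : k} (hc : c ≠ 0) : ord (h.to2 c).Oc x = 0 := by
  have hne : algebraMap k K c ≠ 0 := by simpa using hc
  have hy2 := pow_ne_zero 2 h.ne_y
  have e : (algebraMap k K c * y ^ 2) + ff x y c = x := by unfold ff; ring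
  have h1 : ord (h.to2 c).Oc (algebraMap k K c * y ^ 2) = 0 := by
    rw [(h.to2 c).dv.ord_mul hne hy2,
      ord_const (h.to2 c).dv hc, (h.to2 c).dv.ord_pow h.ne_y, ord2_y h]
    simp
  have key := ((h.to2 c).dv.ord_add_eq (b := ff x y c) (mul_ne_zero hne hy2) (by
    intro _
    rw [h1, ord2_f h]; norm_num)).2
  rw [e, h1] at key
  exact key

lemma ordV_f (c : k) : 2 ≤ ord h.toV.Oc (ff x y c) := by
  have e : ff x y c = x + (-(algebraMap k K c * y ^ 2)) := by unfold ff; ring
  rw [e]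
  apply h.toV.dv.le_ord_add
  · rw [← e]; exact h.ne_f c
  · intro _; rw [ordV_x h]
  · intro h0
    by_cases hc : c = 0
    · simp [hc] at h0
    have hne : algebraMap k K c ≠ 0 := by simpa using hc
    have hy2 := pow_ne_zero 2 h.ne_y
    rw [h.toV.dv.ord_neg (mul_ne_zero hne hy2), h.toV.dv.ord_mul hne hy2,
      ord_const h.toV.dv hc, h.toV.dv.ord_pow h.ne_y, ordV_y h]
    simp

end orders

/-! ### Elements of `k[x,y]` -/

/-- Extraction of the highest power of `a` from an element of `k[a,y]`. -/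
lemma exists_decomp (a y : K) (n : ℕ) : ∀ P : Polynomial (Polynomial k), P.natDegree ≤ n →
    Polynomial.eval₂ (Polynomial.aeval y : Polynomial k →ₐ[k] K).toRingHom a P ≠ 0 →
    ∃ (j : ℕ) (g : Polynomial k) (Q : Polynomial (Polynomial k)), Polynomial.aeval y g ≠ 0 ∧
      Polynomial.eval₂ (Polynomial.aeval y : Polynomial k →ₐ[k] K).toRingHom a P =
        a ^ j * (Polynomial.aeval y g + a *
          Polynomial.eval₂ (Polynomial.aeval y : Polynomial k →ₐ[k] K).toRingHom a Q) := by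
  set φ := (Polynomial.aeval y : Polynomial k →ₐ[k] K).toRingHom with hφ
  have hφ' : ∀ g, φ g = Polynomial.aeval y g := fun _ => rfl
  induction n with
  | zero =>
    intro P hP h0
    have hC := Polynomial.eq_C_of_natDegree_le_zero hP
    refine ⟨0, P.coeff 0, 0, ?_, ?_⟩
    · rw [hC, Polynomial.eval₂_C] at h0
      exact h0
    · conv_lhs => rw [hC, Polynomial.eval₂_C]
      simp [hφ']
  | succ n ih =>
    intro P hP h0
    have hdiv := Polynomial.divX_mul_X_add P
    have e : Polynomial.eval₂ φ a P = a * Polynomial.eval₂ φ a P.divX +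
        Polynomial.aeval y (P.coeff 0) := by
      conv_lhs => rw [← hdiv]
      rw [Polynomial.eval₂_add, Polynomial.eval₂_mul, Polynomial.eval₂_X, Polynomial.eval₂_C]
      rw [hφ']; ring
    by_cases hg : Polynomial.aeval y (P.coeff 0) = 0
    · rw [hg, add_zero] at e
      have hd : P.divX.natDegree ≤ n := by
        rw [Polynomial.natDegree_divX_eq_natDegree_tsub_one]; omega
      have h1 : Polynomial.eval₂ φ a P.divX ≠ 0 := by
        intro h2; apply h0; rw [e, h2, mul_zero]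
      obtain ⟨j, g, Q, hg', hQ⟩ := ih P.divX hd h1
      refine ⟨j + 1, g, Q, hg', ?_⟩
      rw [e, hQ]; ring
    · exact ⟨0, P.coeff 0, P.divX, hg, by rw [e]; ring⟩

variable (k) in
/-- The subalgebra `k[a,b]` of `K`. -/
def A2 (a b : K) : Subalgebra k K := Algebra.adjoin k {a, b}

lemma mem_A2_iff {a y z : K} : z ∈ A2 k a y ↔ ∃ P : Polynomial (Polynomial k),
    Polynomial.eval₂ (Polynomial.aeval y : Polynomial k →ₐ[k] K).toRingHom a P = z := by
  constructor
  · intro hz
    rw [A2] at hz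
    induction hz using Algebra.adjoin_induction with
    | mem z hz =>
      rcases hz with rfl | rfl
      · exact ⟨Polynomial.X, by simp⟩
      · exact ⟨Polynomial.C Polynomial.X, by simp⟩
    | algebraMap r => exact ⟨Polynomial.C (Polynomial.C r), by simp⟩
    | add u w _ _ hu hw =>
      obtain ⟨P, rfl⟩ := hu
      obtain ⟨Q, rfl⟩ := hw
      exact ⟨P + Q, Polynomial.eval₂_add _ _⟩
    | mul u w _ _ hu hw =>
      obtain ⟨P, rfl⟩ := hu
      obtain ⟨Q, rfl⟩ := hw
      exact ⟨P * Q, Polynomial.eval₂_mul _ _⟩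
  · rintro ⟨P, rfl⟩
    rw [Polynomial.eval₂_eq_sum_range]
    have ha : a ∈ A2 k a y := Algebra.subset_adjoin (by simp)
    have hy : y ∈ A2 k a y := Algebra.subset_adjoin (by simp)
    refine Subalgebra.sum_mem _ fun i _ => Subalgebra.mul_mem _ ?_ (Subalgebra.pow_mem _ ha i)
    change Polynomial.aeval y (P.coeff i) ∈ _
    exact Algebra.adjoin_mono (by simp) (Polynomial.aeval_mem_adjoin_singleton k y)

lemma left_mem_A2 (a b : K) : a ∈ A2 k a b := Algebra.subset_adjoin (by simp)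
lemma right_mem_A2 (a b : K) : b ∈ A2 k a b := Algebra.subset_adjoin (by simp)

lemma A2_decomp {a y z : K} (hz : z ∈ A2 k a y) (h0 : z ≠ 0) :
    ∃ (j : ℕ) (g : Polynomial k) (t : K), t ∈ A2 k a y ∧ Polynomial.aeval y g ≠ 0 ∧
      z = a ^ j * (Polynomial.aeval y g + a * t) := by
  obtain ⟨P, rfl⟩ := mem_A2_iff.1 hz
  obtain ⟨j, g, Q, hg, hQ⟩ := exists_decomp a y P.natDegree P le_rfl h0
  exact ⟨j, g, _, mem_A2_iff.2 ⟨Q, rfl⟩, hg, hQ⟩

lemma A2_ff (x y : K) (c : k) : A2 k (ff x y c) y = A2 k x y := by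
  apply le_antisymm
  · rw [A2, Algebra.adjoin_le_iff]
    rintro z (rfl | rfl)
    · exact Subalgebra.sub_mem _ (left_mem_A2 _ _)
        (Subalgebra.mul_mem _ (Subalgebra.algebraMap_mem _ c)
          (Subalgebra.pow_mem _ (right_mem_A2 _ _) 2))
    · exact right_mem_A2 _ _
  · rw [A2, Algebra.adjoin_le_iff]
    rintro z (rfl | rfl)
    · have : z = ff z y c + algebraMap k K c * y ^ 2 := by unfold ff; ring
      rw [this]
      exact Subalgebra.add_mem _ (by
          have : ff z y c + algebraMap k K c * y ^ 2 = z := by unfold ff; ring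
          rw [this]; exact left_mem_A2 _ _)
        (Subalgebra.mul_mem _ (Subalgebra.algebraMap_mem _ c)
          (Subalgebra.pow_mem _ (right_mem_A2 _ _) 2))
    · exact right_mem_A2 _ _

end Pool.Agent.KltOpen
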