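import Pool.Agent.MP_ce0b4e_ag.CoordRing

universe u

open MvPolynomial KaehlerDifferential

namespace Pool.Agent.KltOpen

variable {k K : Type u} [Field k] [Field K] [Algebra k K]

lemma eigen_mem [CharZero k] (θ : Derivation k K K) {V : Submodule k K}
    (hV : ∀ z ∈ V, θ z ∈ V) (s : Finset ℤ) : ∀ (c : ℤ → K),
    (∀ d ∈ s, θ (c d) = (d : K) * c d) → ∑ d ∈ s, c d ∈ V → ∀ d ∈ s, c d ∈ V := by
  classical
  induction s using Finset.induction_on with
  | empty => simp
  | insert d₀ s hd₀ ih =>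
    intro c hc hF
    have hk : ∀ n : ℤ, ∀ z : K, ((n : k) • z) = (n : K) * z := by
      intro n z
      rw [Algebra.smul_def, map_intCast]
    have hG : ∑ d ∈ s, ((d : K) - d₀) * c d ∈ V := by
      have h1 : θ (∑ d ∈ insert d₀ s, c d) - (d₀ : k) • ∑ d ∈ insert d₀ s, c d ∈ V :=
        V.sub_mem (hV _ hF) (V.smul_mem _ hF)
      have h2 : θ (∑ d ∈ insert d₀ s, c d) - (d₀ : k) • ∑ d ∈ insert d₀ s, c d
          = ∑ d ∈ s, ((d : K) - d₀) * c d := by
        rw [map_sum, Finset.sum_congr rfl hc, hk, Finset.sum_insert hd₀, Finset.sum_insert hd₀,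
          mul_add, Finset.mul_sum]
        have : ∑ d ∈ s, ((d : K) - d₀) * c d = ∑ d ∈ s, (d : K) * c d - ∑ d ∈ s, (d₀ : K) * c d := by
          rw [← Finset.sum_sub_distrib]
          exact Finset.sum_congr rfl fun d _ => by ring
        rw [this]
        ring
      rwa [h2] at h1
    have hs : ∀ d ∈ s, c d ∈ V := by
      have := ih (fun d => ((d : K) - d₀) * c d) (by
        intro d hd
        have h1 := hc d (Finset.mem_insert_of_mem hd)
        have h2 : ((d : K) - d₀) * c d = ((d - d₀ : ℤ) : k) • c d := by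
          rw [hk]; push_cast; ring
        rw [h2, θ.map_smul, h1, hk, hk]
        ring) hG
      intro d hd
      have h1 := this d hd
      have hne : ((d - d₀ : ℤ) : k) ≠ 0 := by
        rw [Int.cast_ne_zero]
        intro h0
        apply hd₀
        have : d = d₀ := by omega
        rwa [← this]
      have h2 : c d = (((d - d₀ : ℤ) : k))⁻¹ • (((d : K) - d₀) * c d) := by
        have : ((d : K) - d₀) * c d = ((d - d₀ : ℤ) : k) • c d := by
          rw [hk]; push_cast; ring
        rw [this, smul_smul, inv_mul_cancel₀ hne, one_smul]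
      rw [h2]
      exact V.smul_mem _ h1
    intro d hd
    rcases Finset.mem_insert.1 hd with rfl | hd
    · have : c d = ∑ d' ∈ insert d s, c d' - ∑ d' ∈ s, c d' := by
        rw [Finset.sum_insert hd₀]; ring
      rw [this]
      exact V.sub_mem hF (V.sum_mem hs)
    · exact hs d hd

namespace Coord

variable {v w : Fin 3 → K}

/-- The derivation of `K` with `v₀, v₁ ↦ 0` and `v₂ ↦ v₂`. -/
noncomputable def theta (h : Coord k v) : Derivation k K K :=
  LinearMap.compDer (v 2 • h.basis.coord 2) (D k K)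

lemma theta_apply (h : Coord k v) (z : K) : h.theta z = v 2 * h.basis.repr (D k K z) 2 := by
  simp [theta]

lemma theta_v (h : Coord k v) (i : Fin 3) : h.theta (v i) = if i = 2 then v 2 else 0 := by
  rw [theta_apply, ← h.basis_apply, Module.Basis.repr_self, Finsupp.single_apply]
  split_ifs <;> simp

/-- A derivation is homogeneous with respect to the coordinates `w`. -/
def Homog (θ : Derivation k K K) (w : Fin 3 → K) : Prop :=
  ∀ i, ∃ n : ℤ, θ (w i) = (n : K) * w i

lemma stable_cring {θ : Derivation k K K} (hθ : Homog θ w) {z : K} (hz : z ∈ cring k w) :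
    θ z ∈ cring k w := by
  obtain ⟨p, rfl⟩ := mem_cring.1 hz
  clear hz
  induction p using MvPolynomial.induction_on with
  | C a =>
    have : aeval w (C a : MvPolynomial (Fin 3) k) = algebraMap k K a := by simp
    rw [this, Derivation.map_algebraMap]
    exact Subalgebra.zero_mem _
  | add p q hp hq =>
    rw [map_add, map_add]
    exact Subalgebra.add_mem _ hp hq
  | mul_X p i hp =>
    rw [map_mul, Derivation.leibniz, aeval_X]
    simp only [smul_eq_mul]
    obtain ⟨n, hn⟩ := hθ i
    rw [hn]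
    refine Subalgebra.add_mem _ (Subalgebra.mul_mem _ (mem_cring.2 ⟨p, rfl⟩)
      (Subalgebra.mul_mem _ ?_ (coord_mem_cring w i))) (Subalgebra.mul_mem _ (coord_mem_cring w i) hp)
    exact Subalgebra.intCast_mem _ n

lemma stable_isLoc {θ : Derivation k K K} (hθ : Homog θ w) {O : Subalgebra k K} (hO : IsLoc w O)
    {z : K} (hz : z ∈ O) : θ z ∈ O := by
  obtain ⟨a, ha, b, hb, hb0, hbi, rfl⟩ := hO.frac z hz
  rw [div_eq_mul_inv, Derivation.leibniz, Derivation.leibniz_inv]
  simp only [smul_eq_mul]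
  have h1 := hO.le (stable_cring hθ ha)
  have h2 := hO.le (stable_cring hθ hb)
  refine O.add_mem (O.mul_mem (hO.le ha) (O.mul_mem ?_ h2)) (O.mul_mem hbi h1)
  simpa using O.neg_mem (O.pow_mem hbi 2)

/-- The `k`-subspace of elements of order at least `e`. -/
def filt (h : Coord k w) (e : ℤ) : Submodule k K where
  carrier := {z | z * (w 1) ^ (-e) ∈ h.Oc}
  add_mem' := by
    intro a b ha hb
    change (a + b) * (w 1) ^ (-e) ∈ h.Oc
    rw [add_mul]; exact Subalgebra.add_mem _ ha hb
  zero_mem' := by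
    change 0 * (w 1) ^ (-e) ∈ h.Oc
    rw [zero_mul]; exact Subalgebra.zero_mem _
  smul_mem' := by
    intro c a ha
    change (c • a) * (w 1) ^ (-e) ∈ h.Oc
    rw [smul_mul_assoc]
    exact Subalgebra.smul_mem _ ha c

lemma mem_filt (h : Coord k w) {e : ℤ} {z : K} : z ∈ h.filt e ↔ z * (w 1) ^ (-e) ∈ h.Oc := Iff.rfl

lemma mem_filt_iff (h : Coord k w) {e : ℤ} {z : K} (hz : z ≠ 0) :
    z ∈ h.filt e ↔ e ≤ ord h.Oc z := by
  rw [h.dv.le_ord_iff hz]; rfl

lemma stable_filt (h : Coord k w) {θ : Derivation k K K} (hθ : Homog θ w) {e : ℤ} {z : K}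
    (hz : z ∈ h.filt e) : θ z ∈ h.filt e := by
  rw [mem_filt] at hz ⊢
  obtain ⟨n, hn⟩ := hθ 1
  have hw := h.ne_zero 1
  have key : θ z * w 1 ^ (-e) = θ (z * w 1 ^ (-e)) + (e : K) * n * (z * w 1 ^ (-e)) := by
    rw [Derivation.leibniz, Derivation.leibniz_zpow, hn]
    simp only [smul_eq_mul, zsmul_eq_mul]
    have : w 1 ^ (-e - 1) * w 1 = w 1 ^ (-e) := by
      rw [← zpow_add_one₀ hw]; congr 1; ring
    push_cast
    linear_combination (z * (e : K) * n) * this
  rw [key]
  refine Subalgebra.add_mem _ (stable_isLoc hθ h.isLoc hz) (Subalgebra.mul_mem _ ?_ hz)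
  exact Subalgebra.mul_mem _ (Subalgebra.intCast_mem _ e) (Subalgebra.intCast_mem _ n)

/-- Each homogeneous component has order at least the order of the sum. -/
lemma le_ord_component [CharZero k] (h : Coord k w) {θ : Derivation k K K} (hθ : Homog θ w)
    (s : Finset ℤ) (c : ℤ → K) (hc : ∀ d ∈ s, θ (c d) = (d : K) * c d) {e : ℤ}
    (hF : ∑ d ∈ s, c d ∈ h.filt e) {d : ℤ} (hd : d ∈ s) (hd0 : c d ≠ 0) :
    e ≤ ord h.Oc (c d) := by
  rw [← h.mem_filt_iff hd0]
  exact eigen_mem θ (fun z hz => h.stable_filt hθ hz) s c hc hF d hd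

end Coord

end Pool.Agent.KltOpen
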